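import Pool.Agent.LibOL95.Defs

/-!
Row A1. Higman's criterion and subgroups.

Plan. (hig_res) `∑ᶠ g : G = ∑ over right cosets P c`, `G = ⊔ P c`: with `θ' = ∑_c ρ c θ ρ c⁻¹` (`c` over representatives of the
right cosets) `∑_{p ∈ P} ρ p θ' ρ p⁻¹ = ∑_g ρ g θ ρ g⁻¹`. (hig_of_res) for `θ` with `∑_{p ∈ P} p θ p⁻¹ = id` we get
`∑_{g ∈ G} g θ g⁻¹ = ∑_{c ∈ G/P} c (∑_p p θ p⁻¹) c⁻¹ = |G:P| id` (representatives of left cosets `c P`); divide by `|G:P|`.
For the sums over cosets use e.g. `Subgroup.groupEquivQuotientProdSubgroup : G ≃ (G ⧸ P) × P` (left cosets, `g = q.out * p`)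
and, for right cosets, take inverses.
-/

set_option autoImplicit false
noncomputable section
namespace Pool.OL95

/-- a group as the product of the left cosets of a subgroup and the subgroup -/
def a1_equiv {G : Type} [Group G] (P : Subgroup G) : (G ⧸ P) × P ≃ G where
  toFun qp := Quotient.out qp.1 * qp.2
  invFun g := (QuotientGroup.mk g, ⟨(Quotient.out (QuotientGroup.mk g : G ⧸ P))⁻¹ * g,
    QuotientGroup.eq.1 (QuotientGroup.out_eq' _)⟩)
  left_inv := by
    rintro ⟨q, p⟩
    have h1 : (QuotientGroup.mk (Quotient.out q * (p : G)) : G ⧸ P) = q := by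
      rw [QuotientGroup.mk_mul_of_mem _ p.2]
      exact QuotientGroup.out_eq' q
    refine Prod.ext h1 (Subtype.ext ?_)
    change (Quotient.out (QuotientGroup.mk (Quotient.out q * (p : G)) : G ⧸ P))⁻¹ *
      (Quotient.out q * (p : G)) = p
    rw [h1, inv_mul_cancel_left]
  right_inv := by
    intro g
    change Quotient.out (QuotientGroup.mk g : G ⧸ P) *
      ((Quotient.out (QuotientGroup.mk g : G ⧸ P))⁻¹ * g) = g
    rw [mul_inv_cancel_left]

theorem a1_sum {G : Type} [Group G] [Fintype G] (P : Subgroup G) [Fintype (G ⧸ P)] [Fintype P]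
    {M : Type} [AddCommMonoid M] (f : G → M) :
    ∑ g, f g = ∑ q : G ⧸ P, ∑ p : P, f (Quotient.out q * p) := by
  rw [← Fintype.sum_prod_type' (f := fun (q : G ⧸ P) (p : P) => f (Quotient.out q * p))]
  exact (Fintype.sum_equiv (a1_equiv P) _ _ (fun _ => rfl)).symm

theorem hig_res {k : Type} [Field k] {G : Type} [Group G] [Finite G] {V : Type} [AddCommGroup V]
    [Module k V] (ρ : Representation k G V) (P : Subgroup G) (h : Hig ρ) : Hig (res ρ P) := by
  classical
  obtain ⟨θ, hθ⟩ := h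
  have := Fintype.ofFinite G
  have := Fintype.ofFinite P
  have := Fintype.ofFinite (G ⧸ P)
  refine ⟨∑ q : G ⧸ P, (ρ (Quotient.out q)⁻¹) ∘ₗ θ ∘ₗ (ρ (Quotient.out q)), fun v => ?_⟩
  rw [finsum_eq_sum_of_fintype]
  have h1 := hθ v
  rw [finsum_eq_sum_of_fintype, ← Equiv.sum_comp (Equiv.inv G)] at h1
  rw [← Equiv.sum_comp (Equiv.inv P)]
  conv_rhs => rw [← h1]
  rw [a1_sum P, Finset.sum_comm]
  refine Finset.sum_congr rfl fun p _ => ?_
  simp only [Equiv.inv_apply, inv_inv, res_apply, LinearMap.sum_apply, map_sum,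
    LinearMap.comp_apply, Subgroup.coe_inv]
  refine Finset.sum_congr rfl fun q _ => ?_
  rw [mul_inv_rev, map_mul, map_mul]
  rfl

theorem hig_of_res {k : Type} [Field k] {G : Type} [Group G] [Finite G] {V : Type}
    [AddCommGroup V] [Module k V] (ρ : Representation k G V) (P : Subgroup G)
    (hP : (P.index : k) ≠ 0) (h : Hig (res ρ P)) : Hig ρ := by
  classical
  obtain ⟨θ, hθ⟩ := h
  have := Fintype.ofFinite G
  have := Fintype.ofFinite P
  have := Fintype.ofFinite (G ⧸ P)
  refine ⟨(P.index : k)⁻¹ • θ, fun v => ?_⟩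
  rw [finsum_eq_sum_of_fintype, a1_sum P]
  have h1 : ∀ q : G ⧸ P, ∑ p : P, ρ (Quotient.out q * p)
      (((P.index : k)⁻¹ • θ) (ρ (Quotient.out q * (p : G))⁻¹ v)) = (P.index : k)⁻¹ • v := by
    intro q
    have h2 := hθ (ρ (Quotient.out q)⁻¹ v)
    rw [finsum_eq_sum_of_fintype] at h2
    have h3 : ρ (Quotient.out q) (ρ (Quotient.out q)⁻¹ v) = v := by
      have h4 : (ρ (Quotient.out q) * ρ (Quotient.out q)⁻¹) v = v := by
        rw [← map_mul, mul_inv_cancel, map_one]
        rfl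
      exact h4
    conv_rhs => rw [← h3, ← h2]
    rw [map_sum, Finset.smul_sum]
    refine Finset.sum_congr rfl fun p _ => ?_
    rw [mul_inv_rev, map_mul, map_mul, LinearMap.smul_apply, map_smul]
    rfl
  rw [Finset.sum_congr rfl fun q _ => h1 q, Finset.sum_const, Finset.card_univ,
    ← Nat.card_eq_fintype_card, ← Subgroup.index, ← Nat.cast_smul_eq_nsmul k, smul_smul,
    mul_inv_cancel₀ hP, one_smul]

end Pool.OL95
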