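import Pool.Agent.LibOL95.Defs

/-!
Row A2. In characteristic `ℓ`, for `x` of order `ℓ`: `∑_{i < ℓ} ρ(x)^i = D^{ℓ-1}`, `D^ℓ = 0`.

Plan. In the commutative ring `k[X]` (or `Algebra.adjoin`), `(X - 1)^{ℓ-1} * (X - 1) = X^ℓ - 1 = (∑_{i<ℓ} X^i) (X - 1)` in
characteristic `ℓ` (`sub_pow_char`), cancel `X - 1`; then evaluate at `ρ x` with `Polynomial.aeval`.
-/

set_option autoImplicit false
noncomputable section
namespace Pool.OL95

theorem a2_aeval {k : Type} [Field k] {G : Type} [Group G] {V : Type} [AddCommGroup V]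
    [Module k V] (ρ : Representation k G V) (x : G) (n : ℕ) :
    Polynomial.aeval (R := k) (A := Module.End k V) (ρ x) ((Polynomial.X - 1) ^ n) =
      (DD ρ x) ^ n := by
  rw [map_pow, map_sub, Polynomial.aeval_X, map_one]
  rfl

theorem a2_char {ℓ : ℕ} [Fact ℓ.Prime] {k : Type} [Field k] [CharP k ℓ] :
    ((Polynomial.X : Polynomial k) - 1) ^ ℓ = Polynomial.X ^ ℓ - 1 := by
  rw [sub_pow_char, one_pow]

theorem sum_pow_eq {ℓ : ℕ} [Fact ℓ.Prime] {k : Type} [Field k] [CharP k ℓ] {G : Type} [Group G]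
    {V : Type} [AddCommGroup V] [Module k V] (ρ : Representation k G V) (x : G) (v : V) :
    ∑ i ∈ Finset.range ℓ, ρ (x ^ i) v = ((DD ρ x) ^ (ℓ - 1)) v := by
  have hℓ : 0 < ℓ := (Fact.out : ℓ.Prime).pos
  have h1 : ∑ i ∈ Finset.range ℓ, (Polynomial.X : Polynomial k) ^ i =
      (Polynomial.X - 1) ^ (ℓ - 1) := by
    have h2 : (Polynomial.X : Polynomial k) - 1 ≠ 0 := by
      have := Polynomial.X_sub_C_ne_zero (1 : k)
      rwa [Polynomial.C_1] at this
    apply mul_right_cancel₀ h2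
    rw [geom_sum_mul, ← pow_succ, Nat.sub_add_cancel hℓ, a2_char]
  rw [← a2_aeval, ← h1, map_sum, LinearMap.sum_apply]
  refine Finset.sum_congr rfl fun i _ => ?_
  rw [map_pow, map_pow, Polynomial.aeval_X]

theorem DD_pow_eq_zero {ℓ : ℕ} [Fact ℓ.Prime] {k : Type} [Field k] [CharP k ℓ] {G : Type} [Group G]
    {V : Type} [AddCommGroup V] [Module k V] (ρ : Representation k G V) (x : G)
    (hx : orderOf x = ℓ) (v : V) : ((DD ρ x) ^ ℓ) v = 0 := by
  rw [← a2_aeval, a2_char, map_sub, map_pow, Polynomial.aeval_X, map_one, ← map_pow, ← hx,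
    pow_orderOf_eq_one, map_one, sub_self]
  rfl

/-- `x` acts trivially on `V / range D`. -/
theorem sub_mem_RD {k : Type} [Field k] {G : Type} [Group G] {V : Type} [AddCommGroup V]
    [Module k V] (ρ : Representation k G V) (x : G) (i : ℕ) (v : V) : ρ (x ^ i) v - v ∈ RD ρ x := by
  refine ⟨(∑ j ∈ Finset.range i, (ρ x) ^ j) v, ?_⟩
  have h1 : (DD ρ x) * (∑ j ∈ Finset.range i, (ρ x) ^ j) = (ρ x) ^ i - 1 := mul_geom_sum (ρ x) i
  have h2 := congrArg (fun f : Module.End k V => f v) h1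
  rw [map_pow]
  exact h2

end Pool.OL95
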