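import Pool.Agent.LibOL95.A2

/-!
Row A3a. For `x` of order `ℓ`, `P = ⟨x⟩`, `Hig (res ρ P)`: `ker D^{ℓ-1} ≤ range D`.

Plan. For `v ∈ ker D^{ℓ-1}`: `v = ∑_{i<ℓ} x^i θ x^{-i} v` (the sum over `P` is a sum over `i < ℓ`, e.g. `Subgroup.zpowers` and
`finEquivZPowers` / `zpowersEquivZPowers` ...); by `sub_mem_RD` this is `≡ ∑_i θ (x^{-i} v) = θ (∑_i x^{-i} v) = θ (∑_i x^i v) = θ (D^{ℓ-1} v) = 0` modulo
`range D` (`sum_pow_eq`).
-/

set_option autoImplicit false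
noncomputable section
namespace Pool.OL95

private theorem a3a_sum {ℓ : ℕ} (hℓ : 0 < ℓ) {G : Type} [Group G] {V : Type} [AddCommGroup V] (x : G)
    (hx : orderOf x = ℓ) (f : G → V) :
    ∑ᶠ g : Subgroup.zpowers x, f g = ∑ i ∈ Finset.range ℓ, f (x ^ i) := by
  subst hx
  have hfin : IsOfFinOrder x := orderOf_pos_iff.1 hℓ
  rw [← finsum_comp_equiv (finEquivZPowers hfin), finsum_eq_sum_of_fintype, Finset.sum_range]
  refine Finset.sum_congr rfl fun i _ => ?_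
  rw [finEquivZPowers_apply]

theorem KD_le_of_hig {ℓ : ℕ} [Fact ℓ.Prime] {k : Type} [Field k] [CharP k ℓ] {G : Type} [Group G]
    [Finite G] {V : Type} [AddCommGroup V] [Module k V] (ρ : Representation k G V) (x : G)
    (hx : orderOf x = ℓ) (h : Hig (res ρ (Subgroup.zpowers x))) : KD ρ x (ℓ - 1) ≤ RD ρ x := by
  intro v hv
  obtain ⟨θ, hθ⟩ := h
  have hℓ : 0 < ℓ := (Fact.out : ℓ.Prime).pos
  have h1 : ∑ i ∈ Finset.range ℓ, ρ (x ^ i) (θ (ρ (x ^ i)⁻¹ v)) = v := by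
    rw [← a3a_sum hℓ x hx (fun g => ρ g (θ (ρ g⁻¹ v)))]
    exact hθ v
  have h2 : ∑ i ∈ Finset.range ℓ, ρ (x ^ i)⁻¹ v = ∑ i ∈ Finset.range ℓ, ρ (x ^ i) v := by
    rw [← a3a_sum hℓ x hx (fun g => ρ g⁻¹ v), ← a3a_sum hℓ x hx (fun g => ρ g v),
      ← finsum_comp_equiv (Equiv.inv (Subgroup.zpowers x))]
    refine finsum_congr fun g => ?_
    simp
  have h3 : ∑ i ∈ Finset.range ℓ, θ (ρ (x ^ i)⁻¹ v) = 0 := by
    rw [← map_sum, h2, sum_pow_eq]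
    have h4 : ((DD ρ x) ^ (ℓ - 1)) v = 0 := hv
    rw [h4, map_zero]
  have h5 : v = ∑ i ∈ Finset.range ℓ, (ρ (x ^ i) (θ (ρ (x ^ i)⁻¹ v)) - θ (ρ (x ^ i)⁻¹ v)) := by
    rw [Finset.sum_sub_distrib, h1, h3, sub_zero]
  rw [h5]
  exact Submodule.sum_mem _ fun i _ => sub_mem_RD ρ x i _

end Pool.OL95
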