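import Pool.Agent.LibOL95.A2

/-!
Row A3b. For `x` of order `ℓ`, `P = ⟨x⟩`, `ker D^{ℓ-1} ≤ range D`: `Hig (res ρ P)`.

Plan. Choose a complement `U` of `ker D^{ℓ-1}` in `V` (`Submodule.exists_isCompl`); `ker D^{ℓ-1} = range D` (`D^ℓ = 0`). The map
`Φ : (Fin ℓ → U) → V, u ↦ ∑_i D^i u_i` is bijective: injective, for if `∑ D^i u_i = 0` and `i` is minimal with `u_i ≠ 0`, apply `D^{ℓ-1-i}`: `D^{ℓ-1} u_i = 0`, so
`u_i ∈ U ∩ ker D^{ℓ-1} = 0`; surjective, for `V = U + range D = U + D U + D² V = ...`, `D^ℓ = 0`. Then `u ↦ ∑_i x^i u_i` is bijective too (the same two arguments, as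
`x^i = (1 + D)^i`; or: the span of the `x^i U` contains all `D^i U`, so it is surjective, and in the injectivity argument use the top term: if `∑_i x^i u_i = 0`, rewrite as
`∑_j D^j (∑_i binom(i,j) u_i) = 0`, so `∑_i binom(i,j) u_i = 0` for all `j < ℓ`, and all `u_i = 0` from `j = ℓ-1` downwards). Let `θ` be the projection to the `0`-th component followed
by the inclusion `U → V`: then `x^i θ x^{-i}` is the projection to the `i`-th component (`x^ℓ = 1`) and these sum to `id`.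
Any other correct proof is welcome.
-/

set_option autoImplicit false
noncomputable section
namespace Pool.OL95

/-- The sum over a cyclic group of order `ℓ`. -/
theorem a3b_sum {ℓ : ℕ} {G M : Type} [Group G] [AddCommMonoid M] (x : G) (hℓ : 0 < ℓ)
    (hx : orderOf x = ℓ) [Fintype (Subgroup.zpowers x)] (F : G → M) :
    ∑ p : Subgroup.zpowers x, F p = ∑ i ∈ Finset.range ℓ, F (x ^ i) := by
  classical
  have hfin : IsOfFinOrder x := orderOf_pos_iff.1 (by rw [hx]; exact hℓ)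
  rw [← Finset.sum_range (fun i => F (x ^ i)) |>.symm]
  subst hx
  rw [← Equiv.sum_comp (finEquivZPowers hfin) (fun p : Subgroup.zpowers x => F p)]
  refine Finset.sum_congr rfl fun i _ => ?_
  rw [finEquivZPowers_apply]

section
variable {k : Type} [Field k] {G : Type} [Group G] {V : Type} [AddCommGroup V] [Module k V]

theorem a3b_inv (ρ : Representation k G V) (g h : G) (v : V) : ρ g (ρ h v) = ρ (g * h) v := by
  rw [map_mul]
  rfl

/-- The average of `θ` over the group generated by `x`. -/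
def a3b_E (ρ : Representation k G V) (x : G) [Fintype (Subgroup.zpowers x)] (θ : V →ₗ[k] V) :
    V →ₗ[k] V := ∑ p : Subgroup.zpowers x, (ρ (p : G)) ∘ₗ θ ∘ₗ (ρ ((p : G)⁻¹))

theorem a3b_E_apply (ρ : Representation k G V) (x : G) [Fintype (Subgroup.zpowers x)]
    (θ : V →ₗ[k] V) (v : V) :
    a3b_E ρ x θ v = ∑ p : Subgroup.zpowers x, ρ (p : G) (θ (ρ ((p : G)⁻¹) v)) := by
  unfold a3b_E
  rw [LinearMap.sum_apply]
  rfl

theorem a3b_E_comm (ρ : Representation k G V) (x : G) [Fintype (Subgroup.zpowers x)]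
    (θ : V →ₗ[k] V) (q : Subgroup.zpowers x) (v : V) :
    a3b_E ρ x θ (ρ (q : G) v) = ρ (q : G) (a3b_E ρ x θ v) := by
  rw [a3b_E_apply, a3b_E_apply, map_sum,
    ← Equiv.sum_comp (Equiv.mulLeft q) (fun p : Subgroup.zpowers x =>
      ρ (p : G) (θ (ρ ((p : G)⁻¹) (ρ (q : G) v))))]
  refine Finset.sum_congr rfl fun p _ => ?_
  have h1 : ((Equiv.mulLeft q p : Subgroup.zpowers x) : G) = (q : G) * p := rfl
  rw [h1, a3b_inv, a3b_inv]
  congr 3
  group

end

theorem hig_of_KD_le {ℓ : ℕ} [Fact ℓ.Prime] {k : Type} [Field k] [CharP k ℓ] {G : Type} [Group G]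
    [Finite G] {V : Type} [AddCommGroup V] [Module k V] (ρ : Representation k G V) (x : G)
    (hx : orderOf x = ℓ) (h : KD ρ x (ℓ - 1) ≤ RD ρ x) : Hig (res ρ (Subgroup.zpowers x)) := by
  classical
  have hℓ : 0 < ℓ := (Fact.out : ℓ.Prime).pos
  have : Fintype (Subgroup.zpowers x) := Fintype.ofFinite _
  obtain ⟨U, hU⟩ := Submodule.exists_isCompl (KD ρ x (ℓ - 1))
  -- the left inverse of `D ^ (ℓ - 1)` on `U`
  obtain ⟨σ, hσ⟩ := LinearMap.exists_leftInverse_of_injective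
    (((DD ρ x) ^ (ℓ - 1)).domRestrict U) (by
      rw [LinearMap.ker_eq_bot']
      intro u hu
      have h1 : (u : V) ∈ KD ρ x (ℓ - 1) := hu
      have h2 : (u : V) ∈ KD ρ x (ℓ - 1) ⊓ U := ⟨h1, u.2⟩
      rw [hU.inf_eq_bot, Submodule.mem_bot] at h2
      exact Subtype.ext h2)
  obtain ⟨θ₀, hθ₀⟩ : ∃ θ₀ : V →ₗ[k] V, θ₀ = U.subtype ∘ₗ σ := ⟨_, rfl⟩
  have hθu : ∀ u ∈ U, θ₀ (((DD ρ x) ^ (ℓ - 1)) u) = u := by
    intro u hu
    have h1 := congrArg (fun f : U →ₗ[k] U => (f ⟨u, hu⟩ : V)) hσ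
    rw [hθ₀]
    exact h1
  have hDE : ∀ v, a3b_E ρ x θ₀ (DD ρ x v) = DD ρ x (a3b_E ρ x θ₀ v) := by
    intro v
    rw [DD_apply, DD_apply, map_sub]
    have h1 := a3b_E_comm ρ x θ₀ ⟨x, Subgroup.mem_zpowers x⟩ v
    rw [h1]
  -- the sum over the group
  have hsum : ∀ v, ∑ p : Subgroup.zpowers x, ρ ((p : G)⁻¹) v = ((DD ρ x) ^ (ℓ - 1)) v := by
    intro v
    rw [← sum_pow_eq ρ x v, ← a3b_sum x hℓ hx (fun g => ρ g v),
      ← Equiv.sum_comp (Equiv.inv (Subgroup.zpowers x)) (fun p : Subgroup.zpowers x => ρ (p : G) v)]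
    rfl
  have hres : ∀ (p : Subgroup.zpowers x) (v : V), ρ (p : G) v - v ∈ RD ρ x := by
    intro p v
    obtain ⟨i, hi⟩ := (mem_zpowers_iff_mem_range_orderOf.1 p.2 |> Finset.mem_image.1)
    rw [← hi.2]
    exact sub_mem_RD ρ x i v
  have hN1 : ∀ u ∈ U, a3b_E ρ x θ₀ u - u ∈ RD ρ x := by
    intro u hu
    have h1 : u = ∑ p : Subgroup.zpowers x, θ₀ (ρ ((p : G)⁻¹) u) := by
      rw [← map_sum, hsum, hθu u hu]
    have h2 : a3b_E ρ x θ₀ u - u = ∑ p : Subgroup.zpowers x,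
        (ρ (p : G) (θ₀ (ρ ((p : G)⁻¹) u)) - θ₀ (ρ ((p : G)⁻¹) u)) := by
      rw [Finset.sum_sub_distrib, ← h1, a3b_E_apply]
    rw [h2]
    exact Submodule.sum_mem _ fun p _ => hres p _
  have hN2 : ∀ v, a3b_E ρ x θ₀ v - v ∈ RD ρ x := by
    intro v
    have h1 : v ∈ KD ρ x (ℓ - 1) ⊔ U := by
      rw [hU.sup_eq_top]
      exact Submodule.mem_top
    obtain ⟨κ, hκ, u, hu, rfl⟩ := Submodule.mem_sup.1 h1
    obtain ⟨w, rfl⟩ := h hκ
    have h2 : a3b_E ρ x θ₀ (DD ρ x w + u) - (DD ρ x w + u) =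
        DD ρ x (a3b_E ρ x θ₀ w - w) + (a3b_E ρ x θ₀ u - u) := by
      rw [map_add, hDE, map_sub]
      abel
    rw [h2]
    exact Submodule.add_mem _ ⟨_, rfl⟩ (hN1 u hu)
  obtain ⟨N, hN⟩ : ∃ N : Module.End k V, N = a3b_E ρ x θ₀ - 1 := ⟨_, rfl⟩
  have hNv : ∀ v, N v = a3b_E ρ x θ₀ v - v := by
    intro v
    rw [hN]
    rfl
  have hND : ∀ v, N (DD ρ x v) = DD ρ x (N v) := by
    intro v
    rw [hNv, hNv, hDE, map_sub]
  have hNDj : ∀ (j : ℕ) (v : V), N (((DD ρ x) ^ j) v) = ((DD ρ x) ^ j) (N v) := by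
    intro j
    induction j with
    | zero => intro v; rfl
    | succ j ih =>
      intro v
      rw [pow_succ, Module.End.mul_apply, Module.End.mul_apply, ih, hND]
  have hNj : ∀ (j : ℕ) (v : V), ∃ w, (N ^ j) v = ((DD ρ x) ^ j) w := by
    intro j
    induction j with
    | zero => intro v; exact ⟨v, rfl⟩
    | succ j ih =>
      intro v
      obtain ⟨w, hw⟩ := ih v
      obtain ⟨w', hw'⟩ := hN2 w
      refine ⟨w', ?_⟩
      rw [pow_succ', Module.End.mul_apply, hw, hNDj, hNv, ← hw', pow_succ, Module.End.mul_apply]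
  have hnil : IsNilpotent N := by
    refine ⟨ℓ, ?_⟩
    ext v
    obtain ⟨w, hw⟩ := hNj ℓ v
    rw [hw, DD_pow_eq_zero ρ x hx]
    rfl
  have hunit : IsUnit (1 + N) := hnil.isUnit_one_add
  have hE1 : (a3b_E ρ x θ₀ : Module.End k V) = 1 + N := by
    rw [hN]
    abel
  obtain ⟨e, he⟩ := hunit
  have hl : ∀ v, a3b_E ρ x θ₀ ((↑e⁻¹ : Module.End k V) v) = v := by
    intro v
    have h1 : (1 + N) * (↑e⁻¹ : Module.End k V) = 1 := by
      rw [← he]
      exact e.mul_inv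
    have h2 := congrArg (fun f : Module.End k V => f v) h1
    rw [← hE1] at h2
    exact h2
  have hr : ∀ v, (↑e⁻¹ : Module.End k V) (a3b_E ρ x θ₀ v) = v := by
    intro v
    have h1 : (↑e⁻¹ : Module.End k V) * (1 + N) = 1 := by
      rw [← he]
      exact e.inv_mul
    have h2 := congrArg (fun f : Module.End k V => f v) h1
    rw [← hE1] at h2
    exact h2
  have hcomm : ∀ (q : Subgroup.zpowers x) (v : V), (↑e⁻¹ : Module.End k V) (ρ (q : G) v) =
      ρ (q : G) ((↑e⁻¹ : Module.End k V) v) := by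
    intro q v
    have h1 := a3b_E_comm ρ x θ₀ q ((↑e⁻¹ : Module.End k V) v)
    rw [hl] at h1
    rw [← h1, hr]
  refine ⟨θ₀ ∘ₗ (↑e⁻¹ : Module.End k V), fun v => ?_⟩
  rw [finsum_eq_sum_of_fintype]
  refine Eq.trans ?_ (hl v)
  rw [a3b_E_apply]
  refine Finset.sum_congr rfl fun p _ => ?_
  change ρ (p : G) (θ₀ ((↑e⁻¹ : Module.End k V) (ρ (((p⁻¹ : Subgroup.zpowers x)) : G) v))) = _
  rw [hcomm]
  rfl

end Pool.OL95
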