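import Pool.Agent.LibOL95.A1
import Pool.Agent.LibOL95.A3a
import Pool.Agent.LibOL95.A3b

/-! `Hig ρ ↔ ker D^{ℓ-1} ≤ range D`. -/

set_option autoImplicit false
noncomputable section
namespace Pool.OL95

/-- `ρ` is projective iff `ker D^{ℓ-1} ≤ range D`, if `ℓ²` does not divide `|G|`. -/
theorem hig_iff {ℓ : ℕ} [Fact ℓ.Prime] {k : Type} [Field k] [CharP k ℓ] {G : Type} [Group G]
    [Finite G] {V : Type} [AddCommGroup V] [Module k V] (ρ : Representation k G V) (x : G)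
    (hx : orderOf x = ℓ) (hG : ¬ ℓ ^ 2 ∣ Nat.card G) : Hig ρ ↔ KD ρ x (ℓ - 1) ≤ RD ρ x := by
  constructor
  · intro h
    exact KD_le_of_hig ρ x hx (hig_res ρ _ h)
  · intro h
    refine hig_of_res ρ (Subgroup.zpowers x) ?_ (hig_of_KD_le ρ x hx h)
    intro h0
    apply hG
    have h1 : ℓ ∣ (Subgroup.zpowers x).index := (CharP.cast_eq_zero_iff k ℓ _).1 h0
    rw [← Subgroup.card_mul_index (Subgroup.zpowers x), Nat.card_zpowers, hx, pow_two]
    exact Nat.mul_dvd_mul_left ℓ h1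

end Pool.OL95
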