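import Pool.Agent.LibOL95.A2

/-!
Row A4. `ker D^i` and `range D` are stable under the normalizer of `⟨x⟩`.

Plan. `n ∈ NN x`: `n x n⁻¹ = x^a`, `n⁻¹ x n = x^b` for natural numbers `a, b` (`x` has finite order, `mem_zpowers_iff_mem_range_orderOf` or
`mem_powers_iff_mem_zpowers`). `ρ n D = (ρ(x)^a - 1) ρ n = D (1 + ρ x + ... + ρ x^(a-1)) ρ n` gives the statement for `range D` (or use `sub_mem_RD`:
`ρ n (ρ x v - v) = ρ (x^a) (ρ n v) - ρ n v`). `D ρ n = ρ n (ρ(x)^b - 1)`, so `D^i ρ n = ρ n (ρ(x)^b - 1)^i = ρ n (1 + ...)^i D^i` (powers of `ρ x` commute).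
-/

set_option autoImplicit false
noncomputable section
namespace Pool.OL95

private theorem a4_exists {G : Type} [Group G] [Finite G] (x n : G) (hn : n ∈ NN x) :
    ∃ a : ℕ, x ^ a = n * x * n⁻¹ := by
  have h1 : n * x * n⁻¹ ∈ Subgroup.zpowers x :=
    (Subgroup.mem_normalizer_iff.1 hn x).1 (Subgroup.mem_zpowers x)
  obtain ⟨a, ha⟩ := (mem_powers_iff_mem_zpowers.2 h1)
  exact ⟨a, ha⟩

private theorem a4_KD {k : Type} [Field k] {G : Type} [Group G] [Finite G] {V : Type} [AddCommGroup V]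
    [Module k V] (ρ : Representation k G V) (x : G) (n : G) (hn : n ∈ NN x) (i : ℕ) :
    ∀ v, v ∈ KD ρ x i → ρ n v ∈ KD ρ x i := by
  obtain ⟨b, hb⟩ := a4_exists x n⁻¹ ((NN x).inv_mem hn)
  rw [inv_inv] at hb
  set S : V →ₗ[k] V := ∑ j ∈ Finset.range b, (ρ x) ^ j with hS
  have hSD : ∀ v, S (DD ρ x v) = ρ (x ^ b) v - v := by
    intro v
    have h1 : S * DD ρ x = (ρ x) ^ b - 1 := by
      rw [hS]
      exact geom_sum_mul (ρ x) b
    have h2 := congrArg (fun f : V →ₗ[k] V => f v) h1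
    rw [map_pow]
    exact h2
  have hD : ∀ v, DD ρ x (ρ n v) = ρ n (S (DD ρ x v)) := by
    intro v
    rw [hSD, map_sub, DD_apply]
    have h3 : ρ x (ρ n v) = ρ n (ρ (x ^ b) v) := by
      rw [← Module.End.mul_apply, ← Module.End.mul_apply, ← map_mul, ← map_mul, hb]
      congr 2
      group
    rw [h3]
  have hc1 : Commute (DD ρ x) (ρ x) := by
    unfold DD
    exact (Commute.refl (ρ x)).sub_left (Commute.one_left (ρ x))
  have hc : ∀ i, Commute ((DD ρ x) ^ i) S := by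
    intro i
    rw [hS]
    exact Commute.sum_right _ _ _ fun j _ => (hc1.pow_right j).pow_left i
  induction i with
  | zero =>
    intro v hv
    have h1 : v = 0 := hv
    rw [h1, map_zero]
    exact Submodule.zero_mem _
  | succ i ih =>
    intro v hv
    have h1 : ((DD ρ x) ^ i) (DD ρ x v) = 0 := by
      have h2 : ((DD ρ x) ^ (i + 1)) v = 0 := hv
      rw [pow_succ] at h2
      exact h2
    have h3 : S (DD ρ x v) ∈ KD ρ x i := by
      show ((DD ρ x) ^ i) (S (DD ρ x v)) = 0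
      have h4 : ((DD ρ x) ^ i) (S (DD ρ x v)) = S (((DD ρ x) ^ i) (DD ρ x v)) :=
        congrArg (fun f : V →ₗ[k] V => f (DD ρ x v)) (hc i)
      rw [h4, h1, map_zero]
    have h5 : ((DD ρ x) ^ i) (ρ n (S (DD ρ x v))) = 0 := ih _ h3
    show ((DD ρ x) ^ (i + 1)) (ρ n v) = 0
    rw [pow_succ]
    show ((DD ρ x) ^ i) (DD ρ x (ρ n v)) = 0
    rw [hD, h5]

/-- `ker D^i` and `range D` are stable under the normalizer of `⟨x⟩`. -/
theorem NN_stable {k : Type} [Field k] {G : Type} [Group G] [Finite G] {V : Type} [AddCommGroup V]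
    [Module k V] (ρ : Representation k G V) (x : G) (n : G) (hn : n ∈ NN x) (i : ℕ) (v : V) :
    (v ∈ KD ρ x i → ρ n v ∈ KD ρ x i) ∧ (v ∈ RD ρ x → ρ n v ∈ RD ρ x) := by
  -- `n x n⁻¹ = x^a`, so `ρ n D = (ρ(x)^a - 1) ρ n = D (1 + ρ x + ... + ρ x^(a-1)) ρ n`, and with `n⁻¹`
  -- `D ρ n = ρ n (ρ(x)^b - 1)`, `D^i ρ n = ρ n (ρ(x)^b - 1)^i = ρ n (1 + ... )^i D^i` (powers of `ρ x` commute)
  refine ⟨a4_KD ρ x n hn i v, ?_⟩
  rintro ⟨w, rfl⟩
  obtain ⟨a, ha⟩ := a4_exists x n hn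
  have h1 : ρ n (DD ρ x w) = ρ (x ^ a) (ρ n w) - ρ n w := by
    rw [DD_apply, map_sub]
    have h3 : ρ n (ρ x w) = ρ (x ^ a) (ρ n w) := by
      rw [← Module.End.mul_apply, ← Module.End.mul_apply, ← map_mul, ← map_mul, ha]
      congr 2
      group
    rw [h3]
  rw [h1]
  exact sub_mem_RD ρ x a (ρ n w)

end Pool.OL95
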