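import Pool.Agent.LibOL95.Defs

/-!
Row A6. Higman's criterion for `kG`-modules: projective iff `Hig`.

Plan. (→) `M` projective: there is a `kG`-linear `s : M → (M →₀ kG)` with `Finsupp.linearCombination (MonoidAlgebra k G) id ∘ s = id`
(`Module.projective_def'`). Let `θ₀ : kG → kG`, `a ↦ single 1 (a 1)` (the coefficient of `1`); `∑_g g θ₀ (g⁻¹ a) = a`. `θ₁` on `M →₀ kG` coordinatewise
(`Finsupp.mapRange.linearMap`), `θ = linearCombination ∘ θ₁ ∘ s` (all `k`-linear): `∑_g g θ (g⁻¹ v) = linearCombination (∑_g g θ₁ (g⁻¹ s v)) = linearCombination (s v) = v`.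
(←) `Module.Projective.of_lifting_property''` : let `f : (M →₀ kG) → M` be a surjective `kG`-linear map; take a `k`-linear section `s₀` of `f`
(`LinearMap.exists_rightInverse_of_surjective` over `k`) and `s v = ∑_g g s₀ (θ (g⁻¹ v))`; it is `kG`-linear and
`f (s v) = ∑_g g f(s₀ (θ (g⁻¹ v))) = ∑_g g θ (g⁻¹ v) = v`.
-/

set_option autoImplicit false
noncomputable section
namespace Pool.OL95

theorem a6_smul {k : Type} [Field k] {G : Type} [Group G] {V V' : Type} [AddCommGroup V]
    [Module k V] [Module (MonoidAlgebra k G) V] [IsScalarTower k (MonoidAlgebra k G) V]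
    [AddCommGroup V'] [Module k V'] [Module (MonoidAlgebra k G) V']
    [IsScalarTower k (MonoidAlgebra k G) V'] (f : V →ₗ[k] V')
    (hf : Eqv (ofMod k G V) (ofMod k G V') f) (a : MonoidAlgebra k G) (v : V) :
    f (a • v) = a • f v := by
  induction a using MonoidAlgebra.induction_linear with
  | zero => rw [zero_smul, zero_smul, map_zero]
  | add a b ha hb => rw [add_smul, add_smul, map_add, ha, hb]
  | single g r =>
    have h1 : (MonoidAlgebra.single g r : MonoidAlgebra k G) = r • MonoidAlgebra.single g 1 := by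
      rw [MonoidAlgebra.smul_single', mul_one]
    rw [h1, smul_assoc, smul_assoc, map_smul]
    congr 1
    exact hf g v

/-- The coefficient of `1`. -/
def a6_t0 (k : Type) [Field k] (G : Type) [Group G] : MonoidAlgebra k G →ₗ[k] MonoidAlgebra k G where
  toFun a := MonoidAlgebra.single 1 (a.coeff 1)
  map_add' a b := by
    ext x
    simp [MonoidAlgebra.coeff_single]
  map_smul' r a := by
    ext x
    simp [MonoidAlgebra.coeff_single]

theorem a6_t0_apply (k : Type) [Field k] (G : Type) [Group G] (a : MonoidAlgebra k G) :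
    a6_t0 k G a = MonoidAlgebra.single 1 (a.coeff 1) := rfl

theorem a6_coeff (k : Type) [Field k] (G : Type) [Group G] (g : G) (a : MonoidAlgebra k G) :
    (MonoidAlgebra.single g⁻¹ (1 : k) * a).coeff 1 = a.coeff g := by
  rw [MonoidAlgebra.coeff_single_mul_eq_mul_coeff g (fun b _ => by
    rw [inv_mul_eq_one, eq_comm]), one_mul]

theorem a6_sum0 (k : Type) [Field k] (G : Type) [Group G] [Fintype G] (a : MonoidAlgebra k G) :
    ∑ g : G, MonoidAlgebra.single g (1 : k) *
      a6_t0 k G (MonoidAlgebra.single g⁻¹ (1 : k) * a) = a := by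
  classical
  have h1 : ∀ g : G, MonoidAlgebra.single g (1 : k) *
      a6_t0 k G (MonoidAlgebra.single g⁻¹ (1 : k) * a) = MonoidAlgebra.single g (a.coeff g) := by
    intro g
    rw [a6_t0_apply, a6_coeff, MonoidAlgebra.single_mul_single, mul_one, one_mul]
  rw [Finset.sum_congr rfl (fun g _ => h1 g)]
  ext x
  rw [MonoidAlgebra.coeff_sum, Finsupp.finsetSum_apply]
  simp [MonoidAlgebra.coeff_single, Finsupp.single_apply]

theorem a6_fwd (k : Type) [Field k] (G : Type) [Group G] [Finite G] (V : Type)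
    [AddCommGroup V] [Module k V] [Module (MonoidAlgebra k G) V]
    [IsScalarTower k (MonoidAlgebra k G) V] (h : Module.Projective (MonoidAlgebra k G) V) :
    Hig (ofMod k G V) := by
  classical
  let _ := Fintype.ofFinite G
  obtain ⟨s, hs⟩ := Module.projective_def'.1 h
  let T1 : (V →₀ MonoidAlgebra k G) →ₗ[k] (V →₀ MonoidAlgebra k G) :=
    Finsupp.mapRange.linearMap (a6_t0 k G)
  let LC : (V →₀ MonoidAlgebra k G) →ₗ[k] V :=
    (Finsupp.linearCombination (MonoidAlgebra k G) (id : V → V)).restrictScalars k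
  let S : V →ₗ[k] (V →₀ MonoidAlgebra k G) := s.restrictScalars k
  refine ⟨LC ∘ₗ T1 ∘ₗ S, fun v => ?_⟩
  rw [finsum_eq_sum_of_fintype]
  have h1 : ∀ g : G, ofMod k G V g ((LC ∘ₗ T1 ∘ₗ S) (ofMod k G V g⁻¹ v)) =
      Finsupp.linearCombination (MonoidAlgebra k G) (id : V → V)
        (MonoidAlgebra.single g (1 : k) • T1 (MonoidAlgebra.single g⁻¹ (1 : k) • s v)) := by
    intro g
    rw [ofMod_apply, ofMod_apply, map_smul (Finsupp.linearCombination (MonoidAlgebra k G) (id : V → V))]
    congr 1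
    show Finsupp.linearCombination (MonoidAlgebra k G) (id : V → V)
      (T1 (s (MonoidAlgebra.single g⁻¹ (1 : k) • v))) = _
    rw [map_smul s]
  rw [Finset.sum_congr rfl (fun g _ => h1 g), ← map_sum]
  have h2 : ∑ g : G, MonoidAlgebra.single g (1 : k) •
      T1 (MonoidAlgebra.single g⁻¹ (1 : k) • s v) = s v := by
    ext1 w
    rw [Finsupp.finsetSum_apply]
    have h3 : ∀ g : G, (MonoidAlgebra.single g (1 : k) •
        T1 (MonoidAlgebra.single g⁻¹ (1 : k) • s v)) w =
        MonoidAlgebra.single g (1 : k) *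
          a6_t0 k G (MonoidAlgebra.single g⁻¹ (1 : k) * s v w) := fun g => rfl
    rw [Finset.sum_congr rfl (fun g _ => h3 g)]
    exact a6_sum0 k G (s v w)
  rw [h2]
  exact LinearMap.congr_fun hs v

theorem a6_bwd (k : Type) [Field k] (G : Type) [Group G] [Finite G] (V : Type)
    [AddCommGroup V] [Module k V] [Module (MonoidAlgebra k G) V]
    [IsScalarTower k (MonoidAlgebra k G) V] (h : Hig (ofMod k G V)) :
    Module.Projective (MonoidAlgebra k G) V := by
  classical
  let _ := Fintype.ofFinite G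
  obtain ⟨θ, hθ⟩ := h
  refine Module.Projective.of_lifting_property'' fun f hf => ?_
  obtain ⟨s0, hs0⟩ := LinearMap.exists_rightInverse_of_surjective (f.restrictScalars k)
    (LinearMap.range_eq_top.2 hf)
  have hs0' : ∀ v, f (s0 v) = v := fun v => LinearMap.congr_fun hs0 v
  let W := V →₀ MonoidAlgebra k G
  let t : V →ₗ[k] W := ∑ g : G, (ofMod k G W g) ∘ₗ s0 ∘ₗ θ ∘ₗ (ofMod k G V g⁻¹)
  have ht : ∀ v, t v = ∑ g : G, ofMod k G W g (s0 (θ (ofMod k G V g⁻¹ v))) := by
    intro v
    show (∑ g : G, (ofMod k G W g) ∘ₗ s0 ∘ₗ θ ∘ₗ (ofMod k G V g⁻¹)) v = _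
    rw [LinearMap.sum_apply]
    rfl
  have heq : Eqv (ofMod k G V) (ofMod k G W) t := by
    intro x v
    rw [ht, ht, map_sum]
    refine Fintype.sum_equiv (Equiv.mulLeft x⁻¹) _ _ (fun g => ?_)
    show ofMod k G W g (s0 (θ (ofMod k G V g⁻¹ (ofMod k G V x v)))) =
      ofMod k G W x (ofMod k G W (x⁻¹ * g) (s0 (θ (ofMod k G V (x⁻¹ * g)⁻¹ v))))
    have e1 : ofMod k G V g⁻¹ (ofMod k G V x v) = ofMod k G V (x⁻¹ * g)⁻¹ v := by
      rw [← Module.End.mul_apply, ← map_mul]
      congr 2
      group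
    have e2 : ∀ w, ofMod k G W x (ofMod k G W (x⁻¹ * g) w) = ofMod k G W g w := by
      intro w
      rw [← Module.End.mul_apply, ← map_mul, mul_inv_cancel_left]
    rw [e1, e2]
  refine ⟨⟨⟨t, map_add t⟩, fun a v => a6_smul t heq a v⟩, ?_⟩
  ext v
  show f (t v) = v
  rw [ht, map_sum]
  have h3 : ∀ g : G, f (ofMod k G W g (s0 (θ (ofMod k G V g⁻¹ v)))) =
      ofMod k G V g (θ (ofMod k G V g⁻¹ v)) := by
    intro g
    rw [ofMod_apply, map_smul, hs0']
    rfl
  rw [Finset.sum_congr rfl (fun g _ => h3 g), ← finsum_eq_sum_of_fintype]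
  exact hθ v

/-- Equivariant maps are `kG`-linear. -/
def ofEqv {k : Type} [Field k] {G : Type} [Group G] {V V' : Type} [AddCommGroup V] [Module k V]
    [Module (MonoidAlgebra k G) V] [IsScalarTower k (MonoidAlgebra k G) V] [AddCommGroup V']
    [Module k V'] [Module (MonoidAlgebra k G) V'] [IsScalarTower k (MonoidAlgebra k G) V']
    (f : V →ₗ[k] V') (hf : Eqv (ofMod k G V) (ofMod k G V') f) : V →ₗ[MonoidAlgebra k G] V' where
  toFun := f
  map_add' := map_add f
  map_smul' a v := by
    exact a6_smul f hf a v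

theorem projective_iff_hig (k : Type) [Field k] (G : Type) [Group G] [Finite G] (V : Type)
    [AddCommGroup V] [Module k V] [Module (MonoidAlgebra k G) V]
    [IsScalarTower k (MonoidAlgebra k G) V] :
    Module.Projective (MonoidAlgebra k G) V ↔ Hig (ofMod k G V) := by
  exact ⟨a6_fwd k G V, a6_bwd k G V⟩

end Pool.OL95
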