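import Pool.Agent.LibOL95.Defs

/-!
Row B0. Sums over a finite set on which `⟨x⟩` (order `ℓ` prime) acts without fixed points.

Plan. `⟨x⟩ = Subgroup.zpowers x` acts on `Ω`; every orbit has `ℓ` elements and is `{x^i ω : i < ℓ}` (the stabiliser of `ω` in `⟨x⟩` is trivial:
`⟨x⟩` has prime order). Choose one element in every orbit (`MulAction.orbitRel`, `Quotient.out`).
-/

set_option autoImplicit false
noncomputable section
namespace Pool.OL95

private theorem b0_inj {ℓ : ℕ} [Fact ℓ.Prime] {G Ω : Type} [Group G] [MulAction G Ω] (x : G)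
    (hx : orderOf x = ℓ) {ω : Ω} (hω : x • ω ≠ ω) {i j : ℕ} (hij : i < j) (hj : j < ℓ) :
    x ^ i • ω ≠ x ^ j • ω := by
  intro h
  have hℓ : ℓ.Prime := Fact.out
  obtain ⟨k, rfl⟩ := Nat.exists_eq_add_of_lt hij
  have h1 : x ^ (k + 1) ∈ MulAction.stabilizer G ω := by
    rw [MulAction.mem_stabilizer_iff]
    have h2 : x ^ (i + k + 1) = x ^ i * x ^ (k + 1) := by rw [add_assoc, pow_add]
    rw [h2, mul_smul] at h
    exact (MulAction.injective (x ^ i) h).symm
  have h3 : (k + 1).Coprime (orderOf x) := by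
    rw [hx]
    exact (Nat.coprime_of_lt_prime (by omega) (by omega) hℓ).symm
  obtain ⟨n, hn⟩ := exists_pow_eq_self_of_coprime h3
  have h4 : x ∈ MulAction.stabilizer G ω := by
    rw [← hn]
    exact pow_mem h1 n
  exact hω (MulAction.mem_stabilizer_iff.1 h4)

private theorem b0_aux {ℓ : ℕ} [Fact ℓ.Prime] {G Ω M : Type} [Group G] [MulAction G Ω]
    [Fintype Ω] [AddCommMonoid M] (x : G) (hx : orderOf x = ℓ) (F : Ω → M) (n : ℕ) :
    ∀ s : Finset Ω, s.card = n → (∀ ω ∈ s, x • ω ∈ s) → (∀ ω ∈ s, x • ω ≠ ω) →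
    ∃ r : Finset Ω, r ⊆ s ∧ ∑ ω ∈ s, F ω = ∑ ω ∈ r, ∑ i ∈ Finset.range ℓ, F (x ^ i • ω) := by
  classical
  induction n using Nat.strong_induction_on with
  | _ n ih =>
    intro s hn hs hfree
    have hℓ : ℓ.Prime := Fact.out
    rcases s.eq_empty_or_nonempty with h0 | ⟨ω₀, hω₀⟩
    · exact ⟨∅, Finset.empty_subset _, by rw [h0]; simp⟩
    set O : Finset Ω := (Finset.range ℓ).image fun i => x ^ i • ω₀ with hO
    have hpow : ∀ i : ℕ, x ^ i • ω₀ ∈ s := by
      intro i
      induction i with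
      | zero => rw [pow_zero, one_smul]; exact hω₀
      | succ i ihi =>
        rw [pow_succ', mul_smul]
        exact hs _ ihi
    have hOs : O ⊆ s := by
      intro ω hω
      obtain ⟨i, -, rfl⟩ := Finset.mem_image.1 hω
      exact hpow i
    have hω₀O : ω₀ ∈ O := Finset.mem_image.2 ⟨0, Finset.mem_range.2 hℓ.pos, by
      rw [pow_zero, one_smul]⟩
    have hclosed : ∀ ω ∈ s \ O, x • ω ∈ s \ O := by
      intro ω hω
      obtain ⟨h1, h2⟩ := Finset.mem_sdiff.1 hω
      refine Finset.mem_sdiff.2 ⟨hs ω h1, fun h3 => h2 ?_⟩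
      obtain ⟨i, hi, h4⟩ := Finset.mem_image.1 h3
      change x ^ i • ω₀ = x • ω at h4
      cases i with
      | zero =>
        refine Finset.mem_image.2 ⟨ℓ - 1, Finset.mem_range.2 (Nat.sub_lt hℓ.pos one_pos), ?_⟩
        change x ^ (ℓ - 1) • ω₀ = ω
        have h5 : x • (x ^ (ℓ - 1) • ω₀) = x • ω := by
          rw [← mul_smul, ← pow_succ', Nat.sub_add_cancel hℓ.one_le, ← hx, pow_orderOf_eq_one,
            one_smul]
          rw [pow_zero, one_smul] at h4
          exact h4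
        exact MulAction.injective x h5
      | succ i =>
        refine Finset.mem_image.2 ⟨i, Finset.mem_range.2 ?_, ?_⟩
        · have := Finset.mem_range.1 hi
          omega
        · change x ^ i • ω₀ = ω
          rw [pow_succ', mul_smul] at h4
          exact MulAction.injective x h4
    have hlt : (s \ O).card < n := by
      rw [← hn]
      exact Finset.card_lt_card (Finset.sdiff_ssubset hOs ⟨ω₀, hω₀O⟩)
    obtain ⟨r, hr, hsum⟩ := ih _ hlt (s \ O) rfl hclosed
      (fun ω hω => hfree ω (Finset.mem_sdiff.1 hω).1)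
    have hnot : ω₀ ∉ r := fun h => (Finset.mem_sdiff.1 (hr h)).2 hω₀O
    refine ⟨insert ω₀ r, ?_, ?_⟩
    · rw [Finset.insert_subset_iff]
      exact ⟨hω₀, hr.trans Finset.sdiff_subset⟩
    · have hinj : Set.InjOn (fun i => x ^ i • ω₀) (Finset.range ℓ : Set ℕ) := by
        intro i hi j hj hij
        have hi : i < ℓ := Finset.mem_range.1 (Finset.mem_coe.1 hi)
        have hj : j < ℓ := Finset.mem_range.1 (Finset.mem_coe.1 hj)
        rcases lt_trichotomy i j with h | h | h
        · exact absurd hij (b0_inj x hx (hfree ω₀ hω₀) h hj)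
        · exact h
        · exact absurd hij.symm (b0_inj x hx (hfree ω₀ hω₀) h hi)
      rw [Finset.sum_insert hnot, ← hsum, ← Finset.sum_sdiff hOs, hO, Finset.sum_image hinj,
        add_comm]

theorem sum_free {ℓ : ℕ} [Fact ℓ.Prime] {G Ω M : Type} [Group G] [MulAction G Ω] [Fintype Ω]
    [AddCommMonoid M] (x : G) (hx : orderOf x = ℓ) (s : Finset Ω) (hs : ∀ ω ∈ s, x • ω ∈ s)
    (hfree : ∀ ω ∈ s, x • ω ≠ ω) (F : Ω → M) :
    ∃ r : Finset Ω, r ⊆ s ∧ ∑ ω ∈ s, F ω = ∑ ω ∈ r, ∑ i ∈ Finset.range ℓ, F (x ^ i • ω) :=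
  b0_aux x hx F s.card s rfl hs hfree

end Pool.OL95
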