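import Pool.Agent.LibOL95.B0
import Pool.Agent.LibOL95.A2

/-!
Row B1. Transfer. `T(φ) = ∑_{g N ∈ G/N} g φ g⁻¹`, `N = NN x`.

Plan. `N` acts trivially on `φ` by conjugation, so `c ↦ t_c := ρ' g φ ρ g⁻¹` (`c = gN`, `g = Quotient.out c`, any representative gives the same map) and `T = ∑_c t_c` is
equivariant (`h t_c h⁻¹ = t_{hc}`). For `v ∈ ker D^{ℓ-1}`: `t_N v = φ v`. On `s = {c ≠ N}` the element `x` acts without fixed points: `x g N = g N` iff
`g⁻¹ x g ∈ N`, so `g ∈ N` (`Dat.fx`). By `sum_free` `∑_{c ∈ s} t_c v = ∑_{c ∈ r} ∑_{i<ℓ} t_{x^i c} v`, `t_{x^i c} v = x^i t_c (x^{-i} v) ≡ t_c (x^{-i} v)` modulo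
`range D'` (`sub_mem_RD`), and `∑_i t_c (x^{-i} v) = t_c (∑_i x^{-i} v) = t_c (∑_i x^i v) = t_c (D^{ℓ-1} v) = 0` (`sum_pow_eq`).
-/

set_option autoImplicit false
noncomputable section
namespace Pool.OL95

section
variable {k : Type} [Field k] {G : Type} [Group G] {V V' : Type} [AddCommGroup V] [Module k V]
  [AddCommGroup V'] [Module k V']

theorem b1_mul (ρ : Representation k G V) (g h : G) (v : V) : ρ g (ρ h v) = ρ (g * h) v := by
  rw [map_mul]
  rfl

/-- The conjugate of `φ`. -/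
def b1_t (ρ : Representation k G V) (ρ' : Representation k G V') (φ : V →ₗ[k] V') (g : G) :
    V →ₗ[k] V' := (ρ' g) ∘ₗ φ ∘ₗ (ρ g⁻¹)

theorem b1_t_apply (ρ : Representation k G V) (ρ' : Representation k G V') (φ : V →ₗ[k] V')
    (g : G) (v : V) : b1_t ρ ρ' φ g v = ρ' g (φ (ρ g⁻¹ v)) := rfl

theorem b1_congr (ρ : Representation k G V) (ρ' : Representation k G V') {φ : V →ₗ[k] V'}
    {N : Subgroup G} (hφ : ∀ n ∈ N, ∀ v, φ (ρ n v) = ρ' n (φ v)) {g g' : G}
    (h : (QuotientGroup.mk g : G ⧸ N) = QuotientGroup.mk g') :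
    b1_t ρ ρ' φ g = b1_t ρ ρ' φ g' := by
  have h1 : g⁻¹ * g' ∈ N := QuotientGroup.eq.1 h
  ext v
  rw [b1_t_apply, b1_t_apply]
  have h2 : ρ g⁻¹ v = ρ (g⁻¹ * g') (ρ g'⁻¹ v) := by
    rw [b1_mul]
    congr 2
    group
  rw [h2, hφ _ h1, b1_mul]
  congr 2
  group

theorem b1_act (ρ : Representation k G V) (ρ' : Representation k G V') (φ : V →ₗ[k] V')
    (h g : G) (v : V) : b1_t ρ ρ' φ (h * g) (ρ h v) = ρ' h (b1_t ρ ρ' φ g v) := by
  rw [b1_t_apply, b1_t_apply, b1_mul, b1_mul]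
  congr 4
  group

end

theorem exists_transfer {ℓ : ℕ} [Fact ℓ.Prime] {k : Type} [Field k] [CharP k ℓ] {G : Type} [Group G]
    [Finite G] {V V' : Type} [AddCommGroup V] [Module k V] [AddCommGroup V'] [Module k V']
    {x : G} {E : Subgroup G} (hd : Dat ℓ x E) (ρ : Representation k G V)
    (ρ' : Representation k G V') (φ : V →ₗ[k] V') (hφ : ∀ n ∈ NN x, ∀ v, φ (ρ n v) = ρ' n (φ v)) :
    ∃ T : V →ₗ[k] V', Eqv ρ ρ' T ∧ ∀ v ∈ KD ρ x (ℓ - 1), T v - φ v ∈ RD ρ' x := by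
  classical
  have hℓ : 0 < ℓ := (Fact.out : ℓ.Prime).pos
  have : Fintype (G ⧸ NN x) := Fintype.ofFinite _
  obtain ⟨t, ht⟩ : ∃ t : G ⧸ NN x → (V →ₗ[k] V'), t = fun c => b1_t ρ ρ' φ c.out := ⟨_, rfl⟩
  have htg : ∀ g : G, t (QuotientGroup.mk g) = b1_t ρ ρ' φ g := by
    intro g
    rw [ht]
    exact b1_congr ρ ρ' hφ (QuotientGroup.out_eq' _)
  have hact : ∀ (h : G) (c : G ⧸ NN x) (v : V), t (h • c) (ρ h v) = ρ' h (t c v) := by
    intro h c v
    induction c using QuotientGroup.induction_on with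
    | H g =>
      have h1 : h • (QuotientGroup.mk g : G ⧸ NN x) = QuotientGroup.mk (h * g) := rfl
      rw [h1, htg, htg, b1_act]
  refine ⟨∑ c, t c, fun h v => ?_, fun v hv => ?_⟩
  · rw [LinearMap.sum_apply, LinearMap.sum_apply, map_sum,
      ← Equiv.sum_comp (MulAction.toPerm h) (fun c : G ⧸ NN x => t c (ρ h v))]
    refine Finset.sum_congr rfl fun c _ => ?_
    rw [MulAction.toPerm_apply, hact]
  · have hxN : x ∈ NN x := Subgroup.le_normalizer (Subgroup.mem_zpowers x)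
    have h1 : (∑ c, t c) v - φ v = ∑ c ∈ Finset.univ.erase (QuotientGroup.mk 1 : G ⧸ NN x),
        t c v := by
      rw [LinearMap.sum_apply, ← Finset.add_sum_erase _ _ (Finset.mem_univ (QuotientGroup.mk 1)),
        htg, b1_t_apply, inv_one, map_one, map_one]
      simp
    rw [h1]
    obtain ⟨r, -, hr⟩ := sum_free x hd.ox (Finset.univ.erase (QuotientGroup.mk 1 : G ⧸ NN x))
      (by
        intro c hc
        rw [Finset.mem_erase] at hc ⊢
        refine ⟨fun h2 => hc.1 ?_, Finset.mem_univ _⟩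
        have h3 : c = x⁻¹ • (QuotientGroup.mk 1 : G ⧸ NN x) := by
          rw [← h2, inv_smul_smul]
        rw [h3]
        change (QuotientGroup.mk (x⁻¹ * 1) : G ⧸ NN x) = QuotientGroup.mk 1
        rw [QuotientGroup.eq]
        simpa using hxN)
      (by
        intro c hc h2
        rw [Finset.mem_erase] at hc
        apply hc.1
        induction c using QuotientGroup.induction_on with
        | H g =>
          have h3 : (QuotientGroup.mk (x * g) : G ⧸ NN x) = QuotientGroup.mk g := h2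
          have h4 : g⁻¹ * (x * g) ∈ NN x := QuotientGroup.eq.1 h3.symm
          have h5 : g ∈ NN x := hd.fx g (by rwa [mul_assoc])
          rw [QuotientGroup.eq, mul_one]
          exact (NN x).inv_mem h5)
      (fun c => t c v)
    rw [hr]
    refine Submodule.sum_mem _ fun c _ => ?_
    have hzero : ∑ i ∈ Finset.range ℓ, ρ (x ^ i)⁻¹ v = 0 := by
      have h2 : ∑ i ∈ Finset.range ℓ, ρ (x ^ i)⁻¹ v = ∑ i ∈ Finset.range ℓ, ρ (x ^ (i + 1)) v := by
        rw [← Finset.sum_range_reflect]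
        refine Finset.sum_congr rfl fun i hi => ?_
        rw [Finset.mem_range] at hi
        have h3 : (x ^ (ℓ - 1 - i))⁻¹ = x ^ (i + 1) := by
          rw [inv_eq_iff_mul_eq_one, ← pow_add]
          have h4 : ℓ - 1 - i + (i + 1) = ℓ := by omega
          rw [h4, ← hd.ox]
          exact pow_orderOf_eq_one x
        rw [h3]
      have h5 : ∑ i ∈ Finset.range ℓ, ρ (x ^ (i + 1)) v =
          ρ x (∑ i ∈ Finset.range ℓ, ρ (x ^ i) v) := by
        rw [map_sum]
        refine Finset.sum_congr rfl fun i _ => ?_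
        rw [b1_mul, ← pow_succ']
      rw [h2, h5, sum_pow_eq ρ x v]
      have h6 : ((DD ρ x) ^ (ℓ - 1)) v = 0 := hv
      rw [h6, map_zero]
    have h7 : ∑ i ∈ Finset.range ℓ, t (x ^ i • c) v = ∑ i ∈ Finset.range ℓ,
        (ρ' (x ^ i) (t c (ρ (x ^ i)⁻¹ v)) - t c (ρ (x ^ i)⁻¹ v)) := by
      rw [Finset.sum_sub_distrib, ← map_sum (t c), hzero, map_zero, sub_zero]
      refine Finset.sum_congr rfl fun i _ => ?_
      rw [← hact, b1_mul, mul_inv_cancel, map_one]
      rfl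
    rw [h7]
    exact Submodule.sum_mem _ fun i _ => sub_mem_RD ρ' x i _

end Pool.OL95
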