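import Pool.Agent.LibOL95.A2

/-!
Row B2. A map commuting with `x` with prescribed restriction to `A`.

Plan. `D = DD ρ x`, `D' = DD ρ' x`. (1) if `a ∈ A` and `D^{j-1} a + ∑_{i<j-1} D^i a_i + D^j w = 0` with `a_i ∈ A`, then `a = 0` : otherwise take the smallest index `i ≤ j-1`
whose element `b ∈ A` is non-zero; `D^i b = D^{i+1} w'`, `b - D w' ∈ ker D^i ≤ ker D^{j-1} ≤ range D`, so `b ∈ A ⊓ range D = ⊥`. (2) so there is a
linear `f : V → V` with values in `A`, `f (D^{j-1} a) = a` for `a ∈ A`, `f (D^i a) = 0` for `i < j - 1`, `a ∈ A`, and `f (D^j w) = 0` for all `w` (a linear map on the subspace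
`D^{j-1} A ⊕ C`, `C = ∑_{i<j-1} D^i A + range D^j`, extended to `V`; `D^{j-1}` is injective on `A` and `D^{j-1} A ⊓ C = ⊥`). (3) `π v = ∑_{i<j} D'^i σ (f (D^{j-1-i} v))`.
`π (D v) = D' (π v)`: `π (D v) = ∑_{i<j} D'^i σ f D^{j-i} v`, the term `i = 0` is `σ f D^j v = 0`, and `D' π v = ∑_{i<j} D'^{i+1} σ f D^{j-1-i} v`, whose term `i = j-1` is `D'^j σ (..) = 0`.
-/

set_option autoImplicit false
noncomputable section
namespace Pool.OL95

/-- independence of the subspaces `D^n A` modulo `range D^j` -/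
theorem b2_indep {k V : Type} [Field k] [AddCommGroup V] [Module k V] (D : V →ₗ[k] V)
    (A : Submodule k V) (J : ℕ) (hmin : LinearMap.ker (D ^ J) ≤ LinearMap.range D)
    (hAr : A ⊓ LinearMap.range D = ⊥) (m : ℕ) :
    ∀ i : ℕ, i + m = J + 1 → ∀ b : ℕ → V, (∀ n, b n ∈ A) → ∀ w : V,
      (D ^ i) (∑ n ∈ Finset.range m, (D ^ n) (b n) + (D ^ m) w) = 0 → ∀ n < m, b n = 0 := by
  induction m with
  | zero => intro i _ b _ w _ n hn; omega
  | succ m ih =>
    intro i hi b hb w hw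
    have hker : ∑ n ∈ Finset.range (m + 1), (D ^ n) (b n) + (D ^ (m + 1)) w ∈ LinearMap.range D := by
      apply hmin
      rw [LinearMap.mem_ker]
      have h1 : J = m + i := by omega
      rw [h1, pow_add, Module.End.mul_apply, hw, map_zero]
    rw [Finset.sum_range_succ'] at hker hw
    have h2 : ∀ n, (D ^ (n + 1)) (b (n + 1)) = D ((D ^ n) (b (n + 1))) := fun n => by
      rw [pow_succ', Module.End.mul_apply]
    have h3 : (D ^ (m + 1)) w = D ((D ^ m) w) := by rw [pow_succ', Module.End.mul_apply]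
    simp only [h2, h3, pow_zero, Module.End.one_apply] at hker hw
    rw [← map_sum] at hker hw
    have h4 : b 0 ∈ LinearMap.range D := by
      obtain ⟨z, hz⟩ := hker
      refine ⟨z - (∑ n ∈ Finset.range m, (D ^ n) (b (n + 1)) + (D ^ m) w), ?_⟩
      rw [map_sub, map_add, hz]
      abel
    have h5 : b 0 = 0 := by
      have h6 : b 0 ∈ A ⊓ LinearMap.range D := ⟨hb 0, h4⟩
      rw [hAr] at h6
      exact (Submodule.mem_bot k).1 h6
    rw [h5, add_zero, ← map_add] at hw
    have h7 := ih (i + 1) (by omega) (fun n => b (n + 1)) (fun n => hb (n + 1)) w (by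
      rw [pow_succ, Module.End.mul_apply]
      exact hw)
    intro n hn
    rcases n with _ | n
    · exact h5
    · exact h7 n (by omega)

/-- the linear map `f` of the plan -/
theorem b2_f {k V : Type} [Field k] [AddCommGroup V] [Module k V] (D : V →ₗ[k] V)
    (A : Submodule k V) (J : ℕ) (hmin : LinearMap.ker (D ^ J) ≤ LinearMap.range D)
    (hAr : A ⊓ LinearMap.range D = ⊥) :
    ∃ f : V →ₗ[k] V, (∀ v, f v ∈ A) ∧ (∀ a ∈ A, f ((D ^ J) a) = a) ∧
      (∀ a ∈ A, ∀ i < J, f ((D ^ i) a) = 0) ∧ ∀ w, f ((D ^ (J + 1)) w) = 0 := by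
  let C : Submodule k V :=
    { carrier := {v | ∃ b : ℕ → V, (∀ n, b n ∈ A) ∧ ∃ w : V,
        v = ∑ n ∈ Finset.range J, (D ^ n) (b n) + (D ^ (J + 1)) w}
      zero_mem' := ⟨fun _ => 0, fun _ => A.zero_mem, 0, by simp⟩
      add_mem' := by
        rintro v v' ⟨b, hb, w, rfl⟩ ⟨b', hb', w', rfl⟩
        refine ⟨fun n => b n + b' n, fun n => A.add_mem (hb n) (hb' n), w + w', ?_⟩
        simp only [map_add, Finset.sum_add_distrib]
        abel
      smul_mem' := by
        rintro c v ⟨b, hb, w, rfl⟩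
        refine ⟨fun n => c • b n, fun n => A.smul_mem c (hb n), c • w, ?_⟩
        simp only [map_smul, smul_add, Finset.smul_sum] }
  have hC : ∀ v, v ∈ C ↔ ∃ b : ℕ → V, (∀ n, b n ∈ A) ∧ ∃ w : V,
      v = ∑ n ∈ Finset.range J, (D ^ n) (b n) + (D ^ (J + 1)) w := fun v => Iff.rfl
  have hinj : LinearMap.ker ((C.mkQ ∘ₗ (D ^ J)) ∘ₗ A.subtype) = ⊥ := by
    rw [LinearMap.ker_eq_bot']
    intro a ha
    have h1 : (D ^ J) (a : V) ∈ C := by
      rw [← Submodule.Quotient.mk_eq_zero C]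
      exact ha
    obtain ⟨b, hb, w, hw⟩ := (hC _).1 h1
    have h2 := b2_indep D A J hmin hAr (J + 1) 0 (by omega)
      (fun n => if n = J then -(a : V) else b n) (fun n => by
        by_cases hn : n = J
        · simp only [hn, if_true]
          exact A.neg_mem a.2
        · simp only [hn, if_false]
          exact hb n) w (by
        rw [pow_zero, Module.End.one_apply, Finset.sum_range_succ]
        have h3 : ∑ n ∈ Finset.range J, (D ^ n) (if n = J then -(a : V) else b n) =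
            ∑ n ∈ Finset.range J, (D ^ n) (b n) := by
          refine Finset.sum_congr rfl fun n hn => ?_
          rw [if_neg (Finset.mem_range.1 hn).ne]
        rw [h3, if_pos rfl, map_neg, hw]
        abel) J (by omega)
    have h4 : -(a : V) = 0 := by simpa using h2
    exact Subtype.ext (neg_eq_zero.1 h4)
  obtain ⟨g, hg⟩ := LinearMap.exists_leftInverse_of_injective _ hinj
  have hzero : ∀ v ∈ C, A.subtype (g (C.mkQ v)) = 0 := by
    intro v hv
    have h1 : C.mkQ v = 0 := (Submodule.Quotient.mk_eq_zero C).2 hv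
    rw [h1, map_zero, map_zero]
  refine ⟨A.subtype ∘ₗ g ∘ₗ C.mkQ, fun v => (g (C.mkQ v)).2, fun a ha => ?_, fun a ha i hi => ?_,
    fun w => ?_⟩
  · have h1 := congrArg (fun φ => φ ⟨a, ha⟩) hg
    exact congrArg Subtype.val h1
  · refine hzero _ ((hC _).2 ⟨fun n => if n = i then a else 0, fun n => ?_, 0, ?_⟩)
    · by_cases hn : n = i
      · simp only [hn, if_true]
        exact ha
      · simp only [hn, if_false]
        exact A.zero_mem
    · rw [map_zero, add_zero, Finset.sum_eq_single i]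
      · simp only [if_true]
      · intro n _ hn
        simp only [hn, if_false, map_zero]
      · intro h1
        exact absurd (Finset.mem_range.2 hi) h1
  · refine hzero _ ((hC _).2 ⟨fun _ => 0, fun _ => A.zero_mem, w, ?_⟩)
    simp

/-- the map `π` of the plan -/
theorem b2_pi {k V V' : Type} [Field k] [AddCommGroup V] [Module k V] [AddCommGroup V']
    [Module k V'] (D : V →ₗ[k] V) (D' : V' →ₗ[k] V')
    (A : Submodule k V) (J : ℕ) (hmin : LinearMap.ker (D ^ J) ≤ LinearMap.range D)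
    (hAr : A ⊓ LinearMap.range D = ⊥) (σ : V →ₗ[k] V')
    (hσ : ∀ a ∈ A, (D' ^ (J + 1)) (σ a) = 0) :
    ∃ π : V →ₗ[k] V', (∀ v, π (D v) = D' (π v)) ∧ (∀ a ∈ A, π a = σ a) ∧
      ∀ v, π v ∈ A.map σ ⊔ LinearMap.range D' := by
  obtain ⟨f, hfA, hf1, hf2, hf3⟩ := b2_f D A J hmin hAr
  have happ : ∀ v, (∑ i ∈ Finset.range (J + 1), (D' ^ i) ∘ₗ σ ∘ₗ f ∘ₗ (D ^ (J - i))) v =
      ∑ i ∈ Finset.range (J + 1), (D' ^ i) (σ (f ((D ^ (J - i)) v))) := by
    intro v
    rw [LinearMap.sum_apply]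
    rfl
  refine ⟨∑ i ∈ Finset.range (J + 1), (D' ^ i) ∘ₗ σ ∘ₗ f ∘ₗ (D ^ (J - i)), fun v => ?_,
    fun a ha => ?_, fun v => ?_⟩
  · rw [happ, happ, map_sum, Finset.sum_range_succ']
    conv_rhs => rw [Finset.sum_range_succ]
    have h1 : (D' ^ 0) (σ (f ((D ^ (J - 0)) (D v)))) = 0 := by
      have h2 : (D ^ (J - 0)) (D v) = (D ^ (J + 1)) v := by
        rw [Nat.sub_zero, pow_succ, Module.End.mul_apply]
      rw [h2, hf3, map_zero, map_zero]
    have h2 : D' ((D' ^ J) (σ (f ((D ^ (J - J)) v)))) = 0 := by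
      rw [← Module.End.mul_apply, ← pow_succ']
      exact hσ _ (hfA _)
    rw [h1, h2, add_zero, add_zero]
    refine Finset.sum_congr rfl fun i hi => ?_
    have hi' := Finset.mem_range.1 hi
    have h3 : (D ^ (J - (i + 1))) (D v) = (D ^ (J - i)) v := by
      rw [← Module.End.mul_apply, ← pow_succ]
      congr 2
      omega
    rw [h3, pow_succ', Module.End.mul_apply]
  · rw [happ, Finset.sum_range_succ']
    rw [Finset.sum_eq_zero, zero_add, pow_zero, Module.End.one_apply, Nat.sub_zero, hf1 a ha]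
    intro i hi
    have hi' := Finset.mem_range.1 hi
    rw [hf2 a ha _ (by omega), map_zero, map_zero]
  · rw [happ, Finset.sum_range_succ']
    refine Submodule.add_mem _ (Submodule.sum_mem _ fun i _ => Submodule.mem_sup_right ?_)
      (Submodule.mem_sup_left ?_)
    · rw [pow_succ', Module.End.mul_apply]
      exact ⟨_, rfl⟩
    · rw [pow_zero, Module.End.one_apply]
      exact Submodule.mem_map_of_mem (hfA _)

theorem exists_pi0 {k : Type} [Field k] {G : Type} [Group G] {V V' : Type} [AddCommGroup V]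
    [Module k V] [AddCommGroup V'] [Module k V'] (x : G) (ρ : Representation k G V)
    (ρ' : Representation k G V') (j : ℕ) (hj : 1 ≤ j) (hmin : KD ρ x (j - 1) ≤ RD ρ x)
    (A : Submodule k V) (hA : A ≤ KD ρ x j) (hAr : A ⊓ RD ρ x = ⊥) (σ : V →ₗ[k] V')
    (hσ : ∀ a ∈ A, σ a ∈ KD ρ' x j) :
    ∃ π : V →ₗ[k] V', (∀ v, π (ρ x v) = ρ' x (π v)) ∧ (∀ a ∈ A, π a = σ a) ∧
      ∀ v, π v ∈ A.map σ ⊔ RD ρ' x := by
  obtain ⟨J, rfl⟩ : ∃ J, j = J + 1 := ⟨j - 1, by omega⟩
  obtain ⟨π, h1, h2, h3⟩ := b2_pi (DD ρ x) (DD ρ' x) A J hmin hAr σ (fun a ha => hσ a ha)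
  refine ⟨π, fun v => ?_, h2, h3⟩
  have h4 := h1 v
  rw [DD_apply, DD_apply, map_sub] at h4
  exact sub_left_injective h4

end Pool.OL95
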