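import Pool.Agent.LibOL95.B2
import Pool.Agent.LibOL95.A4

/-!
Row B3. The same with `N`-equivariance.

Plan. Let `π₀` be the map of `exists_pi0`, `π v = |E|⁻¹ ∑_{e ∈ E} ρ' e (π₀ (ρ e⁻¹ v))` (`|E| ≠ 0` in `k`: `CharP.cast_eq_zero_iff`). It is `E`-equivariant. It commutes with `x`: `π₀` commutes with all
`x^a`, and `ρ e⁻¹ ρ x = ρ x^b ρ e⁻¹`, `ρ' e ρ' x^b = ρ' x ρ' e` (`e⁻¹ x e = x^b`, as `e⁻¹ ∈ NN x`). Every `n ∈ NN x` is `x^i e` (`Dat.nN`). On `A` : `ρ e⁻¹ a ∈ A`, `π₀ = σ` there and `σ` is `E`-equivariant on `A`.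
`π v ∈ A.map σ ⊔ RD ρ' x`: both are stable under `E` (`NN_stable`).
-/

set_option autoImplicit false
noncomputable section
namespace Pool.OL95

theorem exists_pi {ℓ : ℕ} [Fact ℓ.Prime] {k : Type} [Field k] [CharP k ℓ] {G : Type} [Group G]
    [Finite G] {V V' : Type} [AddCommGroup V] [Module k V] [AddCommGroup V'] [Module k V']
    {x : G} {E : Subgroup G} (hd : Dat ℓ x E) (ρ : Representation k G V)
    (ρ' : Representation k G V') (j : ℕ) (hj : 1 ≤ j) (hmin : KD ρ x (j - 1) ≤ RD ρ x)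
    (A : Submodule k V) (hA : A ≤ KD ρ x j) (hAr : A ⊓ RD ρ x = ⊥) (hAE : Stb (res ρ E) A)
    (σ : V →ₗ[k] V') (hσ : ∀ a ∈ A, σ a ∈ KD ρ' x j)
    (hσE : ∀ e : E, ∀ a ∈ A, σ (ρ e a) = ρ' e (σ a)) :
    ∃ π : V →ₗ[k] V', (∀ n ∈ NN x, ∀ v, π (ρ n v) = ρ' n (π v)) ∧ (∀ a ∈ A, π a = σ a) ∧
      ∀ v, π v ∈ A.map σ ⊔ RD ρ' x := by
  classical
  haveI : Fintype E := Fintype.ofFinite E
  obtain ⟨π₀, p1, p2, p3⟩ := exists_pi0 x ρ ρ' j hj hmin A hA hAr σ hσ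
  have hcard : (Nat.card E : k) ≠ 0 := fun h => hd.cE ((CharP.cast_eq_zero_iff k ℓ _).1 h)
  have p1' : ∀ (a : ℕ) (v : V), π₀ (ρ (x ^ a) v) = ρ' (x ^ a) (π₀ v) := by
    intro a
    induction a with
    | zero =>
      intro v
      rw [pow_zero, map_one, map_one]
      rfl
    | succ a ih =>
      intro v
      rw [pow_succ', map_mul, map_mul]
      show π₀ (ρ x (ρ (x ^ a) v)) = ρ' x (ρ' (x ^ a) (π₀ v))
      rw [p1, ih]
  have hz : ∀ n ∈ NN x, ∃ b : ℕ, n⁻¹ * x * n = x ^ b := by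
    intro n hn
    have h0 := (Subgroup.mem_normalizer_iff.1 ((NN x).inv_mem hn) x).1
      (Subgroup.mem_zpowers x)
    rw [inv_inv] at h0
    obtain ⟨b, hb⟩ := mem_powers_iff_mem_zpowers.2 h0
    exact ⟨b, hb.symm⟩
  have hact : ∀ (g h : G) (v : V), ρ g (ρ h v) = ρ (g * h) v := fun g h v => by
    rw [map_mul]
    rfl
  have hact' : ∀ (g h : G) (v : V'), ρ' g (ρ' h v) = ρ' (g * h) v := fun g h v => by
    rw [map_mul]
    rfl
  -- the sum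
  obtain ⟨S, hS⟩ : ∃ S : V →ₗ[k] V', ∀ v, S v = ∑ e : E, ρ' (e : G) (π₀ (ρ (e : G)⁻¹ v)) := by
    refine ⟨∑ e : E, (ρ' (e : G)).comp (π₀.comp (ρ (e : G)⁻¹)), fun v => ?_⟩
    rw [LinearMap.sum_apply]
    rfl
  have sx : ∀ v, S (ρ x v) = ρ' x (S v) := by
    intro v
    rw [hS, hS, map_sum]
    refine Finset.sum_congr rfl fun e _ => ?_
    obtain ⟨b, hb⟩ := hz (e : G) (hd.nE e.2)
    have h1 : (e : G)⁻¹ * x = x ^ b * (e : G)⁻¹ := by
      rw [← hb]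
      group
    have h2 : (e : G) * x ^ b = x * (e : G) := by
      rw [← hb]
      group
    rw [hact, h1, ← hact, p1', hact', h2, ← hact']
  have sxi : ∀ (i : ℕ) (v : V), S (ρ (x ^ i) v) = ρ' (x ^ i) (S v) := by
    intro i
    induction i with
    | zero =>
      intro v
      rw [pow_zero, map_one, map_one]
      rfl
    | succ i ih =>
      intro v
      rw [pow_succ', ← hact, ← hact', sx, ih]
  have se : ∀ (e₀ : E) (v : V), S (ρ (e₀ : G) v) = ρ' (e₀ : G) (S v) := by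
    intro e₀ v
    rw [hS, hS, map_sum]
    refine Fintype.sum_equiv (Equiv.mulLeft e₀⁻¹) _ _ fun e => ?_
    show ρ' (e : G) (π₀ (ρ (e : G)⁻¹ (ρ (e₀ : G) v))) =
      ρ' (e₀ : G) (ρ' ((e₀⁻¹ * e : E) : G) (π₀ (ρ ((e₀⁻¹ * e : E) : G)⁻¹ v)))
    rw [hact', hact]
    have h1 : (e₀ : G) * ((e₀⁻¹ * e : E) : G) = e := by
      rw [Subgroup.coe_mul, Subgroup.coe_inv]
      group
    have h2 : ((e₀⁻¹ * e : E) : G)⁻¹ = (e : G)⁻¹ * (e₀ : G) := by
      rw [Subgroup.coe_mul, Subgroup.coe_inv]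
      group
    rw [h1, h2]
  refine ⟨(Nat.card E : k)⁻¹ • S, fun n hn v => ?_, fun a ha => ?_, fun v => ?_⟩
  · obtain ⟨i, e, he, rfl⟩ := hd.nN n hn
    rw [LinearMap.smul_apply, LinearMap.smul_apply, map_smul, ← hact, ← hact', sxi,
      se ⟨e, he⟩]
  · rw [LinearMap.smul_apply, hS]
    have h1 : ∀ e : E, ρ' (e : G) (π₀ (ρ (e : G)⁻¹ a)) = σ a := by
      intro e
      have h2 : ρ (e : G)⁻¹ a ∈ A := hAE e⁻¹ a ha
      have h3 : σ (ρ (e : G)⁻¹ a) = ρ' (e : G)⁻¹ (σ a) := hσE e⁻¹ a ha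
      rw [p2 _ h2, h3, hact', mul_inv_cancel, map_one]
      rfl
    rw [Finset.sum_congr rfl fun e _ => h1 e, Finset.sum_const, Finset.card_univ,
      ← Nat.card_eq_fintype_card, ← Nat.cast_smul_eq_nsmul k, smul_smul, inv_mul_cancel₀ hcard,
      one_smul]
  · rw [LinearMap.smul_apply, hS]
    refine Submodule.smul_mem _ _ (Submodule.sum_mem _ fun e _ => ?_)
    obtain ⟨y, hy, r, hr, h1⟩ := Submodule.mem_sup.1 (p3 (ρ (e : G)⁻¹ v))
    rw [← h1, map_add]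
    refine Submodule.add_mem_sup ?_ ((NN_stable ρ' x (e : G) (hd.nE e.2) 0 r).2 hr)
    obtain ⟨a, ha, rfl⟩ := Submodule.mem_map.1 hy
    rw [← hσE e a ha]
    exact Submodule.mem_map_of_mem (hAE e a ha)

end Pool.OL95
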