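import Pool.Agent.LibOL95.Defs

/-!
Row C0. Schur's lemma.

Plan. (scalar) `T` has an eigenvalue `c` (`Module.End.exists_eigenvalue`), the eigenspace `ker (T - c)` is stable and non-zero, so it is `⊤`.
(isom) `ker T` is stable and `≠ ⊤`, so `⊥`; `range T` is stable and `≠ ⊥`, so `⊤`; `LinearEquiv.ofBijective`.
-/

set_option autoImplicit false
noncomputable section
namespace Pool.OL95

theorem schur_scalar {k : Type} [Field k] [IsAlgClosed k] {G : Type} [Group G] {V : Type}
    [AddCommGroup V] [Module k V] [FiniteDimensional k V] (ρ : Representation k G V) (h : Smp ρ)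
    (T : V →ₗ[k] V) (hT : Eqv ρ ρ T) : ∃ c : k, ∀ v, T v = c • v := by
  haveI := h.1
  obtain ⟨c, hc⟩ := Module.End.exists_eigenvalue T
  refine ⟨c, ?_⟩
  have hst : Stb ρ (Module.End.eigenspace T c) := by
    intro g v hv
    rw [Module.End.mem_eigenspace_iff] at hv ⊢
    rw [hT g v, hv, map_smul]
  rcases h.2 _ hst with h1 | h1
  · exact absurd h1 hc
  · intro v
    have h2 : v ∈ Module.End.eigenspace T c := by rw [h1]; exact Submodule.mem_top
    exact Module.End.mem_eigenspace_iff.1 h2

theorem schur_isom {k : Type} [Field k] {G : Type} [Group G] {V V' : Type} [AddCommGroup V]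
    [Module k V] [AddCommGroup V'] [Module k V'] (ρ : Representation k G V)
    (ρ' : Representation k G V') (h : Smp ρ) (h' : Smp ρ') (T : V →ₗ[k] V') (hT : Eqv ρ ρ' T)
    (h0 : ∃ v, T v ≠ 0) : Isom ρ ρ' := by
  obtain ⟨v0, hv0⟩ := h0
  have h1 : Stb ρ (LinearMap.ker T) := by
    intro g v hv
    rw [LinearMap.mem_ker] at hv ⊢
    rw [hT g v, hv, map_zero]
  have h2 : Stb ρ' (LinearMap.range T) := by
    rintro g _ ⟨v, rfl⟩
    exact ⟨ρ g v, hT g v⟩
  have h3 : LinearMap.ker T = ⊥ := by
    rcases h.2 _ h1 with h4 | h4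
    · exact h4
    · exact absurd (by rw [← LinearMap.mem_ker, h4]; exact Submodule.mem_top) hv0
  have h5 : LinearMap.range T = ⊤ := by
    rcases h'.2 _ h2 with h4 | h4
    · exact absurd (by rw [← Submodule.mem_bot k, ← h4]; exact ⟨v0, rfl⟩) hv0
    · exact h4
  exact ⟨LinearEquiv.ofBijective T ⟨LinearMap.ker_eq_bot.1 h3, LinearMap.range_eq_top.1 h5⟩,
    fun g v => hT g v⟩

theorem isom_refl {k : Type} [Field k] {G : Type} [Group G] {V : Type} [AddCommGroup V]
    [Module k V] (ρ : Representation k G V) : Isom ρ ρ := ⟨LinearEquiv.refl k V, fun _ _ => rfl⟩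

theorem isom_symm {k : Type} [Field k] {G : Type} [Group G] {V V' : Type} [AddCommGroup V]
    [Module k V] [AddCommGroup V'] [Module k V'] {ρ : Representation k G V}
    {ρ' : Representation k G V'} (h : Isom ρ ρ') : Isom ρ' ρ := by
  obtain ⟨e, he⟩ := h
  refine ⟨e.symm, fun g v => ?_⟩
  rw [LinearEquiv.symm_apply_eq, he, LinearEquiv.apply_symm_apply]

theorem isom_trans {k : Type} [Field k] {G : Type} [Group G] {V V' V'' : Type} [AddCommGroup V]
    [Module k V] [AddCommGroup V'] [Module k V'] [AddCommGroup V''] [Module k V'']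
    {ρ : Representation k G V} {ρ' : Representation k G V'} {ρ'' : Representation k G V''}
    (h : Isom ρ ρ') (h' : Isom ρ' ρ'') : Isom ρ ρ'' := by
  obtain ⟨e, he⟩ := h
  obtain ⟨f, hf⟩ := h'
  refine ⟨e.trans f, fun g v => ?_⟩
  rw [LinearEquiv.trans_apply, LinearEquiv.trans_apply, he, hf]

end Pool.OL95
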