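import Pool.Agent.LibOL95.Defs

/-!
Row C1. Maschke and simple subrepresentations.

Plan. (compl) average a `k`-linear projection onto `U`: `p' v = |H|⁻¹ ∑_h τ h (p (τ h⁻¹ v))`; `U' = ker p'`. (simple) a non-zero stable subspace of `U` of minimal
dimension (strong induction on `finrank`).
-/

set_option autoImplicit false
noncomputable section
namespace Pool.OL95

theorem maschke_compl {ℓ : ℕ} [Fact ℓ.Prime] {k : Type} [Field k] [CharP k ℓ] {H : Type} [Group H]
    [Finite H] {V : Type} [AddCommGroup V] [Module k V] (τ : Representation k H V)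
    (hH : ¬ ℓ ∣ Nat.card H) (U : Submodule k V) (hU : Stb τ U) :
    ∃ U' : Submodule k V, Stb τ U' ∧ IsCompl U U' := by
  classical
  have := Fintype.ofFinite H
  obtain ⟨g, hg⟩ := LinearMap.exists_leftInverse_of_injective U.subtype (Submodule.ker_subtype U)
  have hg' : ∀ u : V, ∀ hu : u ∈ U, g u = ⟨u, hu⟩ := fun u hu => by
    have h1 := LinearMap.congr_fun hg (⟨u, hu⟩ : U)
    exact h1
  have hc : (Nat.card H : k) ≠ 0 := by
    intro h0
    exact hH ((CharP.cast_eq_zero_iff k ℓ _).1 h0)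
  let p : V →ₗ[k] V := (Nat.card H : k)⁻¹ • ∑ h : H, τ h ∘ₗ U.subtype ∘ₗ g ∘ₗ τ h⁻¹
  have hp : ∀ v, p v = (Nat.card H : k)⁻¹ • ∑ h : H, τ h (g (τ h⁻¹ v) : V) := by
    intro v
    simp only [p, LinearMap.smul_apply, LinearMap.sum_apply, LinearMap.comp_apply,
      Submodule.subtype_apply]
  have hpU : ∀ v, p v ∈ U := by
    intro v
    rw [hp]
    exact U.smul_mem _ (U.sum_mem fun h _ => hU h _ (g (τ h⁻¹ v)).2)
  have hpu : ∀ u ∈ U, p u = u := by
    intro u hu
    rw [hp]
    have h1 : ∀ h : H, τ h (g (τ h⁻¹ u) : V) = u := by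
      intro h
      rw [hg' _ (hU h⁻¹ u hu)]
      show τ h (τ h⁻¹ u) = u
      rw [← Module.End.mul_apply, ← map_mul, mul_inv_cancel, map_one]
      rfl
    rw [Finset.sum_congr rfl fun h _ => h1 h, Finset.sum_const, Finset.card_univ,
      ← Nat.card_eq_fintype_card, ← Nat.cast_smul_eq_nsmul k, smul_smul, inv_mul_cancel₀ hc,
      one_smul]
  have hpe : ∀ a v, p (τ a v) = τ a (p v) := by
    intro a v
    rw [hp, hp, map_smul, map_sum]
    congr 1
    refine Fintype.sum_equiv (Equiv.mulLeft a⁻¹) _ _ fun h => ?_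
    show τ h (g (τ h⁻¹ (τ a v)) : V) = τ a (τ (a⁻¹ * h) (g (τ (a⁻¹ * h)⁻¹ v) : V))
    have e1 : τ h⁻¹ (τ a v) = τ (a⁻¹ * h)⁻¹ v := by
      rw [← Module.End.mul_apply, ← map_mul, mul_inv_rev, inv_inv]
    have e2 : ∀ w, τ a (τ (a⁻¹ * h) w) = τ h w := by
      intro w
      rw [← Module.End.mul_apply, ← map_mul, mul_inv_cancel_left]
    rw [e1, e2]
  refine ⟨LinearMap.ker p, ?_, ?_⟩
  · intro a v hv
    rw [LinearMap.mem_ker] at hv ⊢
    rw [hpe, hv, map_zero]
  · constructor
    · rw [Submodule.disjoint_def]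
      intro v hv hv'
      rw [LinearMap.mem_ker] at hv'
      rw [← hpu v hv, hv']
    · rw [codisjoint_iff, Submodule.eq_top_iff']
      intro v
      refine Submodule.mem_sup.2 ⟨p v, hpU v, v - p v, ?_, by abel⟩
      rw [LinearMap.mem_ker, map_sub, hpu _ (hpU v), sub_self]

theorem exists_simple_sub {k : Type} [Field k] {H : Type} [Group H] {V : Type} [AddCommGroup V]
    [Module k V] [FiniteDimensional k V] (τ : Representation k H V) (U : Submodule k V)
    (hU : Stb τ U) (h0 : U ≠ ⊥) :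
    ∃ (A : Submodule k V) (hA : Stb τ A), A ≤ U ∧ Smp (subRep τ A hA) := by
  obtain ⟨A, ⟨hA, hAU, hA0⟩, hmin⟩ := WellFounded.has_min
    (wellFounded_lt (α := Submodule k V)) {A | Stb τ A ∧ A ≤ U ∧ A ≠ ⊥} ⟨U, hU, le_refl U, h0⟩
  refine ⟨A, hA, hAU, Submodule.nontrivial_iff_ne_bot.2 hA0, fun W hW => ?_⟩
  by_cases hW0 : W.map A.subtype = ⊥
  · left
    rw [eq_bot_iff]
    intro w hw
    have h1 : A.subtype w ∈ W.map A.subtype := ⟨w, hw, rfl⟩
    rw [hW0] at h1
    exact Subtype.ext h1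
  · right
    have h1 : Stb τ (W.map A.subtype) := by
      rintro g _ ⟨w, hw, rfl⟩
      exact ⟨subRep τ A hA g w, hW g w hw, rfl⟩
    have h2 : W.map A.subtype ≤ A := Submodule.map_subtype_le A W
    have h3 : W.map A.subtype = A := by
      rcases h2.eq_or_lt with h | h
      · exact h
      · exact absurd h (hmin _ ⟨h1, h2.trans hAU, hW0⟩)
    rw [Submodule.eq_top_iff']
    intro w
    have h4 : (w : V) ∈ W.map A.subtype := by
      rw [h3]
      exact w.2
    obtain ⟨w', hw', h5⟩ := h4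
    have : w' = w := Subtype.ext h5
    rwa [← this]

end Pool.OL95
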