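import Pool.Agent.LibOL95.C1
import Pool.Agent.LibOL95.A4

/-!
Row C2. Existence of `A0`.

Plan. Let `j` be minimal with `¬ KD ρ x j ≤ RD ρ x` (`Nat.find`, `h` at `ℓ - 1`); `j ≥ 1` because `KD ρ x 0 = ⊥`, `j ≤ ℓ - 1 < ℓ`, `KD ρ x (j-1) ≤ RD ρ x` by minimality. `KD ρ x j` and `RD ρ x` are
stable under `E` (`NN_stable`, `Dat.nE`). By `maschke_compl` (for `res ρ E`, `Dat.cE`) `KD j ⊓ RD` has a stable complement `C` in `V`; `C ⊓ KD j` is stable and `≠ ⊥` (otherwise `KD j ≤ RD`: for `v ∈ KD j`,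
`v = u + c` with `u ∈ KD j ⊓ RD`, `c ∈ C`, so `c ∈ C ⊓ KD j`). Take a simple `A ≤ C ⊓ KD j` (`exists_simple_sub`); `A ⊓ RD ≤ C ⊓ (KD j ⊓ RD) = ⊥`.
-/

set_option autoImplicit false
noncomputable section
namespace Pool.OL95

theorem exists_A0 {ℓ : ℕ} [Fact ℓ.Prime] {k : Type} [Field k] [CharP k ℓ] {G : Type} [Group G]
    [Finite G] {V : Type} [AddCommGroup V] [Module k V] [FiniteDimensional k V] {x : G}
    {E : Subgroup G} (hd : Dat ℓ x E) (ρ : Representation k G V)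
    (h : ¬ KD ρ x (ℓ - 1) ≤ RD ρ x) : ∃ (j : ℕ) (A : Submodule k V), IsA0 ℓ x E ρ j A := by
  classical
  have hex : ∃ j, ¬ KD ρ x j ≤ RD ρ x := ⟨ℓ - 1, h⟩
  set j := Nat.find hex with hj
  have hjs : ¬ KD ρ x j ≤ RD ρ x := Nat.find_spec hex
  have hjle : j ≤ ℓ - 1 := Nat.find_min' hex h
  have hℓ : 2 ≤ ℓ := (Fact.out : ℓ.Prime).two_le
  have hj1 : 1 ≤ j := by
    by_contra hcon
    have hj0 : j = 0 := by omega
    apply hjs
    rw [hj0]
    intro v hv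
    have : v = 0 := hv
    rw [this]
    exact zero_mem _
  have hmin : KD ρ x (j - 1) ≤ RD ρ x := by
    by_contra hcon
    exact Nat.find_min hex (show j - 1 < Nat.find hex by omega) hcon
  have hK : Stb (res ρ E) (KD ρ x j) := fun e v hv =>
    (NN_stable ρ x (e : G) (hd.nE e.2) j v).1 hv
  have hR : Stb (res ρ E) (RD ρ x) := fun e v hv =>
    (NN_stable ρ x (e : G) (hd.nE e.2) j v).2 hv
  obtain ⟨C, hC, hcompl⟩ := maschke_compl (res ρ E) hd.cE (KD ρ x j ⊓ RD ρ x)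
    (fun e v hv => ⟨hK e v hv.1, hR e v hv.2⟩)
  have hB : Stb (res ρ E) (C ⊓ KD ρ x j) := fun e v hv => ⟨hC e v hv.1, hK e v hv.2⟩
  have hB0 : C ⊓ KD ρ x j ≠ ⊥ := by
    intro h0
    apply hjs
    intro v hv
    have hv' : v ∈ (KD ρ x j ⊓ RD ρ x) ⊔ C := by
      rw [codisjoint_iff.1 hcompl.2]
      exact Submodule.mem_top
    obtain ⟨u, hu, c, hc, huc⟩ := Submodule.mem_sup.1 hv'
    have h1 : c ∈ C ⊓ KD ρ x j := by
      refine ⟨hc, ?_⟩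
      have : c = v - u := by rw [← huc]; abel
      rw [this]
      exact sub_mem hv hu.1
    rw [h0, Submodule.mem_bot] at h1
    rw [h1, add_zero] at huc
    rw [← huc]
    exact hu.2
  obtain ⟨A, hA, hAB, hAs⟩ := exists_simple_sub (res ρ E) (C ⊓ KD ρ x j) hB hB0
  refine ⟨j, A, hj1, by omega, hmin, fun v hv => (hAB hv).2, ?_, hA, hAs⟩
  rw [eq_bot_iff]
  intro v hv
  have h1 : v ∈ (KD ρ x j ⊓ RD ρ x) ⊓ C := ⟨⟨(hAB hv.1).2, hv.2⟩, (hAB hv.1).1⟩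
  rwa [disjoint_iff.1 hcompl.1] at h1

end Pool.OL95
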