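import Pool.Agent.LibOL95.C0
import Pool.Agent.LibOL95.B1
import Pool.Agent.LibOL95.B3

/-!
Row C3. For `ρ` simple `ker D^{ℓ-1} ≤ A ⊔ range D`, and `A` is the only simple representation of `E` related to `ρ`.

Plan. (sup) apply `exists_pi` with `ρ' = ρ`, `σ = id` : `π` is `N`-equivariant, `π a = a` on `A`, `π v ∈ A ⊔ RD`. `exists_transfer` for `π`: `T` equivariant, `T v - π v ∈ RD` for
`v ∈ KD (ℓ-1)`. By Schur `T = c`. For `0 ≠ a ∈ A` (`A ≤ KD j ≤ KD (ℓ-1)`): `c a - a ∈ RD ⊓ A = ⊥`, so `c = 1`. Hence `v - π v ∈ RD` for all `v ∈ KD (ℓ-1)`.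
(isom) `φ` of `Rel`: `v ∈ KD (ℓ-1)`, `φ v ≠ 0`, `v = a + r`, `a ∈ A`, `r ∈ RD`, `φ r = 0`, so `φ a ≠ 0`; `schur_isom` for the restriction of `φ` to `A`.
-/

set_option autoImplicit false
noncomputable section
namespace Pool.OL95

theorem c3_KD_mono {k : Type} [Field k] {G : Type} [Group G] {V : Type} [AddCommGroup V]
    [Module k V] (ρ : Representation k G V) (x : G) {i j : ℕ} (h : i ≤ j) : KD ρ x i ≤ KD ρ x j := by
  intro v hv
  rw [KD, LinearMap.mem_ker] at hv ⊢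
  obtain ⟨m, rfl⟩ := Nat.exists_eq_add_of_le h
  rw [add_comm, pow_add, Module.End.mul_apply, hv, map_zero]

theorem KD_le_sup {ℓ : ℕ} [Fact ℓ.Prime] {k : Type} [Field k] [IsAlgClosed k] [CharP k ℓ] {G : Type}
    [Group G] [Finite G] {V : Type} [AddCommGroup V] [Module k V] [FiniteDimensional k V] {x : G}
    {E : Subgroup G} (hd : Dat ℓ x E) (ρ : Representation k G V) (hs : Smp ρ) {j : ℕ}
    {A : Submodule k V} (hA : IsA0 ℓ x E ρ j A) : KD ρ x (ℓ - 1) ≤ A ⊔ RD ρ x := by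
  have hjl : j ≤ ℓ - 1 := Nat.le_sub_one_of_lt hA.lt
  obtain ⟨π, h1, h2, h3⟩ := exists_pi hd ρ ρ j hA.one_le hA.min A hA.le hA.inf hA.stb
    LinearMap.id (fun a ha => hA.le ha) (fun e a _ => rfl)
  obtain ⟨T, hT1, hT2⟩ := exists_transfer hd ρ ρ π h1
  obtain ⟨c, hc⟩ := schur_scalar ρ hs T hT1
  have hn := hA.smp.1
  obtain ⟨a, ha⟩ := exists_ne (0 : A)
  have ha0 : (a : V) ≠ 0 := fun h => ha (Subtype.ext h)
  have haK : (a : V) ∈ KD ρ x (ℓ - 1) := c3_KD_mono ρ x hjl (hA.le a.2)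
  have hc1 : c = 1 := by
    have h4 := hT2 a haK
    rw [hc, h2 a a.2, LinearMap.id_apply] at h4
    have h5 : c • (a : V) - a ∈ A ⊓ RD ρ x := ⟨A.sub_mem (A.smul_mem c a.2) a.2, h4⟩
    rw [hA.inf, Submodule.mem_bot] at h5
    have h6 : (c - 1) • (a : V) = 0 := by rw [sub_smul, one_smul, h5]
    rcases smul_eq_zero.1 h6 with h7 | h7
    · exact sub_eq_zero.1 h7
    · exact absurd h7 ha0
  intro v hv
  have h4 := hT2 v hv
  rw [hc, hc1, one_smul] at h4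
  have h5 := h3 v
  rw [Submodule.map_id] at h5
  have h6 : v = (v - π v) + π v := by abel
  rw [h6]
  exact Submodule.add_mem _ (Submodule.mem_sup_right h4) h5

theorem isom_A0 {ℓ : ℕ} [Fact ℓ.Prime] {k : Type} [Field k] [IsAlgClosed k] [CharP k ℓ] {G : Type}
    [Group G] [Finite G] {V W : Type} [AddCommGroup V] [Module k V] [FiniteDimensional k V]
    [AddCommGroup W] [Module k W] {x : G} {E : Subgroup G} (hd : Dat ℓ x E)
    (ρ : Representation k G V) (hs : Smp ρ) {j : ℕ} {A : Submodule k V} (hA : IsA0 ℓ x E ρ j A)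
    (τ : Representation k E W) (hτ : Smp τ) (h : Rel ℓ x E ρ τ) :
    Isom (subRep (res ρ E) A hA.stb) τ := by
  obtain ⟨φ, h1, h2, v, hv, hv0⟩ := h
  obtain ⟨a, ha, r, hr, rfl⟩ := Submodule.mem_sup.1 (KD_le_sup hd ρ hs hA hv)
  obtain ⟨w, rfl⟩ := hr
  refine schur_isom _ τ hA.smp hτ (φ.comp A.subtype) (fun e b => ?_) ⟨⟨a, ha⟩, ?_⟩
  · exact h1 e b.1
  · rw [map_add, h2 w, add_zero] at hv0
    exact hv0

end Pool.OL95
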