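import Pool.Agent.LibOL95.A4

/-!
Row C4. `ρ` is related to `A`.

Plan. Let `p : V → A` be `k`-linear with `p a = a` on `A` and `p = 0` on `RD ρ x` (`A ⊓ RD = ⊥`; extend to a complement, e.g. a complement `C ≥ RD` of `A`:
`Submodule.exists_isCompl` for `A ⊔ RD`, or `LinearMap.exists_extend`). `φ v = |E|⁻¹ ∑_{e ∈ E} e (p (ρ e⁻¹ v))` (`e` acts on `A` by `subRep`): `E`-equivariant, `= id` on `A`, `0` on `RD` (stable under `E`, `NN_stable`,
`Dat.nE`), `|E| ≠ 0` in `k` (`Dat.cE`). Take any `0 ≠ a ∈ A` (`smp.1`); `A ≤ KD j ≤ KD (ℓ-1)` (`lt`).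
-/

set_option autoImplicit false
noncomputable section
namespace Pool.OL95

theorem c4_proj {k : Type} [Field k] {V : Type} [AddCommGroup V] [Module k V]
    (A R : Submodule k V) (h : A ⊓ R = ⊥) :
    ∃ p : V →ₗ[k] A, (∀ a : A, p a = a) ∧ ∀ r ∈ R, p r = 0 := by
  obtain ⟨C, hC⟩ := Submodule.exists_isCompl (A ⊔ R)
  have hdis : Disjoint A (R ⊔ C) := by
    have h1 : Disjoint A R := disjoint_iff.2 h
    exact h1.disjoint_sup_right_of_disjoint_sup_left hC.disjoint
  have hcomp : IsCompl A (R ⊔ C) := ⟨hdis, by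
    rw [codisjoint_iff, ← sup_assoc]; exact hC.sup_eq_top⟩
  refine ⟨A.projectionOnto (R ⊔ C) hcomp, fun a => ?_, fun r hr => ?_⟩
  · exact Submodule.projectionOnto_apply_left hcomp a
  · exact (Submodule.projectionOnto_apply_eq_zero_iff hcomp).2 (Submodule.mem_sup_left hr)

theorem rel_A0 {ℓ : ℕ} [Fact ℓ.Prime] {k : Type} [Field k] [CharP k ℓ] {G : Type} [Group G]
    [Finite G] {V : Type} [AddCommGroup V] [Module k V] {x : G} {E : Subgroup G}
    (hd : Dat ℓ x E) (ρ : Representation k G V) {j : ℕ} {A : Submodule k V}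
    (hA : IsA0 ℓ x E ρ j A) : Rel ℓ x E ρ (subRep (res ρ E) A hA.stb) := by
  classical
  have hf : Fintype E := Fintype.ofFinite E
  obtain ⟨p, hp1, hp2⟩ := c4_proj A (RD ρ x) hA.inf
  have hE0 : ((Fintype.card E : ℕ) : k) ≠ 0 := by
    intro h0
    apply hd.cE
    rw [Nat.card_eq_fintype_card]
    exact (CharP.cast_eq_zero_iff k ℓ _).1 h0
  have hinv : ∀ (e : E) (v : V), ρ ((e⁻¹ : E) : G) (ρ e v) = v := by
    intro e v
    rw [← Module.End.mul_apply, ← map_mul]
    simp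
  have hmul : ∀ (e f : E) (v : V), ρ ((e * f : E) : G) v = ρ e (ρ f v) := by
    intro e f v
    rw [← Module.End.mul_apply, ← map_mul]
    rfl
  have hmul' : ∀ (e f : E) (a : A), subRep (res ρ E) A hA.stb (e * f) a =
      subRep (res ρ E) A hA.stb e (subRep (res ρ E) A hA.stb f a) := by
    intro e f a
    rw [map_mul, Module.End.mul_apply]
  let φ : V →ₗ[k] A := ((Fintype.card E : ℕ) : k)⁻¹ •
    ∑ e : E, (subRep (res ρ E) A hA.stb e) ∘ₗ p ∘ₗ (ρ ((e⁻¹ : E) : G))
  have hφ : ∀ v, φ v = ((Fintype.card E : ℕ) : k)⁻¹ •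
      ∑ e : E, subRep (res ρ E) A hA.stb e (p (ρ ((e⁻¹ : E) : G) v)) := by
    intro v
    simp only [φ, LinearMap.smul_apply, LinearMap.sum_apply, LinearMap.comp_apply]
  have hφA : ∀ a : A, φ a = a := by
    intro a
    rw [hφ]
    have h1 : ∀ e : E, subRep (res ρ E) A hA.stb e (p (ρ ((e⁻¹ : E) : G) a)) = a := by
      intro e
      have h2 : ρ ((e⁻¹ : E) : G) (a : V) = ((subRep (res ρ E) A hA.stb e⁻¹ a : A) : V) := rfl
      rw [h2, hp1, ← hmul', mul_inv_cancel, map_one, Module.End.one_apply]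
    rw [Finset.sum_congr rfl (fun e _ => h1 e), Finset.sum_const, Finset.card_univ,
      ← Nat.cast_smul_eq_nsmul k, smul_smul, inv_mul_cancel₀ hE0, one_smul]
  refine ⟨φ, ?_, ?_, ?_⟩
  · intro f v
    rw [hφ, hφ, map_smul, map_sum]
    congr 1
    refine Fintype.sum_equiv (Equiv.mulLeft f⁻¹) _ _ (fun e => ?_)
    change _ = subRep (res ρ E) A hA.stb f (subRep (res ρ E) A hA.stb (f⁻¹ * e)
      (p (ρ (((f⁻¹ * e)⁻¹ : E) : G) v)))
    rw [← hmul', mul_inv_cancel_left, mul_inv_rev, inv_inv, hmul]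
  · intro v
    rw [hφ]
    have h1 : ∀ e : E, subRep (res ρ E) A hA.stb e (p (ρ ((e⁻¹ : E) : G) (DD ρ x v))) = 0 := by
      intro e
      have h2 : ρ ((e⁻¹ : E) : G) (DD ρ x v) ∈ RD ρ x :=
        (NN_stable ρ x _ (hd.nE (e⁻¹ : E).2) 0 _).2 ⟨v, rfl⟩
      rw [hp2 _ h2, map_zero]
    rw [Finset.sum_congr rfl (fun e _ => h1 e), Finset.sum_const_zero, smul_zero]
  · have hn := hA.smp.1
    obtain ⟨a, ha⟩ := exists_ne (0 : A)
    refine ⟨a, ?_, ?_⟩
    · have h1 := hA.le a.2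
      rw [KD, LinearMap.mem_ker] at h1 ⊢
      obtain ⟨m, hm⟩ := Nat.exists_eq_add_of_le (Nat.le_sub_one_of_lt hA.lt)
      rw [hm, add_comm, pow_add, Module.End.mul_apply, h1, map_zero]
    · rw [hφA]; exact ha

/-- Related representations are not projective: `ker D^{ℓ-1}` is not contained in `range D`. -/
theorem not_le_of_rel {ℓ : ℕ} {k : Type} [Field k] {G : Type} [Group G] {V W : Type}
    [AddCommGroup V] [Module k V] [AddCommGroup W] [Module k W] {x : G} {E : Subgroup G}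
    (ρ : Representation k G V) (τ : Representation k E W) (h : Rel ℓ x E ρ τ) :
    ¬ KD ρ x (ℓ - 1) ≤ RD ρ x := by
  obtain ⟨φ, -, h2, v, hv, hv0⟩ := h
  intro hle
  obtain ⟨w, rfl⟩ := hle hv
  exact hv0 (h2 w)

/-- `Rel` is invariant under isomorphism. -/
theorem rel_congr {ℓ : ℕ} {k : Type} [Field k] {G : Type} [Group G] {V V' W W' : Type}
    [AddCommGroup V] [Module k V] [AddCommGroup V'] [Module k V'] [AddCommGroup W] [Module k W]
    [AddCommGroup W'] [Module k W'] {x : G} {E : Subgroup G}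
    (ρ : Representation k G V) (ρ' : Representation k G V') (τ : Representation k E W)
    (τ' : Representation k E W') (h1 : Isom ρ ρ') (h2 : Isom τ τ') (h : Rel ℓ x E ρ τ) :
    Rel ℓ x E ρ' τ' := by
  obtain ⟨e, he⟩ := h1
  obtain ⟨f, hf⟩ := h2
  obtain ⟨φ, a1, a2, v, hv, hv0⟩ := h
  have he' : ∀ g v', e.symm (ρ' g v') = ρ g (e.symm v') := by
    intro g v'
    rw [LinearEquiv.symm_apply_eq, he, LinearEquiv.apply_symm_apply]
  have hDD : ∀ v', e.symm (DD ρ' x v') = DD ρ x (e.symm v') := by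
    intro v'
    rw [DD_apply, DD_apply, map_sub, he']
  have hDDp : ∀ (i : ℕ) (v : V), ((DD ρ' x) ^ i) (e v) = e (((DD ρ x) ^ i) v) := by
    intro i
    induction i with
    | zero => intro v; rfl
    | succ i ih =>
      intro v
      rw [pow_succ, pow_succ, Module.End.mul_apply, Module.End.mul_apply, ← ih]
      congr 1
      rw [DD_apply, DD_apply, map_sub, he]
  refine ⟨f.toLinearMap.comp (φ.comp e.symm.toLinearMap), fun g v' => ?_, fun v' => ?_, e v, ?_, ?_⟩
  · change f (φ (e.symm (ρ' g v'))) = τ' g (f (φ (e.symm v')))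
    rw [he', a1, hf]
  · change f (φ (e.symm (DD ρ' x v'))) = 0
    rw [hDD, a2, map_zero]
  · rw [KD, LinearMap.mem_ker] at hv ⊢
    rw [hDDp, hv, map_zero]
  · change f (φ (e.symm (e v))) ≠ 0
    rw [LinearEquiv.symm_apply_apply]
    intro h0
    exact hv0 (f.map_eq_zero_iff.1 h0)

end Pool.OL95
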