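import Pool.Agent.LibOL95.C0
import Pool.Agent.LibOL95.B1
import Pool.Agent.LibOL95.B3

/-!
Row C5. Simple representations of `G` related to the same representation of `E` are isomorphic.

Plan. Let `e : A → A'` be the isomorphism, `σ : V → V'` a `k`-linear extension of `A → A' ⊂ V'` (`LinearMap.exists_extend`). `σ a ∈ A' ≤ KD j' ≤ KD j` on `A`. `exists_pi` for `j, A, σ`: `π` is `N`-equivariant
and `π = σ` on `A`; `exists_transfer`: `T` equivariant, `T a - σ a ∈ RD ρ' x` for `a ∈ A` (`A ≤ KD j ≤ KD (ℓ-1)`). For `0 ≠ a ∈ A`, `σ a ≠ 0` lies in `A'`, not in `RD ρ' x` (`A' ⊓ RD = ⊥`), so `T a ≠ 0`;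
`schur_isom`.
-/

set_option autoImplicit false
noncomputable section
namespace Pool.OL95

private theorem c5_KD_mono {k : Type} [Field k] {G : Type} [Group G] {V : Type} [AddCommGroup V]
    [Module k V] (ρ : Representation k G V) (x : G) {i j : ℕ} (h : i ≤ j) :
    KD ρ x i ≤ KD ρ x j := by
  intro v hv
  unfold KD at *
  rw [LinearMap.mem_ker] at *
  obtain ⟨d, rfl⟩ := Nat.exists_eq_add_of_le h
  rw [add_comm, pow_add, Module.End.mul_apply, hv, map_zero]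

theorem isom_of_A0 {ℓ : ℕ} [Fact ℓ.Prime] {k : Type} [Field k] [CharP k ℓ] {G : Type}
    [Group G] [Finite G] {V V' : Type} [AddCommGroup V] [Module k V] [AddCommGroup V']
    [Module k V'] {x : G} {E : Subgroup G} (hd : Dat ℓ x E)
    (ρ : Representation k G V) (ρ' : Representation k G V') (hs : Smp ρ) (hs' : Smp ρ') {j j' : ℕ}
    {A : Submodule k V} {A' : Submodule k V'} (hA : IsA0 ℓ x E ρ j A) (hA' : IsA0 ℓ x E ρ' j' A')
    (hj : j' ≤ j) (he : Isom (subRep (res ρ E) A hA.stb) (subRep (res ρ' E) A' hA'.stb)) :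
    Isom ρ ρ' := by
  obtain ⟨e, he⟩ := he
  obtain ⟨σ, hσ⟩ := LinearMap.exists_extend (A'.subtype.comp e.toLinearMap)
  have hσa : ∀ (a : V) (ha : a ∈ A), σ a = (e ⟨a, ha⟩ : V') := by
    intro a ha
    exact LinearMap.congr_fun hσ (⟨a, ha⟩ : A)
  have hσA' : ∀ a ∈ A, σ a ∈ A' := by
    intro a ha
    rw [hσa a ha]
    exact (e ⟨a, ha⟩).2
  have hσE : ∀ e' : E, ∀ a ∈ A, σ (ρ e' a) = ρ' e' (σ a) := by
    intro e' a ha
    have h1 : ρ (e' : G) a ∈ A := hA.stb e' a ha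
    have h2 := he e' ⟨a, ha⟩
    have h3 : (subRep (res ρ E) A hA.stb e' ⟨a, ha⟩ : A) = ⟨ρ (e' : G) a, h1⟩ := rfl
    rw [h3] at h2
    rw [hσa a ha, hσa _ h1, h2]
    rfl
  obtain ⟨π, hπ, hπA, -⟩ := exists_pi hd ρ ρ' j hA.one_le hA.min A hA.le hA.inf hA.stb σ
    (fun a ha => c5_KD_mono ρ' x hj (hA'.le (hσA' a ha))) hσE
  obtain ⟨T, hT, hTφ⟩ := exists_transfer hd ρ ρ' π hπ
  -- a nonzero element of `A`
  obtain ⟨⟨a, ha⟩, hane⟩ := @exists_ne A hA.smp.1 0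
  refine schur_isom ρ ρ' hs hs' T hT ⟨a, fun h0 => ?_⟩
  have haK : a ∈ KD ρ x (ℓ - 1) := c5_KD_mono ρ x (by have := hA.lt; omega) (hA.le ha)
  have h1 := hTφ a haK
  rw [h0, zero_sub, hπA a ha] at h1
  have h2 : σ a ∈ RD ρ' x := by
    have := (RD ρ' x).neg_mem h1
    rwa [neg_neg] at this
  have h3 : σ a ∈ A' ⊓ RD ρ' x := ⟨hσA' a ha, h2⟩
  rw [hA'.inf, Submodule.mem_bot, hσa a ha] at h3
  have h4 : e ⟨a, ha⟩ = 0 := Subtype.ext h3
  exact hane (e.map_eq_zero_iff.1 h4)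

end Pool.OL95
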