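import Pool.Agent.LibOL95.C2
import Pool.Agent.LibOL95.C3
import Pool.Agent.LibOL95.C4
import Pool.Agent.LibOL95.C5
import Pool.Agent.LibOL95.A3

/-! Uniqueness: simple representations related to isomorphic ones. -/

set_option autoImplicit false
noncomputable section
namespace Pool.OL95

theorem isom_of_rel {ℓ : ℕ} [Fact ℓ.Prime] {k : Type} [Field k] [IsAlgClosed k] [CharP k ℓ]
    {G : Type} [Group G] [Finite G] {V V' W : Type} [AddCommGroup V] [Module k V]
    [FiniteDimensional k V] [AddCommGroup V'] [Module k V'] [FiniteDimensional k V']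
    [AddCommGroup W] [Module k W] {x : G} {E : Subgroup G} (hd : Dat ℓ x E)
    (ρ : Representation k G V) (ρ' : Representation k G V') (hs : Smp ρ) (hs' : Smp ρ')
    (τ : Representation k E W) (hτ : Smp τ) (h : Rel ℓ x E ρ τ) (h' : Rel ℓ x E ρ' τ) :
    Isom ρ ρ' := by
  obtain ⟨j, A, hA⟩ := exists_A0 hd ρ (not_le_of_rel ρ τ h)
  obtain ⟨j', A', hA'⟩ := exists_A0 hd ρ' (not_le_of_rel ρ' τ h')
  have e := isom_A0 hd ρ hs hA τ hτ h
  have e' := isom_A0 hd ρ' hs' hA' τ hτ h'
  have e2 := isom_trans e (isom_symm e')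
  rcases le_total j' j with hj | hj
  · exact isom_of_A0 hd ρ ρ' hs hs' hA hA' hj e2
  · exact isom_symm (isom_of_A0 hd ρ' ρ hs' hs hA' hA hj (isom_symm e2))

end Pool.OL95
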