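import Pool.Agent.LibOL95.C0

/-! Isomorphism classes of simple modules. -/

set_option autoImplicit false
noncomputable section
namespace Pool.OL95

/-- Maximal left ideals. -/
def SM (R : Type) [Ring R] : Type := {I : Submodule R R // IsSimpleModule R (R ⧸ I)}

/-- Isomorphism of `R/I` and `R/J`. -/
def smSetoid (R : Type) [Ring R] : Setoid (SM R) where
  r I J := Nonempty ((R ⧸ I.1) ≃ₗ[R] (R ⧸ J.1))
  iseqv := ⟨fun _ => ⟨LinearEquiv.refl _ _⟩, fun ⟨e⟩ => ⟨e.symm⟩, fun ⟨e⟩ ⟨f⟩ => ⟨e.trans f⟩⟩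

/-- Maximal left ideals `I` with `R/I` not projective. -/
def NP (R : Type) [Ring R] : Type :=
  {I : Submodule R R // IsSimpleModule R (R ⧸ I) ∧ ¬ Module.Projective R (R ⧸ I)}

/-- Isomorphism of `R/I` and `R/J`. -/
def npSetoid (R : Type) [Ring R] : Setoid (NP R) where
  r I J := Nonempty ((R ⧸ I.1) ≃ₗ[R] (R ⧸ J.1))
  iseqv := ⟨fun _ => ⟨LinearEquiv.refl _ _⟩, fun ⟨e⟩ => ⟨e.symm⟩, fun ⟨e⟩ ⟨f⟩ => ⟨e.trans f⟩⟩

end Pool.OL95
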