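import Pool.Agent.LibOL95.D0

/-!
Row D1. The simple modules are the projective and the non-projective ones.

Plan. Projectivity is invariant under isomorphism (`Module.Projective.of_equiv`), so `Quotient (smSetoid kG)` is the disjoint union of the classes of projective and of non-projective
modules (`Quotient (projSimpleSetoid k G) ⊕ Quotient (npSetoid kG) ≃ Quotient (smSetoid kG)`); finiteness: `Nat.card_sum`.
-/

set_option autoImplicit false
noncomputable section
namespace Pool.OL95
open Pool.FS95

theorem card_sm_split (k G : Type) [Field k] [Group G]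
    (hf : Finite (Quotient (smSetoid (MonoidAlgebra k G)))) :
    (Nat.card (Quotient (smSetoid (MonoidAlgebra k G))) : ℤ) =
      zproj k G + Nat.card (Quotient (npSetoid (MonoidAlgebra k G))) := by
  classical
  let f1 : Quotient (projSimpleSetoid k G) → Quotient (smSetoid (MonoidAlgebra k G)) :=
    Quotient.map (fun I => ⟨I.1, I.2.1⟩) (fun _ _ h => h)
  let f2 : Quotient (npSetoid (MonoidAlgebra k G)) → Quotient (smSetoid (MonoidAlgebra k G)) :=
    Quotient.map (fun I => ⟨I.1, I.2.1⟩) (fun _ _ h => h)
  have i1 : Function.Injective f1 := by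
    intro a b
    induction a using Quotient.inductionOn with | _ a => ?_
    induction b using Quotient.inductionOn with | _ b => ?_
    intro h
    have h' : Nonempty ((MonoidAlgebra k G ⧸ a.1) ≃ₗ[MonoidAlgebra k G]
        (MonoidAlgebra k G ⧸ b.1)) :=
      Quotient.exact (s := smSetoid (MonoidAlgebra k G)) (a := (⟨a.1, a.2.1⟩ : SM _))
        (b := (⟨b.1, b.2.1⟩ : SM _)) h
    exact Quotient.sound (s := projSimpleSetoid k G) h'
  have i2 : Function.Injective f2 := by
    intro a b
    induction a using Quotient.inductionOn with | _ a => ?_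
    induction b using Quotient.inductionOn with | _ b => ?_
    intro h
    have h' : Nonempty ((MonoidAlgebra k G ⧸ a.1) ≃ₗ[MonoidAlgebra k G]
        (MonoidAlgebra k G ⧸ b.1)) :=
      Quotient.exact (s := smSetoid (MonoidAlgebra k G)) (a := (⟨a.1, a.2.1⟩ : SM _))
        (b := (⟨b.1, b.2.1⟩ : SM _)) h
    exact Quotient.sound (s := npSetoid (MonoidAlgebra k G)) h'
  have hne : ∀ a b, f1 a ≠ f2 b := by
    intro a b
    induction a using Quotient.inductionOn with | _ a => ?_
    induction b using Quotient.inductionOn with | _ b => ?_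
    intro h
    obtain ⟨e⟩ := Quotient.exact h
    have := a.2.2
    exact b.2.2 (Module.Projective.of_equiv e)
  have hbij : Function.Bijective (Sum.elim f1 f2) := by
    refine ⟨i1.sumElim i2 hne, fun c => ?_⟩
    induction c using Quotient.inductionOn with | _ c => ?_
    by_cases hc : Module.Projective (MonoidAlgebra k G) (MonoidAlgebra k G ⧸ c.1)
    · exact ⟨Sum.inl (Quotient.mk _ ⟨c.1, c.2, hc⟩), rfl⟩
    · exact ⟨Sum.inr (Quotient.mk _ ⟨c.1, c.2, hc⟩), rfl⟩
  have : Finite (Quotient (projSimpleSetoid k G)) := Finite.of_injective f1 i1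
  have : Finite (Quotient (npSetoid (MonoidAlgebra k G))) := Finite.of_injective f2 i2
  rw [← Nat.card_congr (Equiv.ofBijective _ hbij), Nat.card_sum]
  unfold zproj
  push_cast
  rfl

/-- Classes of two setoids which are matched by a relation. -/
theorem card_quot_eq {X Y : Type} (r : Setoid X) (s : Setoid Y) (R : X → Y → Prop)
    (h1 : ∀ x, ∃ y, R x y) (h2 : ∀ y, ∃ x, R x y)
    (h3 : ∀ x x' y y', R x y → R x' y' → (r x x' ↔ s y y')) :
    Nat.card (Quotient r) = Nat.card (Quotient s) := by
  choose f hf using h1
  have hr : ∀ x x', r x x' ↔ s (f x) (f x') := fun x x' => h3 x x' _ _ (hf x) (hf x')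
  let F : Quotient r → Quotient s := Quotient.map f (fun x x' h => (hr x x').1 h)
  have hF : Function.Bijective F := by
    constructor
    · intro a b
      induction a using Quotient.inductionOn with | _ a => ?_
      induction b using Quotient.inductionOn with | _ b => ?_
      intro h
      exact Quotient.sound ((hr a b).2 (Quotient.exact h))
    · intro c
      induction c using Quotient.inductionOn with | _ c => ?_
      obtain ⟨x, hx⟩ := h2 c
      refine ⟨Quotient.mk _ x, Quotient.sound ?_⟩
      exact (h3 x x _ _ (hf x) hx).1 (r.refl x)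
  exact Nat.card_congr (Equiv.ofBijective F hF)

end Pool.OL95
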