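import Pool.Agent.LibOL95.D0
import Pool.Agent.LibOL95.A6

/-!
Row D2. Modules and representations.

Plan. (smp_iff) `kG`-submodules of `V` are the stable `k`-subspaces (`a • v`, `a = ∑ c_g g`: induction on `a`). (isom_iff) an equivariant `k`-linear bijection is `kG`-linear (`ofEqv`) and conversely (restrict scalars).
(exists_mod) `ρ` makes `V` a `kG`-module (`Representation.asModule`, or `Module.compHom V (ρ.asAlgebraHom : kG →ₐ End).toRingHom` on a type synonym); it is simple, so for `0 ≠ v`, `kG → V`, `a ↦ a v`, is surjective with kernel `I`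
(`LinearMap.quotKerEquivOfSurjective`), `kG ⧸ I` is simple.
-/

set_option autoImplicit false
noncomputable section
namespace Pool.OL95
open Pool.FS95

private theorem d2_smul {k : Type} [Field k] {G : Type} [Group G] {V : Type}
    [AddCommGroup V] [Module k V] [Module (MonoidAlgebra k G) V]
    [IsScalarTower k (MonoidAlgebra k G) V] (U : Submodule k V) (hU : Stb (ofMod k G V) U)
    (a : MonoidAlgebra k G) : ∀ v ∈ U, a • v ∈ U := by
  induction a using MonoidAlgebra.induction_linear with
  | zero =>
    intro v _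
    rw [zero_smul]
    exact U.zero_mem
  | add a b ha hb =>
    intro v hv
    rw [add_smul]
    exact U.add_mem (ha v hv) (hb v hv)
  | single g c =>
    intro v hv
    have h1 : MonoidAlgebra.single g c = c • (MonoidAlgebra.single g (1 : k)) := by
      rw [MonoidAlgebra.smul_single, smul_eq_mul, mul_one]
    rw [h1, smul_assoc]
    exact U.smul_mem c (hU g v hv)

theorem smp_iff (k : Type) [Field k] (G : Type) [Group G] (V : Type)
    [AddCommGroup V] [Module k V] [Module (MonoidAlgebra k G) V]
    [IsScalarTower k (MonoidAlgebra k G) V] :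
    IsSimpleModule (MonoidAlgebra k G) V ↔ Smp (ofMod k G V) := by
  constructor
  · intro h
    refine ⟨IsSimpleModule.nontrivial (MonoidAlgebra k G) V, fun U hU => ?_⟩
    obtain ⟨U', hU'⟩ : ∃ U' : Submodule (MonoidAlgebra k G) V, ∀ v, v ∈ U' ↔ v ∈ U :=
      ⟨{ carrier := U
         add_mem' := U.add_mem
         zero_mem' := U.zero_mem
         smul_mem' := fun a v hv => d2_smul U hU a v hv }, fun v => Iff.rfl⟩
    rcases eq_bot_or_eq_top U' with h1 | h1
    · left
      rw [eq_bot_iff]
      intro v hv
      rw [← hU', h1] at hv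
      exact hv
    · right
      rw [eq_top_iff]
      intro v _
      rw [← hU', h1]
      trivial
  · rintro ⟨hn, h⟩
    rw [isSimpleModule_iff]
    refine { exists_pair_ne := ⟨⊥, ⊤, bot_ne_top⟩, eq_bot_or_eq_top := fun N => ?_ }
    have hN : Stb (ofMod k G V) (N.restrictScalars k) := fun g v hv =>
      N.smul_mem (MonoidAlgebra.single g (1 : k)) hv
    rcases h _ hN with h1 | h1
    · left
      exact (Submodule.restrictScalars_eq_bot_iff _ _ _).1 h1
    · right
      exact (Submodule.restrictScalars_eq_top_iff _ _ _).1 h1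

theorem isom_iff (k : Type) [Field k] (G : Type) [Group G] (V V' : Type)
    [AddCommGroup V] [Module k V] [Module (MonoidAlgebra k G) V]
    [IsScalarTower k (MonoidAlgebra k G) V] [AddCommGroup V'] [Module k V']
    [Module (MonoidAlgebra k G) V'] [IsScalarTower k (MonoidAlgebra k G) V'] :
    Isom (ofMod k G V) (ofMod k G V') ↔ Nonempty (V ≃ₗ[MonoidAlgebra k G] V') := by
  constructor
  · rintro ⟨e, he⟩
    exact ⟨LinearEquiv.ofBijective (ofEqv e.toLinearMap he) e.bijective⟩
  · rintro ⟨e⟩
    refine ⟨e.restrictScalars k, fun g v => ?_⟩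
    exact e.map_smul (MonoidAlgebra.single g (1 : k)) v

theorem exists_mod {k : Type} [Field k] {G : Type} [Group G] {V : Type}
    [AddCommGroup V] [Module k V] (ρ : Representation k G V) (h : Smp ρ) :
    ∃ I : Submodule (MonoidAlgebra k G) (MonoidAlgebra k G),
      IsSimpleModule (MonoidAlgebra k G) (MonoidAlgebra k G ⧸ I) ∧
        Isom ρ (ofMod k G (MonoidAlgebra k G ⧸ I)) := by
  have h0 : ∀ (g : G) (v : ρ.asModule), ofMod k G ρ.asModule g v = ρ g v := by
    intro g v
    rw [ofMod_apply, Representation.single_smul, one_smul]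
    rfl
  have h1 : Smp (ofMod k G ρ.asModule) := by
    refine ⟨h.1, fun U hU => h.2 U fun g v hv => ?_⟩
    have := hU g v hv
    rwa [h0] at this
  have h2 := (smp_iff k G ρ.asModule).2 h1
  obtain ⟨I, -, ⟨e⟩⟩ := isSimpleModule_iff_quot_maximal.1 h2
  refine ⟨I, ?_, e.restrictScalars k, fun g v => ?_⟩
  · exact (e.isSimpleModule_iff).1 h2
  · have h3 := e.map_smul (MonoidAlgebra.single g (1 : k)) v
    rw [Representation.single_smul, one_smul] at h3
    exact h3

/-- Maschke: for an `ℓ'`-group every module is projective. -/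
theorem projective_of_not_dvd {ℓ : ℕ} [Fact ℓ.Prime] (k : Type) [Field k] [CharP k ℓ] (G : Type)
    [Group G] [Finite G] (hG : ¬ ℓ ∣ Nat.card G) (V : Type) [AddCommGroup V] [Module k V]
    [Module (MonoidAlgebra k G) V] [IsScalarTower k (MonoidAlgebra k G) V] :
    Module.Projective (MonoidAlgebra k G) V := by
  classical
  have hfin := Fintype.ofFinite G
  rw [projective_iff_hig]
  have hc : (Nat.card G : k) ≠ 0 := by
    rw [Ne, CharP.cast_eq_zero_iff k ℓ]
    exact hG
  refine ⟨(Nat.card G : k)⁻¹ • LinearMap.id, fun v => ?_⟩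
  have h1 : ∀ g : G, ofMod k G V g (((Nat.card G : k)⁻¹ • LinearMap.id : V →ₗ[k] V)
      (ofMod k G V g⁻¹ v)) = (Nat.card G : k)⁻¹ • v := by
    intro g
    rw [LinearMap.smul_apply, LinearMap.id_apply, map_smul, ← Module.End.mul_apply, ← map_mul,
      mul_inv_cancel, map_one, Module.End.one_apply]
  rw [finsum_congr h1, finsum_eq_sum_of_fintype, Finset.sum_const, Finset.card_univ,
    ← Nat.card_eq_fintype_card, ← Nat.cast_smul_eq_nsmul k, smul_smul, mul_inv_cancel₀ hc,
    one_smul]

end Pool.OL95
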