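import Pool.Agent.LibOL95.Defs
import Pool.Agent.LibFS95.Gen

/-!
Row D6. Group theory: the data exist.

Plan. (exists_dat) Cauchy: `x` of order `ℓ`; `P = ⟨x⟩` is a Sylow `ℓ`-subgroup (`ℓ² ∤ |G|`: any `ℓ`-subgroup has at most `ℓ` elements). `P ⊴ N = NN x`, `|P|` and `|N : P|` are coprime, Schur-Zassenhaus
(`Subgroup.exists_right_complement'_of_coprime` in `N`, then `Subgroup.map N.subtype`) gives `E ≤ N` with `P E = N`, `P ⊓ E = 1`, `|E| = |N : P|` prime to `ℓ`. (fx) let `g⁻¹ x g ∈ N`; `⟨g⁻¹ x g⟩` and `⟨x⟩` are subgroups of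
order `ℓ` of `N`, `⟨x⟩` normal in `N`; if they were different their product would be an `ℓ`-subgroup of order `ℓ²` (or: `⟨x⟩` is a normal Sylow subgroup of `N`, so the only subgroup of order `ℓ`); so `g⁻¹ ⟨x⟩ g = ⟨x⟩`, `g ∈ N`.
(nq_iso) `N / P ≃* E` : the composite `E → N → N/P` is bijective.
(isPGroup_or) a subgroup `Q` which is an `ℓ`-group is `⊥` or conjugate to `⟨x⟩` (Sylow).
-/

set_option autoImplicit false
noncomputable section
namespace Pool.OL95
open Pool.FS95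

private theorem d6_card_P {ℓ : ℕ} {G : Type} [Group G] {x : G} (hx : orderOf x = ℓ) :
    Nat.card (Subgroup.zpowers x) = ℓ := by rw [Nat.card_zpowers, hx]

private theorem d6_P_le (G : Type) [Group G] (x : G) : Subgroup.zpowers x ≤ NN x :=
  Subgroup.le_normalizer

/-- the index of `⟨x⟩` in its normalizer is prime to `ℓ` -/
private theorem d6_index {ℓ : ℕ} [Fact ℓ.Prime] {G : Type} [Group G] [Finite G] {x : G}
    (hx : orderOf x = ℓ) (h2 : ¬ ℓ ^ 2 ∣ Nat.card G) :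
    ¬ ℓ ∣ ((Subgroup.zpowers x).subgroupOf (NN x)).index := by
  intro hd
  apply h2
  have hc : Nat.card ((Subgroup.zpowers x).subgroupOf (NN x)) = ℓ := by
    rw [Nat.card_congr (Subgroup.subgroupOfEquivOfLe (d6_P_le G x)).toEquiv, d6_card_P hx]
  have h3 : ℓ ^ 2 ∣ Nat.card (NN x) := by
    rw [← Subgroup.card_mul_index ((Subgroup.zpowers x).subgroupOf (NN x)), hc, pow_two]
    exact Nat.mul_dvd_mul_left ℓ hd
  exact h3.trans (Subgroup.card_subgroup_dvd_card _)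

/-- an element of the normalizer with `ℓ`-th power one is in `⟨x⟩` -/
private theorem d6_mem {ℓ : ℕ} [Fact ℓ.Prime] {G : Type} [Group G] [Finite G] {x : G}
    (hx : orderOf x = ℓ) (h2 : ¬ ℓ ^ 2 ∣ Nat.card G) {y : G} (hy : y ∈ NN x) (hyl : y ^ ℓ = 1) :
    y ∈ Subgroup.zpowers x := by
  have hℓ : ℓ.Prime := Fact.out
  have hn : ((Subgroup.zpowers x).subgroupOf (NN x)).Normal := Subgroup.normal_in_normalizer
  set P' := (Subgroup.zpowers x).subgroupOf (NN x) with hP'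
  let z : NN x ⧸ P' := QuotientGroup.mk (⟨y, hy⟩ : NN x)
  have h3 : z ^ ℓ = 1 := by
    have h4 : (⟨y, hy⟩ : NN x) ^ ℓ = 1 := Subtype.ext hyl
    show (QuotientGroup.mk (⟨y, hy⟩ : NN x) : NN x ⧸ P') ^ ℓ = 1
    rw [← QuotientGroup.mk_pow, h4, QuotientGroup.mk_one]
  have h4 : z ^ P'.index = 1 := by
    rw [Subgroup.index_eq_card]
    exact pow_card_eq_one'
  have h5 : Nat.Coprime ℓ P'.index := (Nat.Prime.coprime_iff_not_dvd hℓ).2 (d6_index hx h2)
  have h6 : orderOf z ∣ 1 := by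
    rw [← h5]
    exact Nat.dvd_gcd (orderOf_dvd_of_pow_eq_one h3) (orderOf_dvd_of_pow_eq_one h4)
  have h7 : z = 1 := orderOf_eq_one_iff.1 (Nat.dvd_one.1 h6)
  have h8 : (⟨y, hy⟩ : NN x) ∈ P' := (QuotientGroup.eq_one_iff _).1 h7
  exact Subgroup.mem_subgroupOf.1 h8

theorem exists_dat {ℓ : ℕ} [Fact ℓ.Prime] {G : Type} [Group G] [Finite G] (h1 : ℓ ∣ Nat.card G)
    (h2 : ¬ ℓ ^ 2 ∣ Nat.card G) : ∃ (x : G) (E : Subgroup G), Dat ℓ x E := by
  have hℓ : ℓ.Prime := Fact.out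
  obtain ⟨x, hx⟩ := exists_prime_orderOf_dvd_card' ℓ h1
  have hn : ((Subgroup.zpowers x).subgroupOf (NN x)).Normal := Subgroup.normal_in_normalizer
  have hidx := d6_index hx h2
  set P' := (Subgroup.zpowers x).subgroupOf (NN x) with hP'
  have hc : Nat.card P' = ℓ := by
    rw [hP', Nat.card_congr (Subgroup.subgroupOfEquivOfLe (d6_P_le G x)).toEquiv, d6_card_P hx]
  have hcop : (Nat.card P').Coprime P'.index := by
    rw [hc]
    exact (Nat.Prime.coprime_iff_not_dvd hℓ).2 hidx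
  obtain ⟨H, hH⟩ := Subgroup.exists_right_complement'_of_coprime hcop
  have hcH : Nat.card H = P'.index := by
    have h3 : Nat.card P' * Nat.card H = Nat.card (NN x) := hH.card_mul
    have h4 := Subgroup.card_mul_index P'
    rw [← h4] at h3
    exact Nat.eq_of_mul_eq_mul_left (by rw [hc]; exact hℓ.pos) h3
  refine ⟨x, H.map (NN x).subtype, hx, ?_, ?_, ?_, ?_, h2⟩
  · rw [Nat.card_congr (H.equivMapOfInjective _ (NN x).subtype_injective).symm.toEquiv, hcH]
    exact hidx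
  · rintro _ ⟨h, -, rfl⟩
    exact h.2
  · intro g hg
    obtain ⟨⟨p, h⟩, hph⟩ := hH.surjective ⟨g, hg⟩
    have h3 : (p.1.1 : G) ∈ Subgroup.zpowers x := Subgroup.mem_subgroupOf.1 p.2
    rw [← mem_powers_iff_mem_zpowers] at h3
    obtain ⟨i, hi⟩ := h3
    refine ⟨i, (h.1.1 : G), ⟨h.1, h.2, rfl⟩, ?_⟩
    have h4 := congrArg Subtype.val hph
    change p.1.1 * h.1.1 = g at h4
    rw [← h4]
    congr 1
    exact hi.symm
  · intro g hg
    have h3 : (g⁻¹ * x * g) ^ ℓ = 1 := by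
      have h4 := conj_pow (i := ℓ) (a := g⁻¹) (b := x)
      rw [inv_inv] at h4
      rw [h4, ← hx, pow_orderOf_eq_one, mul_one, inv_mul_cancel]
    have h4 := d6_mem hx h2 hg h3
    have h5 : g⁻¹ ∈ NN x := by
      refine Subgroup.mem_normalizer_fintype ?_
      rintro _ ⟨i, rfl⟩
      obtain ⟨k, hk⟩ := h4
      refine ⟨k * i, ?_⟩
      change x ^ (k * i) = g⁻¹ * x ^ i * g⁻¹⁻¹
      change x ^ k = g⁻¹ * x * g at hk
      rw [zpow_mul, hk]
      have h6 := conj_zpow (i := i) (a := g⁻¹) (b := x)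
      rw [inv_inv] at h6
      rw [inv_inv]
      exact h6
    exact inv_mem_iff.1 h5

theorem nq_iso {ℓ : ℕ} [Fact ℓ.Prime] {G : Type} [Group G] [Finite G] {x : G} {E : Subgroup G}
    (hd : Dat ℓ x E) : Nonempty (NQ (Subgroup.zpowers x) ≃* E) := by
  have hℓ : ℓ.Prime := Fact.out
  have hnor : ((Subgroup.zpowers x).subgroupOf (NN x)).Normal := Subgroup.normal_in_normalizer
  let f : E →* NQ (Subgroup.zpowers x) :=
    (QuotientGroup.mk' ((Subgroup.zpowers x).subgroupOf (NN x))).comp (Subgroup.inclusion hd.nE)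
  have hinj : Function.Injective f := by
    rw [injective_iff_map_eq_one]
    intro e he
    have h1 : (Subgroup.inclusion hd.nE e) ∈ (Subgroup.zpowers x).subgroupOf (NN x) :=
      (QuotientGroup.eq_one_iff _).1 he
    have h2 : (e : G) ∈ Subgroup.zpowers x := Subgroup.mem_subgroupOf.1 h1
    obtain ⟨k, hk⟩ := h2
    change x ^ k = (e : G) at hk
    have h3 : e ^ ℓ = 1 := by
      apply Subtype.ext
      change (e : G) ^ ℓ = 1
      rw [← hk, ← zpow_natCast, ← zpow_mul, mul_comm, zpow_mul, zpow_natCast, ← hd.ox,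
        pow_orderOf_eq_one, one_zpow]
    have h4 : e ^ Nat.card E = 1 := pow_card_eq_one'
    have h5 : Nat.Coprime ℓ (Nat.card E) := (Nat.Prime.coprime_iff_not_dvd hℓ).2 hd.cE
    have h6 : orderOf e ∣ 1 := by
      rw [← h5]
      exact Nat.dvd_gcd (orderOf_dvd_of_pow_eq_one h3) (orderOf_dvd_of_pow_eq_one h4)
    exact orderOf_eq_one_iff.1 (Nat.dvd_one.1 h6)
  have hsurj : Function.Surjective f := by
    intro q
    obtain ⟨⟨n, hn⟩, rfl⟩ := QuotientGroup.mk_surjective q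
    obtain ⟨i, e, he, hne⟩ := hd.nN n hn
    refine ⟨⟨e, he⟩, ?_⟩
    have hx : x ∈ NN x := d6_P_le G x (Subgroup.mem_zpowers x)
    have h1 : (⟨n, hn⟩ : NN x) = (⟨x, hx⟩ : NN x) ^ i * ⟨e, hd.nE he⟩ := Subtype.ext hne
    have h2 : (QuotientGroup.mk (⟨x, hx⟩ : NN x) :
        NN x ⧸ (Subgroup.zpowers x).subgroupOf (NN x)) = 1 :=
      (QuotientGroup.eq_one_iff _).2 (Subgroup.mem_subgroupOf.2 (Subgroup.mem_zpowers x))
    change (QuotientGroup.mk (⟨e, hd.nE he⟩ : NN x) :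
        NN x ⧸ (Subgroup.zpowers x).subgroupOf (NN x)) = QuotientGroup.mk (⟨n, hn⟩ : NN x)
    rw [h1, QuotientGroup.mk_mul, QuotientGroup.mk_pow, h2, one_pow, one_mul]
  exact ⟨(MulEquiv.ofBijective f ⟨hinj, hsurj⟩).symm⟩

theorem pgroup_or {ℓ : ℕ} [Fact ℓ.Prime] {G : Type} [Group G] [Finite G] {x : G} {E : Subgroup G}
    (hd : Dat ℓ x E) (Q : Subgroup G) (hQ : IsPGroup ℓ Q) :
    Q = ⊥ ∨ ∃ g : G, cj g (Subgroup.zpowers x) = Q := by
  have hℓ : ℓ.Prime := Fact.out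
  obtain ⟨n, hn⟩ := IsPGroup.iff_card.1 hQ
  have h1 : Nat.card Q ∣ Nat.card G := Subgroup.card_subgroup_dvd_card Q
  have hn2 : n < 2 := by
    by_contra h
    apply hd.ix
    rw [hn] at h1
    exact (pow_dvd_pow ℓ (by omega)).trans h1
  have hcard : Nat.card G ≠ 0 := Nat.card_pos.ne'
  have hP := d6_card_P hd.ox
  have hPd : ℓ ∣ Nat.card G := by
    rw [← hP]
    exact Subgroup.card_subgroup_dvd_card _
  have hfac : (Nat.card G).factorization ℓ = 1 := by
    apply le_antisymm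
    · by_contra h
      apply hd.ix
      exact (hℓ.pow_dvd_iff_le_factorization hcard).2 (by omega)
    · exact (hℓ.dvd_iff_one_le_factorization hcard).1 hPd
  interval_cases n
  · left
    rw [pow_zero] at hn
    exact Subgroup.card_eq_one.1 hn
  · right
    let S1 : Sylow ℓ G := Sylow.ofCard (Subgroup.zpowers x) (by rw [hfac, pow_one, hP])
    let S2 : Sylow ℓ G := Sylow.ofCard Q (by rw [hfac, hn])
    obtain ⟨g, hg⟩ := MulAction.exists_smul_eq G S1 S2
    refine ⟨g, ?_⟩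
    have h2 : ((g • S1 : Sylow ℓ G) : Subgroup G) = S2 := by rw [hg]
    exact h2

end Pool.OL95
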