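import Pool.Agent.LibOL95.D6
import Pool.Agent.LibFS95.K6

/-!
Row D7. The number of weights.

Plan. The classes of `ℓ`-subgroups are those of `⊥` and of `⟨x⟩` (`pgroup_or`), different. `Q ↦ zproj k (NQ Q)` is constant on classes (`k4_NQ_cj` or `K6_zproj_cj`), so with `clsum_eq_lift` the finsum has two terms
(`Quotient (lsubSetoid ℓ G)` is in bijection with `Bool` ...). `zproj k (NQ ⊥) = zproj k G`: `zproj_NQ_bot`. `zproj k (NQ ⟨x⟩) = zproj k E`: `nq_iso`, `zproj_iso`.
-/

set_option autoImplicit false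
noncomputable section
namespace Pool.OL95
open Pool.FS95

theorem d7_bool (f : Bool → ℤ) :
    clsum (⟨Eq, eq_equivalence⟩ : Setoid Bool) f = f true + f false := by
  rw [clsum_eq_lift _ f (fun x x' (h : x = x') => by rw [h])]
  have hb : Function.Bijective
      (fun b : Bool => (Quotient.mk (⟨Eq, eq_equivalence⟩ : Setoid Bool) b)) := by
    constructor
    · intro a b h
      exact Quotient.exact h
    · intro q
      induction q using Quotient.inductionOn with
      | h b => exact ⟨b, rfl⟩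
  rw [← finsum_eq_of_bijective (f := f) _ hb (fun b => rfl), finsum_eq_sum_of_fintype,
    Fintype.sum_bool]

theorem d7_isP {ℓ : ℕ} [Fact ℓ.Prime] {G : Type} [Group G] [Finite G] {x : G} (hx : orderOf x = ℓ) :
    IsPGroup ℓ (Subgroup.zpowers x) := by
  refine IsPGroup.of_card (n := 1) ?_
  rw [Nat.card_zpowers, hx, pow_one]

theorem d7_ne {ℓ : ℕ} [Fact ℓ.Prime] {G : Type} [Group G] {x : G} (hx : orderOf x = ℓ) :
    Subgroup.zpowers x ≠ ⊥ := by
  intro h
  rw [Subgroup.zpowers_eq_bot] at h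
  rw [h, orderOf_one] at hx
  exact (Fact.out : ℓ.Prime).one_lt.ne hx

theorem weights_eq {ℓ : ℕ} [Fact ℓ.Prime] (k : Type) [Field k] {G : Type} [Group G] [Finite G]
    {x : G} {E : Subgroup G} (hd : Dat ℓ x E) :
    clsum (lsubSetoid ℓ G) (fun Q => zproj k (NQ Q.1)) = zproj k G + zproj k E := by
  have hne := d7_ne hd.ox
  let Φ : Bool → {Q : Subgroup G // IsPGroup ℓ Q} := fun b =>
    if b then ⟨⊥, IsPGroup.of_bot⟩ else ⟨Subgroup.zpowers x, d7_isP hd.ox⟩
  have h1 : zproj k (NQ (Φ true).1) = zproj k G := zproj_NQ_bot k G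
  have h2 : zproj k (NQ (Φ false).1) = zproj k E := zproj_iso k _ _ (nq_iso hd)
  have hk := clsum_transfer (⟨Eq, eq_equivalence⟩ : Setoid Bool) (lsubSetoid ℓ G)
    (fun b => zproj k (NQ (Φ b).1)) (fun Q => zproj k (NQ Q.1)) ?_ ?_ Φ ?_ ?_ (fun _ => rfl)
  · rw [← hk, d7_bool, h1, h2]
  · intro a b (h : a = b)
    rw [h]
  · rintro Q R ⟨g, hg⟩
    show zproj k (NQ Q.1) = zproj k (NQ R.1)
    rw [← hg, K6_zproj_cj]
  · intro a b
    constructor
    · intro (h : a = b)
      subst h
      exact (lsubSetoid ℓ G).refl _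
    · rintro ⟨g, hg⟩
      show a = b
      cases a <;> cases b
      · rfl
      · exfalso
        change cj g (Subgroup.zpowers x) = ⊥ at hg
        apply hne
        have := congrArg (cj g⁻¹) hg
        rwa [← cj_mul, inv_mul_cancel, cj_one, cj_bot] at this
      · exfalso
        change cj g ⊥ = Subgroup.zpowers x at hg
        rw [cj_bot] at hg
        exact hne hg.symm
      · rfl
  · intro Q _
    rcases pgroup_or hd Q.1 Q.2 with h | ⟨g, hg⟩
    · refine ⟨true, 1, ?_⟩
      rw [cj_one]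
      exact h.symm
    · exact ⟨false, g, hg⟩

end Pool.OL95
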