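import Pool.Agent.LibOL95.G1

/-!
Row G3. If a non-zero map `S → M`, `S` simple, factors through a projective representation, then `M` has a non-zero projective subrepresentation.

Plan. Strong induction on `finrank k F`. If `ker v = ⊥`: `U = range v`, `F ≅ U` (`LinearEquiv.ofInjective`), `hig_isom`. Otherwise let `X = ker v ≠ ⊥`, `T = range u`: both stable; `v ∘ u ≠ 0` is injective (its kernel is stable, `S` simple), so
`X ⊓ T = ⊥`. Let `α : F → F` be `k`-linear with `α = 0` on `X`, `α = id` on `T` (e.g. from a complement of `X` containing `T`); it is equivariant on `X ⊔ T` (stable); `hig_extend` gives an equivariant `β` with `β = 0` on `X`, `β = id` on `T`.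
Fitting: for `n = finrank` (`LinearMap.eventually_isCompl_ker_pow_range_pow` or `LinearMap.isCompl_iSup_ker_pow_iInf_range_pow`), `n ≥ 1`: `IsCompl (ker β^n) (range β^n)`, both stable. `F' = range β^n` has smaller dimension (`X ≤ ker β^n`), is `Hig` (`hig_summand`), contains `T`;
apply the induction hypothesis to `F'`, `u' = u.codRestrict`, `v' = v ∘ subtype`.
-/

set_option autoImplicit false
noncomputable section
namespace Pool.OL95

theorem g3_pow {k : Type} [Field k] {G : Type} [Group G] {F : Type} [AddCommGroup F] [Module k F]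
    (ρF : Representation k G F) (β : F →ₗ[k] F) (h : Eqv ρF ρF β) (m : ℕ) (g : G) (w : F) :
    (β ^ m) (ρF g w) = ρF g ((β ^ m) w) := by
  induction m generalizing w with
  | zero => rfl
  | succ m ih =>
    rw [pow_succ, Module.End.mul_apply, Module.End.mul_apply, h, ih]

theorem g3_fix {k : Type} [Field k] {F : Type} [AddCommGroup F] [Module k F]
    (β : F →ₗ[k] F) (w : F) (h : β w = w) (m : ℕ) : (β ^ m) w = w := by
  induction m with
  | zero => rfl
  | succ m ih => rw [pow_succ, Module.End.mul_apply, h, ih]

theorem exists_hig_sub {k : Type} [Field k] {G : Type} [Group G] [Finite G] {S M : Type}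
    [AddCommGroup S] [Module k S] [AddCommGroup M] [Module k M]
    (ρS : Representation k G S) (hS : Smp ρS) (ρM : Representation k G M) (n : ℕ) :
    ∀ (F : Type) (_ : AddCommGroup F) (_ : Module k F) (_ : FiniteDimensional k F)
      (ρF : Representation k G F) (u : S →ₗ[k] F) (v : F →ₗ[k] M), Module.finrank k F ≤ n →
      Hig ρF → Eqv ρS ρF u → Eqv ρF ρM v → (∃ s, v (u s) ≠ 0) →
      ∃ (U : Submodule k M) (hU : Stb ρM U), U ≠ ⊥ ∧ Hig (subRep ρM U hU) := by
  induction n with
  | zero =>
    intro F _ _ _ ρF u v hn _ _ _ ⟨s, hs⟩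
    have h1 : Module.finrank k F = 0 := Nat.le_zero.1 hn
    have h2 : Subsingleton F := Module.finrank_zero_iff.1 h1
    exact absurd (by rw [Subsingleton.elim (u s) 0, map_zero]) hs
  | succ n ih =>
    intro F _ _ _ ρF u v hn hH hu hv ⟨s, hs⟩
    by_cases hk : LinearMap.ker v = ⊥
    · have hinj : Function.Injective v := LinearMap.ker_eq_bot.1 hk
      have hU : Stb ρM (LinearMap.range v) := by
        rintro g _ ⟨w, rfl⟩
        exact ⟨ρF g w, hv g w⟩
      refine ⟨LinearMap.range v, hU, ?_, ?_⟩
      · intro h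
        have h1 : v (u s) ∈ LinearMap.range v := ⟨u s, rfl⟩
        rw [h] at h1
        exact hs ((Submodule.mem_bot k).1 h1)
      · refine hig_isom ρF _ hH ⟨LinearEquiv.ofInjective v hinj, fun g w => ?_⟩
        exact Subtype.ext (hv g w)
    · have hX : Stb ρF (LinearMap.ker v) := by
        intro g w hw
        rw [LinearMap.mem_ker] at hw ⊢
        rw [hv, hw, map_zero]
      have hT : Stb ρF (LinearMap.range u) := by
        rintro g _ ⟨w, rfl⟩
        exact ⟨ρS g w, hu g w⟩
      -- `v ∘ u` is injective
      have hvu : LinearMap.ker (v ∘ₗ u) = ⊥ := by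
        have h1 : Stb ρS (LinearMap.ker (v ∘ₗ u)) := by
          intro g w hw
          rw [LinearMap.mem_ker, LinearMap.comp_apply] at hw ⊢
          rw [hu, hv, hw, map_zero]
        rcases hS.2 _ h1 with h | h
        · exact h
        · have h2 : s ∈ LinearMap.ker (v ∘ₗ u) := by
            rw [h]
            exact Submodule.mem_top
          exact absurd h2 hs
      obtain ⟨w, hw⟩ := LinearMap.exists_leftInverse_of_injective (v ∘ₗ u) hvu
      have hw' : ∀ s, w (v (u s)) = s := fun s => LinearMap.congr_fun hw s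
      have hXT : Stb ρF (LinearMap.ker v ⊔ LinearMap.range u) := by
        intro g y hy
        obtain ⟨a, ha, b, hb, rfl⟩ := Submodule.mem_sup.1 hy
        rw [map_add]
        exact Submodule.add_mem_sup (hX g a ha) (hT g b hb)
      have hα : ∀ g, ∀ y ∈ LinearMap.ker v ⊔ LinearMap.range u,
          (u ∘ₗ w ∘ₗ v) (ρF g y) = ρF g ((u ∘ₗ w ∘ₗ v) y) := by
        intro g y hy
        obtain ⟨a, ha, b, ⟨t, rfl⟩, rfl⟩ := Submodule.mem_sup.1 hy
        have ha' : v a = 0 := ha
        simp only [LinearMap.comp_apply, map_add]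
        rw [hv, hv, ha', map_zero, map_zero, map_zero, ← hv, ← hu, hw', hw', ← hu, map_zero]
      obtain ⟨β, hβ, hβ'⟩ := hig_extend ρF ρF hH _ hXT (u ∘ₗ w ∘ₗ v) hα
      have hβX : ∀ a ∈ LinearMap.ker v, β a = 0 := by
        intro a ha
        have ha' : v a = 0 := ha
        rw [hβ' a (Submodule.mem_sup_left ha), LinearMap.comp_apply, LinearMap.comp_apply, ha',
          map_zero, map_zero]
      have hβT : ∀ t, β (u t) = u t := by
        intro t
        rw [hβ' (u t) (Submodule.mem_sup_right ⟨t, rfl⟩), LinearMap.comp_apply,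
          LinearMap.comp_apply, hw']
      obtain ⟨m0, hm0⟩ := Filter.eventually_atTop.1 (LinearMap.eventually_isCompl_ker_pow_range_pow β)
      have hc := hm0 (m0 + 1) (Nat.le_succ m0)
      have hK : Stb ρF (LinearMap.ker (β ^ (m0 + 1))) := by
        intro g y hy
        rw [LinearMap.mem_ker] at hy ⊢
        rw [g3_pow ρF β hβ, hy, map_zero]
      have hR : Stb ρF (LinearMap.range (β ^ (m0 + 1))) := by
        rintro g _ ⟨y, rfl⟩
        exact ⟨ρF g y, g3_pow ρF β hβ _ g y⟩
      have hRtop : LinearMap.range (β ^ (m0 + 1)) ≠ ⊤ := by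
        intro h
        apply hk
        rw [eq_bot_iff]
        intro a ha
        have h1 : a ∈ LinearMap.ker (β ^ (m0 + 1)) := by
          rw [LinearMap.mem_ker, pow_succ, Module.End.mul_apply, hβX a ha, map_zero]
        have h2 : a ∈ LinearMap.ker (β ^ (m0 + 1)) ⊓ LinearMap.range (β ^ (m0 + 1)) :=
          ⟨h1, by rw [h]; exact Submodule.mem_top⟩
        rw [hc.inf_eq_bot] at h2
        exact h2
      have hdim := Submodule.finrank_lt hRtop
      have huR : ∀ t, u t ∈ LinearMap.range (β ^ (m0 + 1)) := fun t =>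
        ⟨u t, g3_fix β (u t) (hβT t) _⟩
      refine ih (LinearMap.range (β ^ (m0 + 1))) inferInstance inferInstance inferInstance
        (subRep ρF _ hR) (u.codRestrict _ huR) (v ∘ₗ Submodule.subtype _) (by omega)
        (hig_summand ρF hH _ _ hR hK hc.symm) ?_ ?_ ⟨s, hs⟩
      · intro g t
        exact Subtype.ext (hu g t)
      · intro g y
        exact hv g y

end Pool.OL95
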