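import Pool.Agent.LibOL95.G2
import Pool.Agent.LibOL95.G3
import Pool.Agent.LibOL95.C1
import Pool.Agent.LibOL95.A3

/-!
Row G7. The main existence argument.

Plan. Prove by strong induction on `n`: for all stable `M', M''` with `IsCompl M' M''`, `finrank M' ≤ n`, and some `v ∈ M'`, `v ∈ KD ρ x (ℓ-1)`, `ev v ≠ 0`: the conclusion. (Apply it to `M' = ⊤`, `M'' = ⊥`.) `M' ≠ ⊥`; let `S ≤ M'` be simple
(`exists_simple_sub`). If some `v ∈ S ⊓ KD` has `ev v ≠ 0` we are done. Otherwise `hT` gives `β : S → M` with `s = ∑_g g β (g⁻¹ s)`; compose with the projection `pr : M → M'` along `M''` (equivariant): the inclusion `ι' : S → M'` is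
`∑_g g (pr β) g⁻¹`. `factor_free` (for `subRep ρ S`, `subRep ρ M'`) and `exists_hig_sub` (`ι' ≠ 0`, `S` simple) give a stable `U ≤ M'`, `U ≠ ⊥`, with `Hig (subRep ρ U)` (translate submodules of `M'` to submodules of `M` with `Submodule.map M'.subtype`, `hig_isom`).
`hig_extend` with `ρ' = subRep ρ U`, `X = U`, gives an equivariant `q : M → U`, `q = id` on `U`. `M₂ = M' ⊓ ker q` is stable, `M' = U ⊕ M₂`, so `IsCompl M₂ (U ⊔ M'')`, and `finrank M₂ < finrank M'`. For the given `v`: `v = u + m`, `u = q v ∈ U`,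
`m ∈ M₂`; `D^{ℓ-1} u = q (D^{ℓ-1} v) = 0`, so `u ∈ RD (subRep ρ U) x` (`hig_iff`), `ev u = 0`, and `m ∈ KD`, `ev m = ev v ≠ 0`. Induction.
-/

set_option autoImplicit false
noncomputable section
namespace Pool.OL95

private theorem g7_pow {k : Type} [Field k] {G : Type} [Group G] {V V' : Type} [AddCommGroup V]
    [Module k V] [AddCommGroup V'] [Module k V'] {ρ : Representation k G V}
    {ρ' : Representation k G V'} {q : V →ₗ[k] V'} (hq : Eqv ρ ρ' q) (x : G) (n : ℕ) (v : V) :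
    q (((DD ρ x) ^ n) v) = ((DD ρ' x) ^ n) (q v) := by
  induction n generalizing v with
  | zero => rfl
  | succ n ih =>
    rw [pow_succ, pow_succ, Module.End.mul_apply, Module.End.mul_apply, ih]
    congr 1
    rw [DD_apply, DD_apply, map_sub, hq]

private theorem g7_pr {k : Type} [Field k] {G : Type} [Group G] {M : Type} [AddCommGroup M]
    [Module k M] {ρ : Representation k G M} {U U' : Submodule k M} (hU : Stb ρ U)
    (hU' : Stb ρ U') (hc : IsCompl U U') :
    Eqv ρ (subRep ρ U hU) (U.projectionOnto U' hc) := by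
  intro g v
  obtain ⟨a, ha, b, hb, rfl⟩ := Submodule.mem_sup.1
    (show v ∈ U ⊔ U' by rw [hc.sup_eq_top]; trivial)
  rw [map_add, map_add, map_add, Submodule.projectionOnto_apply_of_mem_left hc (hU g a ha),
    Submodule.projectionOnto_apply_of_mem_right hc (hU' g b hb),
    Submodule.projectionOnto_apply_of_mem_left hc ha,
    Submodule.projectionOnto_apply_of_mem_right hc hb, add_zero, add_zero]
  rfl

private theorem g7_sup {k : Type} [Field k] {G : Type} [Group G] {M : Type} [AddCommGroup M]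
    [Module k M] {ρ : Representation k G M} {U U' : Submodule k M} (hU : Stb ρ U)
    (hU' : Stb ρ U') : Stb ρ (U ⊔ U') := by
  intro g v hv
  obtain ⟨a, ha, b, hb, rfl⟩ := Submodule.mem_sup.1 hv
  rw [map_add]
  exact add_mem (Submodule.mem_sup_left (hU g a ha)) (Submodule.mem_sup_right (hU' g b hb))

/-- A non-zero projective subrepresentation of a summand. -/
private theorem g7_hig {k : Type} [Field k] {G : Type} [Group G] [Finite G] {M : Type}
    [AddCommGroup M] [Module k M] [FiniteDimensional k M] (ρ : Representation k G M)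
    {M' M'' : Submodule k M} (hM' : Stb ρ M') (hM'' : Stb ρ M'') (hc : IsCompl M' M'')
    {S : Submodule k M} (hS : Stb ρ S) (hSM : S ≤ M') (hSs : Smp (subRep ρ S hS))
    {β : S →ₗ[k] M} (hβ : ∀ s : S, (s : M) = ∑ᶠ g : G, ρ g (β (subRep ρ S hS g⁻¹ s))) :
    ∃ (U : Submodule k M) (hU : Stb ρ U), U ≤ M' ∧ U ≠ ⊥ ∧ Hig (subRep ρ U hU) := by
  obtain ⟨F, i1, i2, i3, ρF, u, v, hF, hu, hv, huv⟩ := factor_free (subRep ρ S hS)
    (subRep ρ M' hM') ((M'.projectionOnto M'' hc).comp β)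
  have hpr := g7_pr hM' hM'' hc
  have h1 : ∀ s : S, v (u s) = ⟨(s : M), hSM s.2⟩ := by
    intro s
    rw [huv s]
    have h2 : ∑ᶠ g : G, subRep ρ M' hM' g
        (((M'.projectionOnto M'' hc).comp β) (subRep ρ S hS g⁻¹ s)) =
        (M'.projectionOnto M'' hc) (∑ᶠ g : G, ρ g (β (subRep ρ S hS g⁻¹ s))) := by
      have h3 : ∀ g : G, subRep ρ M' hM' g
          (((M'.projectionOnto M'' hc).comp β) (subRep ρ S hS g⁻¹ s)) =
          (M'.projectionOnto M'' hc) (ρ g (β (subRep ρ S hS g⁻¹ s))) := fun g =>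
        (hpr g _).symm
      rw [finsum_congr h3]
      exact ((M'.projectionOnto M'' hc).toAddMonoidHom.map_finsum (Set.toFinite _)).symm
    rw [h2, ← hβ s, Submodule.projectionOnto_apply_of_mem_left hc (hSM s.2)]
  have h2 : ∃ s, v (u s) ≠ 0 := by
    obtain ⟨s, hs⟩ := @exists_ne _ hSs.1 (0 : S)
    refine ⟨s, fun h => hs ?_⟩
    rw [h1] at h
    have h3 : (s : M) = 0 := congrArg Subtype.val h
    exact Subtype.ext h3
  obtain ⟨U0, hU0, hne, hH⟩ := exists_hig_sub (subRep ρ S hS) hSs (subRep ρ M' hM')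
    (Module.finrank k F) F i1 i2 i3 ρF u v le_rfl hF hu hv h2
  have hU : Stb ρ (U0.map M'.subtype) := by
    rintro g _ ⟨a, ha, rfl⟩
    exact ⟨subRep ρ M' hM' g a, hU0 g a ha, rfl⟩
  refine ⟨U0.map M'.subtype, hU, ?_, ?_, ?_⟩
  · rintro _ ⟨a, _, rfl⟩
    exact a.2
  · intro h
    apply hne
    refine (Submodule.eq_bot_iff _).2 fun a ha => ?_
    have h3 : M'.subtype a ∈ U0.map M'.subtype := Submodule.mem_map_of_mem ha
    rw [h, Submodule.mem_bot] at h3
    exact Subtype.ext h3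
  · refine hig_isom (subRep (subRep ρ M' hM') U0 hU0) _ hH
      ⟨Submodule.equivMapOfInjective M'.subtype M'.subtype_injective U0, fun g w => ?_⟩
    exact Subtype.ext rfl

theorem exists_simple_good {ℓ : ℕ} [Fact ℓ.Prime] {k : Type} [Field k] [CharP k ℓ] {G : Type}
    [Group G] [Finite G] {M W : Type} [AddCommGroup M] [Module k M] [FiniteDimensional k M]
    [AddCommGroup W] [Module k W] (x : G) (hx : orderOf x = ℓ) (hG : ¬ ℓ ^ 2 ∣ Nat.card G)
    (ρ : Representation k G M) (ev : M →ₗ[k] W) (hev : ∀ v, ev (DD ρ x v) = 0)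
    (hv : ∃ v ∈ KD ρ x (ℓ - 1), ev v ≠ 0)
    (hT : ∀ (S : Submodule k M) (hS : Stb ρ S), Smp (subRep ρ S hS) →
      (∀ v ∈ S, v ∈ KD ρ x (ℓ - 1) → ev v = 0) →
      ∃ β : S →ₗ[k] M, ∀ s : S, (s : M) = ∑ᶠ g : G, ρ g (β (subRep ρ S hS g⁻¹ s))) :
    ∃ (S : Submodule k M) (hS : Stb ρ S), Smp (subRep ρ S hS) ∧
      ∃ v ∈ S, v ∈ KD ρ x (ℓ - 1) ∧ ev v ≠ 0 := by
  suffices H : ∀ (n : ℕ) (M' M'' : Submodule k M), Stb ρ M' → Stb ρ M'' → IsCompl M' M'' →
      Module.finrank k M' ≤ n → (∃ v ∈ M', v ∈ KD ρ x (ℓ - 1) ∧ ev v ≠ 0) →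
      ∃ (S : Submodule k M) (hS : Stb ρ S), Smp (subRep ρ S hS) ∧
        ∃ v ∈ S, v ∈ KD ρ x (ℓ - 1) ∧ ev v ≠ 0 by
    obtain ⟨v, hv1, hv2⟩ := hv
    refine H _ ⊤ ⊥ (fun _ _ _ => trivial) (fun g v hv => ?_) isCompl_top_bot le_rfl
      ⟨v, trivial, hv1, hv2⟩
    rw [Submodule.mem_bot] at hv ⊢
    rw [hv, map_zero]
  intro n
  induction n with
  | zero =>
    intro M' M'' _ _ _ hn hv'
    obtain ⟨v, hv1, -, hv3⟩ := hv'
    exfalso
    apply hv3
    have h1 : M' = ⊥ := Submodule.finrank_eq_zero.1 (Nat.le_zero.1 hn)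
    rw [h1, Submodule.mem_bot] at hv1
    rw [hv1, map_zero]
  | succ n ih =>
    intro M' M'' hM' hM'' hc hn hv'
    obtain ⟨v, hv1, hv2, hv3⟩ := hv'
    have hne : M' ≠ ⊥ := by
      intro h
      rw [h, Submodule.mem_bot] at hv1
      exact hv3 (by rw [hv1, map_zero])
    obtain ⟨S, hS, hSM, hSs⟩ := exists_simple_sub ρ M' hM' hne
    by_cases hg : ∃ v ∈ S, v ∈ KD ρ x (ℓ - 1) ∧ ev v ≠ 0
    · exact ⟨S, hS, hSs, hg⟩
    push Not at hg
    obtain ⟨β, hβ⟩ := hT S hS hSs hg
    obtain ⟨U, hU, hUM, hUne, hUH⟩ := g7_hig ρ hM' hM'' hc hS hSM hSs hβ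
    obtain ⟨α, hα⟩ := LinearMap.exists_leftInverse_of_injective U.subtype
      (Submodule.ker_subtype U)
    have hα' : ∀ u : U, α (u : M) = u := fun u => LinearMap.congr_fun hα u
    obtain ⟨q, hq, hqU⟩ := hig_extend ρ (subRep ρ U hU) hUH U hU α (fun g w hw => by
      have h1 := hα' ⟨w, hw⟩
      have h2 := hα' ⟨ρ g w, hU g w hw⟩
      change α w = ⟨w, hw⟩ at h1
      change α (ρ g w) = ⟨ρ g w, hU g w hw⟩ at h2
      rw [h1, h2]
      rfl)
    have hqu : ∀ u : U, q (u : M) = u := fun u => (hqU u u.2).trans (hα' u)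
    set M2 : Submodule k M := M' ⊓ LinearMap.ker q with hM2
    have hM2s : Stb ρ M2 := by
      rintro g w ⟨hw1, hw2⟩
      refine ⟨hM' g w hw1, ?_⟩
      change q (ρ g w) = 0
      rw [hq, show q w = 0 from hw2, map_zero]
    have hmem : ∀ a ∈ M', a - (q a : M) ∈ M2 := by
      intro a ha
      refine ⟨sub_mem ha (hUM (q a).2), ?_⟩
      change q (a - (q a : M)) = 0
      rw [map_sub, hqu, sub_self]
    have hc2 : IsCompl M2 (U ⊔ M'') := by
      constructor
      · rw [Submodule.disjoint_def]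
        rintro w ⟨hw1, hw2⟩ hw3
        obtain ⟨u, hu, b, hb, rfl⟩ := Submodule.mem_sup.1 hw3
        have h1 : b ∈ M' := by
          have h2 := sub_mem hw1 (hUM hu)
          rwa [add_sub_cancel_left] at h2
        have h2 : b = 0 := by
          have h3 := (Submodule.disjoint_def.1 hc.disjoint) b h1 hb
          exact h3
        have h3 : q (u + b) = 0 := hw2
        rw [h2, add_zero] at h3 ⊢
        have h4 := hqu ⟨u, hu⟩
        change q u = ⟨u, hu⟩ at h4
        rw [h3] at h4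
        exact (congrArg Subtype.val h4).symm
      · rw [codisjoint_iff, eq_top_iff]
        intro w _
        obtain ⟨a, ha, b, hb, rfl⟩ := Submodule.mem_sup.1
          (show w ∈ M' ⊔ M'' by rw [hc.sup_eq_top]; trivial)
        have h1 : a + b = (a - (q a : M)) + ((q a : M) + b) := by abel
        rw [h1]
        exact add_mem (Submodule.mem_sup_left (hmem a ha)) (Submodule.mem_sup_right
          (add_mem (Submodule.mem_sup_left (q a).2) (Submodule.mem_sup_right hb)))
    have hlt : M2 < M' := by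
      refine lt_of_le_of_ne inf_le_left fun h => ?_
      obtain ⟨u, hu, hu0⟩ := Submodule.exists_mem_ne_zero_of_ne_bot hUne
      have h1 : u ∈ M2 := by
        rw [h]
        exact hUM hu
      have h2 : q u = 0 := h1.2
      have h4 := hqu ⟨u, hu⟩
      change q u = ⟨u, hu⟩ at h4
      rw [h2] at h4
      exact hu0 (congrArg Subtype.val h4).symm
    have hfin : Module.finrank k M2 ≤ n := by
      have := Submodule.finrank_lt_finrank_of_lt hlt
      omega
    refine ih M2 (U ⊔ M'') hM2s (g7_sup hU hM'') hc2 hfin ⟨v - (q v : M), hmem v hv1, ?_, ?_⟩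
    · have hv2' : ((DD ρ x) ^ (ℓ - 1)) v = 0 := hv2
      change ((DD ρ x) ^ (ℓ - 1)) (v - (q v : M)) = 0
      have h1 : ((DD ρ x) ^ (ℓ - 1)) ((q v : U) : M) = 0 := by
        have h2 := g7_pow (q := U.subtype) (ρ := subRep ρ U hU) (ρ' := ρ) (fun g w => rfl) x
          (ℓ - 1) (q v)
        have h3 := g7_pow hq x (ℓ - 1) v
        rw [hv2', map_zero] at h3
        rw [← h3, map_zero] at h2
        exact h2.symm
      rw [map_sub, hv2', h1, sub_zero]
    · have hv2' : ((DD ρ x) ^ (ℓ - 1)) v = 0 := hv2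
      have h1 : q v ∈ KD (subRep ρ U hU) x (ℓ - 1) := by
        have h3 := g7_pow hq x (ℓ - 1) v
        rw [hv2', map_zero] at h3
        exact h3.symm
      obtain ⟨w, hw⟩ := (hig_iff (subRep ρ U hU) x hx hG).1 hUH h1
      have h2 : ev ((q v : U) : M) = 0 := by
        rw [← hw]
        exact hev (w : M)
      rw [map_sub, h2, sub_zero]
      exact hv3

end Pool.OL95
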