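import Pool.Agent.LibOL95.Defs

/-! `D` on subrepresentations. -/

set_option autoImplicit false
noncomputable section
namespace Pool.OL95

theorem subRep_DD_pow {k : Type} [Field k] {G : Type} [Group G] {V : Type} [AddCommGroup V]
    [Module k V] (ρ : Representation k G V) (U : Submodule k V) (hU : Stb ρ U) (x : G) (i : ℕ)
    (s : U) : (((DD (subRep ρ U hU) x) ^ i) s).1 = ((DD ρ x) ^ i) s.1 := by
  induction i generalizing s with
  | zero => rfl
  | succ i ih =>
    rw [pow_succ, pow_succ, Module.End.mul_apply, Module.End.mul_apply, ih]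
    rfl

theorem mem_KD_subRep {k : Type} [Field k] {G : Type} [Group G] {V : Type} [AddCommGroup V]
    [Module k V] (ρ : Representation k G V) (U : Submodule k V) (hU : Stb ρ U) (x : G) (i : ℕ)
    (s : U) : s ∈ KD (subRep ρ U hU) x i ↔ s.1 ∈ KD ρ x i := by
  rw [KD, KD, LinearMap.mem_ker, LinearMap.mem_ker, ← subRep_DD_pow ρ U hU, Subtype.ext_iff]
  rfl

end Pool.OL95
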