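import Pool.Agent.LibOL95.G6
import Pool.Agent.LibOL95.G7
import Pool.Agent.LibOL95.Sb

/-! Every simple representation of `E` is related to a simple representation of `G`. -/

set_option autoImplicit false
noncomputable section
namespace Pool.OL95

theorem exists_rel {ℓ : ℕ} [Fact ℓ.Prime] {k : Type} [Field k] [CharP k ℓ] {G : Type} [Group G]
    [Finite G] {W : Type} [AddCommGroup W] [Module k W] [FiniteDimensional k W] {x : G}
    {E : Subgroup G} (hd : Dat ℓ x E) (τ : Representation k E W) (hτ : Smp τ) :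
    ∃ (S : Type) (_ : AddCommGroup S) (_ : Module k S) (_ : FiniteDimensional k S)
      (ρ : Representation k G S), Smp ρ ∧ Rel ℓ x E ρ τ := by
  have hW := hτ.1
  obtain ⟨w, hw⟩ := exists_ne (0 : W)
  obtain ⟨J, hJ1, -, -, hJ4⟩ := exists_coi_J hd τ
  have hℓ2 : 2 ≤ ℓ := (Fact.out : ℓ.Prime).two_le
  have hev1 : coiEv x E τ (J w) = w := by
    change (J w).1 1 = w
    have h1 := hJ1 w 0 1
    simpa using h1
  have hKJ : J w ∈ KD (coi x E τ) x (ℓ - 1) := by
    rw [KD, LinearMap.mem_ker]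
    obtain ⟨m, hm⟩ : ∃ m, ℓ - 1 = m + 1 := ⟨ℓ - 2, by omega⟩
    rw [hm, pow_succ, Module.End.mul_apply, hJ4 w, map_zero]
  obtain ⟨S, hS, hSs, v, hvS, hvK, hv0⟩ := exists_simple_good x hd.ox hd.ix (coi x E τ)
    (coiEv x E τ) (coiEv_D x E τ) ⟨J w, hKJ, by rw [hev1]; exact hw⟩
    (fun S hS hSs hker => by
      refine coi_trace (S := S) hd (subRep (coi x E τ) S hS) τ S.subtype ?_ (fun v hv => ?_)
      · intro g s
        rfl
      · exact hker v.1 v.2 ((mem_KD_subRep _ S hS x _ v).1 hv))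
  refine ⟨S, inferInstance, inferInstance, inferInstance, subRep (coi x E τ) S hS, hSs,
    (coiEv x E τ).comp S.subtype, fun e s => ?_, fun s => ?_, ⟨v, hvS⟩, ?_, hv0⟩
  · exact coiEv_E x E τ e s.1
  · exact coiEv_D x E τ s.1
  · exact (mem_KD_subRep _ S hS x _ ⟨v, hvS⟩).2 hvK

end Pool.OL95
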