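import Pool.Agent.LibOL95.C6
import Pool.Agent.LibOL95.G8
import Pool.Agent.LibOL95.D1
import Pool.Agent.LibOL95.D2

/-! The number of non-projective simple modules of `G` is the number of simple modules of `E`. -/

set_option autoImplicit false
noncomputable section
namespace Pool.OL95
open Pool.FS95

theorem np_eq {ℓ : ℕ} [Fact ℓ.Prime] (k : Type) [Field k] [IsAlgClosed k] [CharP k ℓ] {G : Type}
    [Group G] [Finite G] {x : G} {E : Subgroup G} (hd : Dat ℓ x E) :
    Nat.card (Quotient (npSetoid (MonoidAlgebra k G))) =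
      Nat.card (Quotient (projSimpleSetoid k E)) := by
  have hEf : Finite E := inferInstance
  refine card_quot_eq _ _ (fun I J => Rel ℓ x E (ofMod k G (MonoidAlgebra k G ⧸ I.1))
    (ofMod k E (MonoidAlgebra k E ⧸ J.1))) ?_ ?_ ?_
  · intro I
    have hs := (smp_iff k G _).1 I.2.1
    have hn : ¬ KD (ofMod k G (MonoidAlgebra k G ⧸ I.1)) x (ℓ - 1) ≤
        RD (ofMod k G (MonoidAlgebra k G ⧸ I.1)) x := by
      intro hle
      apply I.2.2
      rw [projective_iff_hig, hig_iff _ x hd.ox hd.ix]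
      exact hle
    obtain ⟨j, A, hA⟩ := exists_A0 hd _ hn
    obtain ⟨J, hJ1, hJ2⟩ := exists_mod _ hA.smp
    exact ⟨⟨J, hJ1, projective_of_not_dvd (ℓ := ℓ) k E hd.cE _⟩,
      rel_congr _ _ _ _ (isom_refl _) hJ2 (rel_A0 hd _ hA)⟩
  · intro J
    have hs := (smp_iff k E _).1 J.2.1
    obtain ⟨S, _, _, _, ρ, hρ, hr⟩ := exists_rel hd _ hs
    obtain ⟨I, hI1, hI2⟩ := exists_mod ρ hρ
    have hr2 := rel_congr _ _ _ _ hI2 (isom_refl _) hr
    refine ⟨⟨I, hI1, fun hp => ?_⟩, hr2⟩
    rw [projective_iff_hig, hig_iff _ x hd.ox hd.ix] at hp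
    exact not_le_of_rel _ _ hr2 hp
  · intro I I' J J' h h'
    have hs := (smp_iff k G _).1 I.2.1
    have hs' := (smp_iff k G _).1 I'.2.1
    have ht := (smp_iff k E _).1 J.2.1
    have ht' := (smp_iff k E _).1 J'.2.1
    change Nonempty _ ↔ Nonempty _
    rw [← isom_iff k G, ← isom_iff k E]
    constructor
    · intro hI
      have h2 := rel_congr _ _ _ _ hI (isom_refl _) h
      obtain ⟨j, A, hA⟩ := exists_A0 hd _ (not_le_of_rel _ _ h')
      exact isom_trans (isom_symm (isom_A0 hd _ hs' hA _ ht h2)) (isom_A0 hd _ hs' hA _ ht' h')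
    · intro hJ
      exact isom_of_rel hd _ _ hs hs' _ ht' (rel_congr _ _ _ _ (isom_refl _) hJ h) h'

end Pool.OL95
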