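import Pool.Agent.LibFS95.Z5

/-!
# Groups whose order is not divisible by `ℓ²`: definitions

`k` is a field of characteristic `ℓ`, `G` a finite group, `x ∈ G` of order `ℓ`, `E` a complement of `⟨x⟩` in its
normalizer. `Hig` is Higman's criterion (`ρ` is projective), `D = ρ(x) - 1`.
-/

set_option autoImplicit false
noncomputable section
namespace Pool.OL95

variable {k : Type} [Field k] {G : Type} [Group G] {V V' : Type} [AddCommGroup V] [Module k V]
  [AddCommGroup V'] [Module k V']

/-- `f` is a map of representations. -/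
def Eqv (ρ : Representation k G V) (ρ' : Representation k G V') (f : V →ₗ[k] V') : Prop :=
  ∀ g v, f (ρ g v) = ρ' g (f v)

/-- Isomorphic representations. -/
def Isom (ρ : Representation k G V) (ρ' : Representation k G V') : Prop :=
  ∃ e : V ≃ₗ[k] V', ∀ g v, e (ρ g v) = ρ' g (e v)

/-- Higman's criterion. -/
def Hig (ρ : Representation k G V) : Prop :=
  ∃ θ : V →ₗ[k] V, ∀ v, ∑ᶠ g : G, ρ g (θ (ρ g⁻¹ v)) = v

/-- `U` is stable under `G`. -/
def Stb (ρ : Representation k G V) (U : Submodule k V) : Prop := ∀ g, ∀ v ∈ U, ρ g v ∈ U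

/-- The restriction of `ρ` to a stable subspace. -/
def subRep (ρ : Representation k G V) (U : Submodule k V) (hU : Stb ρ U) : Representation k G U where
  toFun g := (ρ g).restrict (hU g)
  map_one' := by
    ext v; simp [LinearMap.restrict_apply]
  map_mul' g h := by
    ext v; simp [LinearMap.restrict_apply]

theorem subRep_coe (ρ : Representation k G V) (U : Submodule k V) (hU : Stb ρ U) (g : G) (v : U) :
    (subRep ρ U hU g v : V) = ρ g v := rfl

/-- `ρ` is simple. -/
def Smp (ρ : Representation k G V) : Prop :=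
  Nontrivial V ∧ ∀ U : Submodule k V, Stb ρ U → U = ⊥ ∨ U = ⊤

/-- The restriction to a subgroup. -/
def res (ρ : Representation k G V) (E : Subgroup G) : Representation k E V := ρ.comp E.subtype

theorem res_apply (ρ : Representation k G V) (E : Subgroup G) (e : E) (v : V) :
    res ρ E e v = ρ (e : G) v := rfl

/-- `D = ρ(x) - 1`. -/
def DD (ρ : Representation k G V) (x : G) : V →ₗ[k] V := ρ x - LinearMap.id

theorem DD_apply (ρ : Representation k G V) (x : G) (v : V) : DD ρ x v = ρ x v - v := rfl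

/-- `ker D^i`. -/
def KD (ρ : Representation k G V) (x : G) (i : ℕ) : Submodule k V := LinearMap.ker ((DD ρ x) ^ i)

/-- `range D`. -/
def RD (ρ : Representation k G V) (x : G) : Submodule k V := LinearMap.range (DD ρ x)

/-- The normalizer of `⟨x⟩`. -/
def NN (x : G) : Subgroup G := Subgroup.normalizer (Subgroup.zpowers x : Set G)

/-- `x` has order `ℓ`, `N(⟨x⟩) = ⟨x⟩E` with `E` an `ℓ'`-group, `ℓ²` does not divide `|G|`. -/
structure Dat (ℓ : ℕ) (x : G) (E : Subgroup G) : Prop where
  ox : orderOf x = ℓ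
  cE : ¬ ℓ ∣ Nat.card E
  nE : E ≤ NN x
  nN : ∀ g ∈ NN x, ∃ i : ℕ, ∃ e ∈ E, g = x ^ i * e
  fx : ∀ g : G, g⁻¹ * x * g ∈ NN x → g ∈ NN x
  ix : ¬ ℓ ^ 2 ∣ Nat.card G

/-- The relation between representations of `G` and of `E`. -/
def Rel (ℓ : ℕ) (x : G) (E : Subgroup G) (ρ : Representation k G V) (τ : Representation k E V') :
    Prop :=
  ∃ φ : V →ₗ[k] V', (∀ (e : E) v, φ (ρ e v) = τ e (φ v)) ∧ (∀ v, φ (DD ρ x v) = 0) ∧
    ∃ v ∈ KD ρ x (ℓ - 1), φ v ≠ 0

/-- `A` is a simple `E`-subspace of `ker D^j`, `A ∩ range D = 0`, `j` minimal. -/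
structure IsA0 (ℓ : ℕ) (x : G) (E : Subgroup G) (ρ : Representation k G V) (j : ℕ)
    (A : Submodule k V) : Prop where
  one_le : 1 ≤ j
  lt : j < ℓ
  min : KD ρ x (j - 1) ≤ RD ρ x
  le : A ≤ KD ρ x j
  inf : A ⊓ RD ρ x = ⊥
  stb : Stb (res ρ E) A
  smp : Smp (subRep (res ρ E) A stb)

/-- The representation given by a `kG`-module. -/
def ofMod (k : Type) [Field k] (G : Type) [Group G] (V : Type) [AddCommGroup V] [Module k V]
    [Module (MonoidAlgebra k G) V] [IsScalarTower k (MonoidAlgebra k G) V] :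
    Representation k G V where
  toFun g := Pool.FS95.actK k V (MonoidAlgebra.single g 1)
  map_one' := by
    ext v
    change (MonoidAlgebra.single (1 : G) (1 : k)) • v = v
    exact one_smul (MonoidAlgebra k G) v
  map_mul' g h := by
    ext v
    change (MonoidAlgebra.single (g * h) (1 : k)) • v =
      (MonoidAlgebra.single g (1 : k)) • (MonoidAlgebra.single h (1 : k)) • v
    rw [smul_smul, MonoidAlgebra.single_mul_single, one_mul]

theorem ofMod_apply (k : Type) [Field k] (G : Type) [Group G] (V : Type) [AddCommGroup V]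
    [Module k V] [Module (MonoidAlgebra k G) V] [IsScalarTower k (MonoidAlgebra k G) V] (g : G)
    (v : V) : ofMod k G V g v = (MonoidAlgebra.single g (1 : k)) • v := rfl

end Pool.OL95
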