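import Pool.Agent.LibOL95.Defs

/-!
Row E1. `(a + b)^ℓ ≡ a^ℓ + b^ℓ` modulo commutators in characteristic `ℓ`.

Plan. `(a + b)^ℓ = ∑_{w : Fin ℓ → Bool} ∏_{i} (w i ? a : b)` (ordered product, `List.prod (List.ofFn ..)`; prove it for all exponents `n` by induction, `Fin.consEquiv`/`Fin.cons`). Let `t : A → A ⧸ K` be the quotient map (additive; `t (u v) = t (v u)`). The cyclic rotation of words
does not change `t` of the product; `ZMod ℓ` (or the rotation, of order `ℓ`) acts on the words without fixed points outside the two constant words, so the sum of `t` over the non-constant words is `ℓ • (...) = 0`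
(all orbits have `ℓ` elements; e.g. the general lemma: `P` an `ℓ`-group acting on a finite `Ω`, `c : Ω → M` invariant, `ℓ M = 0`, then `∑_Ω c = ∑_{fixed} c`; or `sum_free`-like argument). Any other proof is welcome (for instance by the polynomial `(X a + b)^ℓ` and its derivative).
(K_pow) `κ = ∑ (± [a_i, b_i])`; by (add_pow) and induction on the closure it is enough: `(a b - b a)^ℓ ≡ (a b)^ℓ - (b a)^ℓ = [a, b (a b)^{ℓ-1}]` (for `ℓ = 2`: `(-u)^2 = u^2 = -u^2`, characteristic 2).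
-/

set_option autoImplicit false
noncomputable section
namespace Pool.OL95

/-- The additive subgroup generated by the commutators. -/
def KK (A : Type) [Ring A] : AddSubgroup A := AddSubgroup.closure {c | ∃ a b : A, c = a * b - b * a}

private theorem e1_comm_mem {A : Type} [Ring A] (a b : A) : a * b - b * a ∈ KK A :=
  AddSubgroup.subset_closure ⟨a, b, rfl⟩

open Polynomial in
private theorem e1_comm_coeff {A : Type} [Ring A] (p q : A[X]) (n : ℕ) :
    (p * q - q * p).coeff n ∈ KK A := by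
  rw [coeff_sub, coeff_mul, coeff_mul, ← Finset.Nat.sum_antidiagonal_swap (n := n)
    (f := fun x => q.coeff x.1 * p.coeff x.2), ← Finset.sum_sub_distrib]
  exact AddSubgroup.sum_mem _ fun x _ => e1_comm_mem _ _

open Polynomial in
private theorem e1_deriv_pow {A : Type} [Ring A] (f : A[X]) (n : ℕ) :
    derivative (f ^ n) = ∑ i ∈ Finset.range n, f ^ i * (derivative f * f ^ (n - 1 - i)) := by
  induction n with
  | zero => simp
  | succ n ih =>
    rw [pow_succ, derivative_mul, ih, Finset.sum_range_succ, Finset.sum_mul]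
    congr 1
    · refine Finset.sum_congr rfl fun i hi => ?_
      have hi' := Finset.mem_range.1 hi
      have : n + 1 - 1 - i = (n - 1 - i) + 1 := by omega
      rw [this, pow_succ, mul_assoc, mul_assoc]
    · have : n + 1 - 1 - n = 0 := by omega
      rw [this, pow_zero, mul_one]

open Polynomial in
private theorem e1_deriv_mem (ℓ : ℕ) {A : Type} [Ring A] (hA : ∀ a : A, ℓ • a = 0)
    (f : A[X]) (k : ℕ) : (k + 1) • (f ^ ℓ).coeff (k + 1) ∈ KK A := by
  have h1 : (derivative (f ^ ℓ)).coeff k = (k + 1) • (f ^ ℓ).coeff (k + 1) := by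
    rw [coeff_derivative, nsmul_eq_mul, Nat.cast_add, Nat.cast_one]
    exact ((Nat.cast_commute k _).add_left (Commute.one_left _)).eq.symm
  rw [← h1, e1_deriv_pow, finsetSum_coeff]
  have h2 : ∑ i ∈ Finset.range ℓ, (derivative f * f ^ (ℓ - 1)).coeff k = 0 := by
    rw [Finset.sum_const, Finset.card_range]
    exact hA _
  rw [← sub_zero (∑ i ∈ Finset.range ℓ, _), ← h2, ← Finset.sum_sub_distrib]
  refine AddSubgroup.sum_mem _ fun i hi => ?_
  have hi' := Finset.mem_range.1 hi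
  have h3 : derivative f * f ^ (ℓ - 1) = (derivative f * f ^ (ℓ - 1 - i)) * f ^ i := by
    rw [mul_assoc, ← pow_add]
    congr 2
    omega
  rw [h3, ← coeff_sub]
  exact e1_comm_coeff _ _ _

open Polynomial in
theorem add_pow_sub_mem (ℓ : ℕ) [Fact ℓ.Prime] (A : Type) [Ring A] (hA : ∀ a : A, ℓ • a = 0)
    (a b : A) : (a + b) ^ ℓ - (a ^ ℓ + b ^ ℓ) ∈ KK A := by
  have hℓ : ℓ.Prime := Fact.out
  obtain ⟨f, hf⟩ : ∃ f : A[X], f = C a + C b * X := ⟨_, rfl⟩
  have hdeg : f.natDegree ≤ 1 := by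
    rw [hf]
    refine (natDegree_add_le _ _).trans (max_le ?_ ?_)
    · rw [natDegree_C]; exact Nat.zero_le _
    · exact (natDegree_C_mul_le b X).trans natDegree_X_le
  have hdegp : (f ^ ℓ).natDegree < ℓ + 1 := by
    have := natDegree_pow_le_of_le ℓ hdeg
    omega
  have hev : (f ^ ℓ).eval₂ (RingHom.id A) 1 = (a + b) ^ ℓ := by
    have h1 : ∀ p : A[X], p.eval₂ (RingHom.id A) 1 =
        eval₂RingHom' (RingHom.id A) 1 (fun _ => Commute.one_right _) p := fun p => rfl
    rw [h1, map_pow, ← h1, hf]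
    congr 1
    rw [eval₂_add, eval₂_C, eval₂_mul_X, eval₂_C, mul_one]
    rfl
  rw [eval₂_eq_sum_range' _ hdegp] at hev
  simp only [RingHom.id_apply, one_pow, mul_one] at hev
  have h0 : (f ^ ℓ).coeff 0 = a ^ ℓ := by
    have h1 : ∀ p : A[X], p.coeff 0 = constantCoeff p := fun p => rfl
    rw [h1, map_pow, ← h1, hf]
    congr 1
    simp
  have h1 : (f ^ ℓ).coeff ℓ = b ^ ℓ := by
    have := coeff_pow_of_natDegree_le (m := ℓ) hdeg
    rw [mul_one] at this
    rw [this, hf]
    congr 1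
    simp
  obtain ⟨m, hm⟩ : ∃ m, ℓ = m + 1 := ⟨ℓ - 1, by have := hℓ.one_lt; omega⟩
  have hsum : (a + b) ^ ℓ - (a ^ ℓ + b ^ ℓ) = ∑ i ∈ Finset.range m, (f ^ ℓ).coeff (i + 1) := by
    rw [← hev, Finset.sum_range_succ, h1, ← h0]
    conv_lhs => rw [hm]
    rw [Finset.sum_range_succ', ← hm]
    abel
  rw [hsum]
  refine AddSubgroup.sum_mem _ fun i hi => ?_
  have hi' := Finset.mem_range.1 hi
  have hco : Nat.Coprime (i + 1) ℓ := by
    rw [Nat.coprime_comm]
    refine (Nat.Prime.coprime_iff_not_dvd hℓ).2 fun hd => ?_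
    have := Nat.le_of_dvd (Nat.succ_pos i) hd
    omega
  obtain ⟨u, hu⟩ := Nat.exists_mul_mod_eq_one_of_coprime hco hℓ.one_lt
  have h2 := e1_deriv_mem ℓ hA f i
  have h3 : (f ^ ℓ).coeff (i + 1) = u • ((i + 1) • (f ^ ℓ).coeff (i + 1)) := by
    rw [← mul_nsmul, ← Nat.div_add_mod ((i + 1) * u) ℓ, hu.2, add_nsmul, one_nsmul, mul_nsmul,
      hA, nsmul_zero, zero_add]
  rw [h3]
  exact AddSubgroup.nsmul_mem _ h2 u

theorem pow_mem_KK (ℓ : ℕ) [Fact ℓ.Prime] (A : Type) [Ring A] (hA : ∀ a : A, ℓ • a = 0)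
    (a : A) (ha : a ∈ KK A) : a ^ ℓ ∈ KK A := by
  have hℓ : ℓ.Prime := Fact.out
  obtain ⟨m, hm⟩ : ∃ m, ℓ = m + 1 := ⟨ℓ - 1, by have := hℓ.one_lt; omega⟩
  -- negatives
  have hneg : ∀ x : A, (-x) ^ ℓ = - x ^ ℓ := by
    intro x
    rcases hℓ.eq_two_or_odd' with h2 | hodd
    · rw [h2, neg_sq]
      have := hA (x ^ 2)
      rw [h2, two_nsmul] at this
      exact eq_neg_of_add_eq_zero_left this
    · exact Odd.neg_pow hodd x
  have hadd : ∀ x y : A, x ^ ℓ ∈ KK A → y ^ ℓ ∈ KK A → (x + y) ^ ℓ ∈ KK A := by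
    intro x y hx hy
    have h1 := add_pow_sub_mem ℓ A hA x y
    have h2 := (KK A).add_mem h1 ((KK A).add_mem hx hy)
    rwa [sub_add_cancel] at h2
  refine AddSubgroup.closure_induction (p := fun x _ => x ^ ℓ ∈ KK A) ?_ ?_ ?_ ?_ ha
  · rintro x ⟨u, v, rfl⟩
    have h1 := add_pow_sub_mem ℓ A hA (u * v) (-(v * u))
    rw [hneg, ← sub_eq_add_neg, ← sub_eq_add_neg] at h1
    have h2 : (u * v) ^ ℓ - (v * u) ^ ℓ ∈ KK A := by
      have e1 : (u * v) ^ ℓ = u * (v * (u * v) ^ m) := by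
        rw [hm, pow_succ', mul_assoc]
      have e2 : (v * u) ^ ℓ = (v * (u * v) ^ m) * u := by
        rw [hm, pow_succ, ← mul_assoc, mul_pow_mul]
      rw [e1, e2]
      exact e1_comm_mem _ _
    have h3 := (KK A).add_mem h1 h2
    rwa [sub_add_cancel] at h3
  · rw [zero_pow hℓ.ne_zero]; exact (KK A).zero_mem
  · intro x y _ _ hx hy
    exact hadd x y hx hy
  · intro x _ hx
    rw [hneg]; exact (KK A).neg_mem hx

end Pool.OL95
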