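import Pool.Agent.LibOL95.E1

/-!
Row E2. Iterates and finite sums.

Plan. Induction on `n`: `(a+b)^{ℓ^{n+1}} = ((a+b)^{ℓ^n})^ℓ = (a^{ℓ^n} + b^{ℓ^n} + κ)^ℓ ≡ a^{ℓ^{n+1}} + b^{ℓ^{n+1}} + κ^ℓ`, `κ^ℓ ∈ KK` (`pow_mem_KK`). For sums: induction on the finset.
-/

set_option autoImplicit false
noncomputable section
namespace Pool.OL95

theorem pow_pow_mem_KK (ℓ : ℕ) [Fact ℓ.Prime] (A : Type) [Ring A] (hA : ∀ a : A, ℓ • a = 0)
    (n : ℕ) (a : A) (ha : a ∈ KK A) : a ^ ℓ ^ n ∈ KK A := by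
  induction n with
  | zero => rwa [pow_zero, pow_one]
  | succ n ih =>
    rw [pow_succ, pow_mul]
    exact pow_mem_KK ℓ A hA _ ih

theorem add_pow_pow_sub_mem (ℓ : ℕ) [Fact ℓ.Prime] (A : Type) [Ring A] (hA : ∀ a : A, ℓ • a = 0)
    (n : ℕ) (a b : A) : (a + b) ^ ℓ ^ n - (a ^ ℓ ^ n + b ^ ℓ ^ n) ∈ KK A := by
  induction n with
  | zero =>
    rw [pow_zero, pow_one, pow_one, pow_one, sub_self]
    exact (KK A).zero_mem
  | succ n ih =>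
    obtain ⟨x, hx⟩ : ∃ x, x = (a + b) ^ ℓ ^ n - (a ^ ℓ ^ n + b ^ ℓ ^ n) := ⟨_, rfl⟩
    rw [← hx] at ih
    have h1 : (a + b) ^ ℓ ^ n = (a ^ ℓ ^ n + b ^ ℓ ^ n) + x := by rw [hx]; abel
    rw [pow_succ, pow_mul, pow_mul, pow_mul, h1]
    have h2 := add_pow_sub_mem ℓ A hA (a ^ ℓ ^ n + b ^ ℓ ^ n) x
    have h3 := add_pow_sub_mem ℓ A hA (a ^ ℓ ^ n) (b ^ ℓ ^ n)
    have h4 := pow_mem_KK ℓ A hA x ih
    have h5 := (KK A).add_mem ((KK A).add_mem h2 h3) h4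
    convert h5 using 1
    abel

theorem sum_pow_pow_sub_mem (ℓ : ℕ) [Fact ℓ.Prime] (A : Type) [Ring A] (hA : ∀ a : A, ℓ • a = 0)
    (n : ℕ) {ι : Type} (s : Finset ι) (f : ι → A) :
    (∑ i ∈ s, f i) ^ ℓ ^ n - ∑ i ∈ s, f i ^ ℓ ^ n ∈ KK A := by
  classical
  induction s using Finset.induction_on with
  | empty =>
    rw [Finset.sum_empty, Finset.sum_empty, zero_pow (pow_ne_zero n (Fact.out : ℓ.Prime).ne_zero),
      sub_zero]
    exact (KK A).zero_mem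
  | insert i s hi ih =>
    rw [Finset.sum_insert hi, Finset.sum_insert hi]
    have h1 := add_pow_pow_sub_mem ℓ A hA n (f i) (∑ j ∈ s, f j)
    have h2 := (KK A).add_mem h1 ih
    convert h2 using 1
    abel

end Pool.OL95
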