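import Pool.Agent.LibOL95.E2

/-!
Row E3. Matrices: the trace.

Plan. (KK_trace) `trace (a b) = trace (b a)`, closure induction. (mem_KK) `a = ∑_{i ≠ j} a_ij E_ij + ∑_i a_ii (E_ii - E_00)` if the trace is `0`; `c E_ij = [c E_ii, E_ij]` for `i ≠ j`, `c (E_ii - E_00) = [c E_i0, E_0i]` for `i ≠ 0`. For the product of matrix rings
use the elements `Pi.single i a`. (trace_pow) `M = ∑ m_ij E_ij` (a finite sum over pairs); by `sum_pow_pow_sub_mem` and (KK_trace): `tr (M^{ℓ^n}) = ∑ tr ((m_ij E_ij)^{ℓ^n}) = ∑_i m_ii^{ℓ^n} = (∑ m_ii)^{ℓ^n}` (for `n ≥ 1`, `i ≠ j` gives a nilpotent; the case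
`n = 0` is trivial; `sum_pow_char_pow`).
-/

set_option autoImplicit false
noncomputable section
namespace Pool.OL95

theorem KK_trace {k : Type} [Field k] {r : ℕ} (d : Fin r → ℕ)
    (a : (i : Fin r) → Matrix (Fin (d i)) (Fin (d i)) k)
    (ha : a ∈ KK ((i : Fin r) → Matrix (Fin (d i)) (Fin (d i)) k)) (i : Fin r) :
    Matrix.trace (a i) = 0 := by
  unfold KK at ha
  induction ha using AddSubgroup.closure_induction with
  | mem x hx =>
    obtain ⟨u, v, rfl⟩ := hx
    show Matrix.trace (u i * v i - v i * u i) = 0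
    rw [Matrix.trace_sub, Matrix.trace_mul_comm, sub_self]
  | zero => exact Matrix.trace_zero _ _
  | add x y _ _ hx hy =>
    show Matrix.trace (x i + y i) = 0
    rw [Matrix.trace_add, hx, hy, add_zero]
  | neg x _ hx =>
    show Matrix.trace (-(x i)) = 0
    rw [Matrix.trace_neg, hx, neg_zero]

theorem e3_comm {A : Type} [Ring A] (a b : A) : a * b - b * a ∈ KK A :=
  AddSubgroup.subset_closure ⟨a, b, rfl⟩

theorem e3_trace {k : Type} [Field k] {m : ℕ} (a : Matrix (Fin m) (Fin m) k)
    (ha : a ∈ KK (Matrix (Fin m) (Fin m) k)) : Matrix.trace a = 0 := by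
  unfold KK at ha
  induction ha using AddSubgroup.closure_induction with
  | mem x hx =>
    obtain ⟨u, v, rfl⟩ := hx
    rw [Matrix.trace_sub, Matrix.trace_mul_comm, sub_self]
  | zero => exact Matrix.trace_zero _ _
  | add x y _ _ hx hy => rw [Matrix.trace_add, hx, hy, add_zero]
  | neg x _ hx => rw [Matrix.trace_neg, hx, neg_zero]

theorem e3_mem {k : Type} [Field k] {m : ℕ} (M : Matrix (Fin m) (Fin m) k)
    (hM : Matrix.trace M = 0) : M ∈ KK (Matrix (Fin m) (Fin m) k) := by
  classical
  rcases Nat.eq_zero_or_pos m with rfl | hm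
  · rw [Subsingleton.elim M 0]
    exact (KK _).zero_mem
  · let z : Fin m := ⟨0, hm⟩
    have e1 : M = ∑ i : Fin m, ∑ j : Fin m, (Matrix.single i j (M i j) -
        if i = j then Matrix.single z z (M i i) else 0) := by
      simp only [Finset.sum_sub_distrib]
      have e2 : ∑ i : Fin m, ∑ j : Fin m, (if i = j then Matrix.single z z (M i i) else 0) =
          (0 : Matrix (Fin m) (Fin m) k) := by
        have e3 : ∀ i : Fin m, ∑ j : Fin m, (if i = j then Matrix.single z z (M i i) else 0) =
            Matrix.single z z (M i i) := by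
          intro i
          rw [Finset.sum_ite_eq, if_pos (Finset.mem_univ i)]
        rw [Finset.sum_congr rfl fun i _ => e3 i]
        have e4 : ∑ i : Fin m, Matrix.single z z (M i i) =
            Matrix.single z z (∑ i : Fin m, M i i) :=
          (map_sum (Matrix.singleAddMonoidHom z z) (fun i => M i i) Finset.univ).symm
        rw [e4]
        have e5 : ∑ i : Fin m, M i i = 0 := hM
        rw [e5, Matrix.single_zero]
      rw [e2, sub_zero]
      exact Matrix.matrix_eq_sum_single M
    rw [e1]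
    refine AddSubgroup.sum_mem _ fun i _ => AddSubgroup.sum_mem _ fun j _ => ?_
    by_cases h : i = j
    · subst h
      rw [if_pos rfl]
      have e6 := e3_comm (Matrix.single i z (M i i)) (Matrix.single z i (1 : k))
      rw [Matrix.single_mul_single_same, Matrix.single_mul_single_same, mul_one, one_mul] at e6
      exact e6
    · rw [if_neg h, sub_zero]
      have e6 := e3_comm (Matrix.single i i (M i j)) (Matrix.single i j (1 : k))
      rw [Matrix.single_mul_single_same, Matrix.single_mul_single_of_ne (h := Ne.symm h), mul_one,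
        sub_zero] at e6
      exact e6

theorem mem_KK_of_trace {k : Type} [Field k] {r : ℕ} (d : Fin r → ℕ)
    (a : (i : Fin r) → Matrix (Fin (d i)) (Fin (d i)) k)
    (ha : ∀ i, Matrix.trace (a i) = 0) :
    a ∈ KK ((i : Fin r) → Matrix (Fin (d i)) (Fin (d i)) k) := by
  classical
  have key : ∀ (i : Fin r) (M : Matrix (Fin (d i)) (Fin (d i)) k),
      M ∈ KK (Matrix (Fin (d i)) (Fin (d i)) k) →
      (Pi.single i M : (i : Fin r) → Matrix (Fin (d i)) (Fin (d i)) k) ∈
        KK ((i : Fin r) → Matrix (Fin (d i)) (Fin (d i)) k) := by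
    intro i M hM
    unfold KK at hM
    induction hM using AddSubgroup.closure_induction with
    | mem x hx =>
      obtain ⟨u, v, rfl⟩ := hx
      rw [Pi.single_sub, Pi.single_mul, Pi.single_mul]
      exact e3_comm _ _
    | zero =>
      rw [Pi.single_zero]
      exact (KK _).zero_mem
    | add x y _ _ hx hy =>
      rw [Pi.single_add]
      exact (KK _).add_mem hx hy
    | neg x _ hx =>
      rw [Pi.single_neg]
      exact (KK _).neg_mem hx
  have e1 : a = ∑ i, Pi.single i (a i) := (Finset.univ_sum_single a).symm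
  rw [e1]
  exact AddSubgroup.sum_mem _ fun i _ => key i (a i) (e3_mem (a i) (ha i))

theorem e3_single {k : Type} [Field k] {m : ℕ} (i : Fin m) (c : k) (N : ℕ) :
    (Matrix.single i i c) ^ (N + 1) = Matrix.single i i (c ^ (N + 1)) := by
  induction N with
  | zero => rw [zero_add, pow_one, pow_one]
  | succ N ih => rw [pow_succ, ih, Matrix.single_mul_single_same, ← pow_succ]

theorem e3_tr {k : Type} [Field k] {m : ℕ} (i j : Fin m) (c : k) (N : ℕ) :
    Matrix.trace ((Matrix.single i j c) ^ (N + 1)) = if i = j then c ^ (N + 1) else 0 := by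
  by_cases h : i = j
  · subst h
    rw [if_pos rfl, e3_single, Matrix.trace_single_eq_same]
  · rw [if_neg h]
    cases N with
    | zero => rw [zero_add, pow_one, Matrix.trace_single_eq_of_ne _ _ _ h]
    | succ N =>
      rw [pow_succ, pow_succ, mul_assoc, Matrix.single_mul_single_of_ne (h := Ne.symm h), mul_zero,
        Matrix.trace_zero]

theorem trace_pow_pow (ℓ : ℕ) [Fact ℓ.Prime] {k : Type} [Field k] [CharP k ℓ] (m n : ℕ)
    (M : Matrix (Fin m) (Fin m) k) : Matrix.trace (M ^ ℓ ^ n) = Matrix.trace M ^ ℓ ^ n := by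
  classical
  have hA : ∀ a : Matrix (Fin m) (Fin m) k, ℓ • a = 0 := by
    intro a
    ext i j
    show ℓ • a i j = 0
    rw [nsmul_eq_mul, CharP.cast_eq_zero, zero_mul]
  obtain ⟨N, hN⟩ : ∃ N, ℓ ^ n = N + 1 :=
    ⟨ℓ ^ n - 1, (Nat.succ_pred_eq_of_pos (pow_pos (Fact.out : ℓ.Prime).pos n)).symm⟩
  have e1 : M = ∑ p : Fin m × Fin m, Matrix.single p.1 p.2 (M p.1 p.2) := by
    rw [Fintype.sum_prod_type]
    exact Matrix.matrix_eq_sum_single M
  have h1 := e3_trace _ (sum_pow_pow_sub_mem ℓ _ hA n Finset.univ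
    fun p : Fin m × Fin m => Matrix.single p.1 p.2 (M p.1 p.2))
  rw [← e1, Matrix.trace_sub, sub_eq_zero] at h1
  rw [h1, Matrix.trace_sum, hN]
  rw [Finset.sum_congr rfl fun p _ => e3_tr p.1 p.2 (M p.1 p.2) N, Fintype.sum_prod_type]
  have e2 : ∀ i : Fin m, ∑ j : Fin m, (if i = j then (M i j) ^ (N + 1) else 0) =
      (M i i) ^ (N + 1) := by
    intro i
    rw [Finset.sum_ite_eq, if_pos (Finset.mem_univ i)]
  rw [Finset.sum_congr rfl fun i _ => e2 i, ← hN]
  exact (sum_pow_char_pow ℓ n Finset.univ fun i => M i i).symm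

end Pool.OL95
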