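import Pool.Agent.LibOL95.E1

/-!
Row E4. The group algebra: class sums of coefficients vanish on commutators; `ℓ`-parts.

Plan. (KK_class) for `c : ConjClasses G` the functional `a ↦ ∑_{g ∈ c} a g` vanishes on `single g x * single h y - single h y * single g x` (`gh` and `hg` are conjugate), hence on all commutators (bilinear) and on `KK`.
(exists_pow) with `|g| = ℓ^a m`, `(m, ℓ) = 1`, choose by CRT an integer `u ≡ 1 (mod m)`, `u ≡ 0 (mod ℓ^a)`; `s = g^u` has order dividing `m` and `g^{ℓ^n} = s^{ℓ^n}` for `n ≥ a` (`ℓ^n (u - 1) ≡ 0 mod ℓ^a m`). Take `n₀ = a` with `ℓ^a ∣ |G|`: `n₀ = Nat.card G`.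
(exists_n) for `ℓ ∤ ord(s)`, `s^{ℓ^n} = s` for all multiples `n` of `φ(ord s)`; so `n = φ(1) φ(2) ... ` or `n = (Nat.card G)! * b` is good for all `s` (`φ(o) ≤ |G|` divides `|G|!`), and `n ≥ b`.
-/

set_option autoImplicit false
noncomputable section
namespace Pool.OL95

theorem KK_class {k : Type} [Field k] {G : Type} [Group G] [Finite G] (a : MonoidAlgebra k G)
    (ha : a ∈ KK (MonoidAlgebra k G)) (c : ConjClasses G) :
    ∑ᶠ g : {g : G // ConjClasses.mk g = c}, a.coeff g.1 = 0 := by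
  classical
  have := Fintype.ofFinite G
  let φ : MonoidAlgebra k G →+ k :=
    { toFun := fun a => ∑ g : {g : G // ConjClasses.mk g = c}, a.coeff g.1
      map_zero' := by simp
      map_add' := fun a b => by
        rw [← Finset.sum_add_distrib]
        exact Finset.sum_congr rfl fun g _ => by rw [MonoidAlgebra.coeff_add, Finsupp.add_apply] }
  have hφ : ∀ a, φ a = ∑ g : {g : G // ConjClasses.mk g = c}, a.coeff g.1 := fun _ => rfl
  have hs : ∀ (g : G) (x : k), φ (MonoidAlgebra.single g x) =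
      if ConjClasses.mk g = c then x else 0 := by
    intro g x
    rw [hφ]
    simp only [MonoidAlgebra.coeff_single, Finsupp.single_apply]
    split_ifs with h
    · rw [Finset.sum_eq_single (⟨g, h⟩ : {g : G // ConjClasses.mk g = c})]
      · rw [if_pos rfl]
      · intro b _ hb
        rw [if_neg]
        intro h'
        exact hb (Subtype.ext h'.symm)
      · intro h'
        exact absurd (Finset.mem_univ _) h'
    · refine Finset.sum_eq_zero fun b _ => ?_
      rw [if_neg]
      rintro rfl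
      exact h b.2
  have hcomm : ∀ a b : MonoidAlgebra k G, φ (a * b) = φ (b * a) := by
    intro a b
    induction a using MonoidAlgebra.induction_linear with
    | zero => simp
    | add a₁ a₂ h₁ h₂ => rw [add_mul, mul_add, map_add, map_add, h₁, h₂]
    | single g x =>
      induction b using MonoidAlgebra.induction_linear with
      | zero => simp
      | add b₁ b₂ h₁ h₂ => rw [mul_add, add_mul, map_add, map_add, h₁, h₂]
      | single h y =>
        rw [MonoidAlgebra.single_mul_single, MonoidAlgebra.single_mul_single, hs, hs, mul_comm x y]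
        have hc : ConjClasses.mk (g * h) = ConjClasses.mk (h * g) := by
          rw [ConjClasses.mk_eq_mk_iff_isConj]
          exact isConj_iff.2 ⟨h, by group⟩
        rw [hc]
  have h0 : φ a = 0 := by
    refine AddSubgroup.closure_induction (p := fun a _ => φ a = 0) ?_ ?_ ?_ ?_ ha
    · rintro _ ⟨x, y, rfl⟩
      rw [map_sub, hcomm, sub_self]
    · exact map_zero φ
    · intro x y _ _ hx hy
      rw [map_add, hx, hy, add_zero]
    · intro x _ hx
      rw [map_neg, hx, neg_zero]
  rw [finsum_eq_sum_of_fintype]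
  exact h0

theorem exists_regular_part (ℓ : ℕ) [Fact ℓ.Prime] {G : Type} [Group G] [Finite G] (g : G) :
    ∃ s : G, ¬ ℓ ∣ orderOf s ∧ ∀ n, Nat.card G ≤ n → g ^ ℓ ^ n = s ^ ℓ ^ n := by
  have hℓ : ℓ.Prime := Fact.out
  obtain ⟨e, m, hm, hN⟩ := Nat.exists_eq_pow_mul_and_not_dvd
    (orderOf_pos g).ne' ℓ hℓ.ne_one
  have hcop : (ℓ ^ e).Coprime m := Nat.Coprime.pow_left e ((Nat.Prime.coprime_iff_not_dvd hℓ).2 hm)
  obtain ⟨u, hu1, hu2⟩ := Nat.chineseRemainder hcop 0 1
  refine ⟨g ^ u, ?_, fun n hn => ?_⟩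
  · intro hd
    apply hm
    refine hd.trans (orderOf_dvd_of_pow_eq_one ?_)
    rw [← pow_mul, ← orderOf_dvd_iff_pow_eq_one, hN]
    exact Nat.mul_dvd_mul ((Nat.modEq_zero_iff_dvd).1 hu1) dvd_rfl
  · rw [← pow_mul, pow_eq_pow_iff_modEq, hN]
    have he : e ≤ n := by
      have h1 : ℓ ^ e ≤ orderOf g := Nat.le_of_dvd (orderOf_pos g) ⟨m, hN⟩
      have h2 : orderOf g ≤ Nat.card G := Nat.le_of_dvd Nat.card_pos (orderOf_dvd_natCard g)
      have h3 : e < ℓ ^ e := Nat.lt_pow_self hℓ.one_lt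
      omega
    apply (Nat.modEq_and_modEq_iff_modEq_mul hcop).1
    constructor
    · have h1 : ℓ ^ n ≡ 0 [MOD ℓ ^ e] := (Nat.modEq_zero_iff_dvd).2 (pow_dvd_pow ℓ he)
      exact h1.trans ((h1.mul_left u).trans (by rw [mul_zero])).symm
    · have := (hu2.mul_right (ℓ ^ n)).symm
      rwa [one_mul] at this

theorem exists_frob (ℓ : ℕ) [Fact ℓ.Prime] (G : Type) [Group G] [Finite G] (b : ℕ) :
    ∃ n, b ≤ n ∧ ∀ s : G, ¬ ℓ ∣ orderOf s → s ^ ℓ ^ n = s := by
  have hℓ : ℓ.Prime := Fact.out
  refine ⟨(Nat.card G).factorial * b, Nat.le_mul_of_pos_left b (Nat.factorial_pos _), fun s hs => ?_⟩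
  have hcop : ℓ.Coprime (orderOf s) := (Nat.Prime.coprime_iff_not_dvd hℓ).2 hs
  have h1 : (orderOf s).totient ∣ (Nat.card G).factorial * b := by
    apply Dvd.dvd.mul_right
    apply Nat.dvd_factorial (Nat.totient_pos.2 (orderOf_pos s))
    exact (Nat.totient_le _).trans (Nat.le_of_dvd Nat.card_pos (orderOf_dvd_natCard s))
  obtain ⟨t, ht⟩ := h1
  have h2 : ℓ ^ ((Nat.card G).factorial * b) ≡ 1 [MOD orderOf s] := by
    rw [ht, pow_mul]
    have h3 := (Nat.ModEq.pow_totient hcop).pow t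
    rwa [one_pow] at h3
  have h4 := pow_eq_pow_iff_modEq.2 h2
  rwa [pow_one] at h4

end Pool.OL95
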