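import Pool.Agent.LibOL95.Defs

/-!
Row E5. The semisimple quotient of a finite dimensional algebra.

Plan. `J = Ring.jacobson A` (two-sided, nilpotent as `A` is Artinian: `IsArtinianRing.isNilpotent_jacobson_bot` or so), `A ⧸ J` is semisimple (`IsArtinianRing` ... `IsSemiprimaryRing`) and a finite dimensional `k`-algebra:
`IsSemisimpleRing.exists_algEquiv_pi_matrix_of_isAlgClosed`; compose with the quotient map.
-/

set_option autoImplicit false
noncomputable section
namespace Pool.OL95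

theorem exists_pi_matrix (k A : Type) [Field k] [IsAlgClosed k] [Ring A] [Algebra k A]
    [FiniteDimensional k A] :
    ∃ (r : ℕ) (d : Fin r → ℕ) (_ : ∀ i, NeZero (d i))
      (π : A →ₐ[k] ((i : Fin r) → Matrix (Fin (d i)) (Fin (d i)) k)), Function.Surjective π ∧
        ∀ a, π a = 0 → IsNilpotent a := by
  have h1 : IsArtinianRing A := IsArtinianRing.of_finite k A
  have h2 : IsSemiprimaryRing A := inferInstance
  have h3 : IsSemisimpleRing (A ⧸ Ring.jacobson A) := h2.isSemisimpleRing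
  have h4 : Function.Surjective (Ideal.Quotient.mkₐ k (Ring.jacobson A)) :=
    Ideal.Quotient.mkₐ_surjective k _
  have h5 : FiniteDimensional k (A ⧸ Ring.jacobson A) :=
    Module.Finite.of_surjective (Ideal.Quotient.mkₐ k (Ring.jacobson A)).toLinearMap h4
  obtain ⟨r, d, hd, ⟨e⟩⟩ :=
    IsSemisimpleRing.exists_algEquiv_pi_matrix_of_isAlgClosed k (A ⧸ Ring.jacobson A)
  refine ⟨r, d, hd, (e : (A ⧸ Ring.jacobson A) →ₐ[k] _).comp
    (Ideal.Quotient.mkₐ k (Ring.jacobson A)), fun y => ?_, fun a ha => ?_⟩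
  · obtain ⟨x, hx⟩ := e.surjective y
    obtain ⟨a, ha⟩ := h4 x
    refine ⟨a, ?_⟩
    rw [AlgHom.comp_apply, ha]
    exact hx
  have h6 : Ideal.Quotient.mkₐ k (Ring.jacobson A) a = 0 := by
    apply e.injective
    rw [map_zero]
    exact ha
  have h7 : a ∈ Ring.jacobson A := Ideal.Quotient.eq_zero_iff_mem.1 h6
  obtain ⟨n, hn⟩ := h2.isNilpotent
  refine ⟨n, ?_⟩
  have h8 : a ^ n ∈ Ring.jacobson A ^ n := Ideal.pow_mem_pow h7 n
  rw [hn] at h8
  exact h8

end Pool.OL95
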