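import Pool.Agent.LibOL95.D0

/-!
Row E6. The simple modules of `A` are the `r` column modules.

Plan. For `i : Fin r` let `C_i = Fin (d i) → k` with `a ∈ A` acting by `Matrix.mulVec (π a i)`: a simple `A`-module (`π_i` is surjective, matrix units), `C_i ≅ A ⧸ I_i` with `I_i` the annihilator of `e_0` (`Pi.single 0 1`). `C_i ≇ C_j` for `i ≠ j` (some `a` with
`π a = Pi.single i 1` acts as `1` on `C_i` and as `0` on `C_j`). Every simple `S` is some `C_i`: `ker π` acts as `0` on `S` (if `r s ≠ 0`, `r ∈ ker π`, then `A r s = S ∋ s`, `s = a r s`, `a r ∈ ker π` nilpotent, so `s = 0`);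
choose `u_i ∈ A` with `π u_i = Pi.single i (single 0 0 1)` (the matrix unit `E_00`) and, for some `i`, `u_i S ≠ 0` (otherwise: `1 - ∑_i (sum of the `E_jj` in factor i)` lies in `ker π`, and each `E_jj` is `E_j0 E_00 E_0j`, so `1` would act as `0`). Let
`s ∈ S`, `s' = u_i s ≠ 0`: the map `A → S, a ↦ a s'` is surjective and its kernel contains (so equals, as `I_i` is maximal) `I_i = {a : (π a i) e_0 = 0} = {a : a u_i ∈ ker π}`. So `A ⧸ I_i ≅ S`.
Conclusion: `i ↦ [A ⧸ I_i]` is a bijection `Fin r → Quotient (smSetoid A)`.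
-/

set_option autoImplicit false
noncomputable section
namespace Pool.OL95

/-- the left ideal `I_i` -/
def e6_I {k A : Type} [Field k] [Ring A] [Algebra k A] {r : ℕ} (d : Fin r → ℕ)
    [hd : ∀ i, NeZero (d i)] (π : A →ₐ[k] ((i : Fin r) → Matrix (Fin (d i)) (Fin (d i)) k))
    (i : Fin r) : Submodule A A where
  carrier := {a | ∀ p, π a i p 0 = 0}
  add_mem' := by
    intro a b ha hb p
    show π (a + b) i p 0 = 0
    rw [map_add, Pi.add_apply, Matrix.add_apply, ha p, hb p, add_zero]
  zero_mem' := by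
    intro p
    rw [map_zero, Pi.zero_apply, Matrix.zero_apply]
  smul_mem' := by
    intro c x hx p
    show π (c * x) i p 0 = 0
    rw [map_mul, Pi.mul_apply, Matrix.mul_apply]
    exact Finset.sum_eq_zero fun q _ => by rw [hx q, mul_zero]

theorem e6_mem {k A : Type} [Field k] [Ring A] [Algebra k A] {r : ℕ} (d : Fin r → ℕ)
    [hd : ∀ i, NeZero (d i)] (π : A →ₐ[k] ((i : Fin r) → Matrix (Fin (d i)) (Fin (d i)) k))
    (i : Fin r) (a : A) : a ∈ e6_I d π i ↔ ∀ p, π a i p 0 = 0 := Iff.rfl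

theorem e6_one {k A : Type} [Field k] [Ring A] [Algebra k A] {r : ℕ} (d : Fin r → ℕ)
    [hd : ∀ i, NeZero (d i)] (π : A →ₐ[k] ((i : Fin r) → Matrix (Fin (d i)) (Fin (d i)) k))
    (i : Fin r) : (1 : A) ∉ e6_I d π i := by
  intro h
  have h1 := h 0
  rw [map_one, Pi.one_apply, Matrix.one_apply_eq] at h1
  exact one_ne_zero h1

theorem e6_coatom {k A : Type} [Field k] [Ring A] [Algebra k A] {r : ℕ} (d : Fin r → ℕ)
    [hd : ∀ i, NeZero (d i)] (π : A →ₐ[k] ((i : Fin r) → Matrix (Fin (d i)) (Fin (d i)) k))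
    (hπ : Function.Surjective π) (i : Fin r) : IsCoatom (e6_I d π i) := by
  classical
  refine ⟨fun h => e6_one d π i (by rw [h]; exact Submodule.mem_top), ?_⟩
  intro J hJ
  obtain ⟨a, haJ, haI⟩ := Set.exists_of_ssubset hJ
  have haI' : ¬ ∀ p, π a i p 0 = 0 := haI
  push Not at haI'
  obtain ⟨p, hp⟩ := haI'
  obtain ⟨b, hb⟩ := hπ (Pi.single i (Matrix.single 0 p (π a i p 0)⁻¹))
  have h1 : b * a - 1 ∈ e6_I d π i := by
    intro q
    rw [map_sub, map_mul, map_one, hb, Pi.sub_apply, Pi.mul_apply, Pi.single_eq_same, Pi.one_apply,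
      Matrix.sub_apply]
    by_cases hq : q = 0
    · subst hq
      rw [Matrix.single_mul_apply_same, Matrix.one_apply_eq, inv_mul_cancel₀ hp, sub_self]
    · rw [Matrix.single_mul_apply_of_ne _ _ _ _ _ hq, Matrix.one_apply_ne hq, sub_self]
  have h2 : (1 : A) ∈ J := by
    have h3 := J.sub_mem (J.smul_mem b haJ) (hJ.le h1)
    rw [smul_eq_mul, sub_sub_cancel] at h3
    exact h3
  rw [eq_top_iff]
  intro x _
  have h4 := J.smul_mem x h2
  rwa [smul_eq_mul, mul_one] at h4

theorem e6_ne {k A : Type} [Field k] [Ring A] [Algebra k A] {r : ℕ} (d : Fin r → ℕ)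
    [hd : ∀ i, NeZero (d i)] (π : A →ₐ[k] ((i : Fin r) → Matrix (Fin (d i)) (Fin (d i)) k))
    (hπ : Function.Surjective π) {i j : Fin r} (hij : i ≠ j)
    (f : (A ⧸ e6_I d π i) ≃ₗ[A] (A ⧸ e6_I d π j)) : False := by
  classical
  obtain ⟨a, ha⟩ := hπ (Pi.single i 1)
  have h1 : a • (Submodule.Quotient.mk 1 : A ⧸ e6_I d π i) = Submodule.Quotient.mk 1 := by
    rw [← Submodule.Quotient.mk_smul, smul_eq_mul, mul_one, Submodule.Quotient.eq]
    intro p
    rw [map_sub, ha, map_one, Pi.sub_apply, Pi.single_eq_same, Pi.one_apply, sub_self,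
      Matrix.zero_apply]
  have h2 : ∀ y : A ⧸ e6_I d π j, a • y = 0 := by
    intro y
    obtain ⟨x, rfl⟩ := Submodule.Quotient.mk_surjective _ y
    rw [← Submodule.Quotient.mk_smul, smul_eq_mul, Submodule.Quotient.mk_eq_zero]
    intro p
    rw [map_mul, ha, Pi.mul_apply, Pi.single_eq_of_ne (Ne.symm hij), zero_mul, Matrix.zero_apply]
  have h3 : f (Submodule.Quotient.mk 1) = 0 := by
    rw [← h1, map_smul, h2]
  have h4 : (Submodule.Quotient.mk 1 : A ⧸ e6_I d π i) = 0 := by
    rw [← f.map_zero] at h3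
    exact f.injective h3
  exact e6_one d π i ((Submodule.Quotient.mk_eq_zero _).1 h4)

/-- the kernel of `π` kills the simple modules -/
theorem e6_rad {k A : Type} [Field k] [Ring A] [Algebra k A] {r : ℕ} (d : Fin r → ℕ)
    [hd : ∀ i, NeZero (d i)] (π : A →ₐ[k] ((i : Fin r) → Matrix (Fin (d i)) (Fin (d i)) k))
    (hnil : ∀ a, π a = 0 → IsNilpotent a) {S : Type} [AddCommGroup S]
    [Module A S] [IsSimpleModule A S] (x : A) (hx : π x = 0) (s : S) : x • s = 0 := by
  by_contra h
  have h1 : Submodule.span A {x • s} = ⊤ := by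
    rcases eq_bot_or_eq_top (Submodule.span A {x • s}) with h2 | h2
    · exact absurd (Submodule.span_singleton_eq_bot.1 h2) h
    · exact h2
  have h2 : s ∈ Submodule.span A {x • s} := by
    rw [h1]
    exact Submodule.mem_top
  obtain ⟨a, ha⟩ := Submodule.mem_span_singleton.1 h2
  rw [smul_smul] at ha
  obtain ⟨n, hn⟩ := hnil (a * x) (by rw [map_mul, hx, mul_zero])
  have h3 : ∀ m : ℕ, (a * x) ^ m • s = s := by
    intro m
    induction m with
    | zero => rw [pow_zero, one_smul]
    | succ m ih => rw [pow_succ, mul_smul, ha, ih]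
  have h4 : s = 0 := by rw [← h3 n, hn, zero_smul]
  rw [h4, smul_zero] at h
  exact h rfl

theorem e6_surj {k A : Type} [Field k] [Ring A] [Algebra k A] {r : ℕ} (d : Fin r → ℕ)
    [hd : ∀ i, NeZero (d i)] (π : A →ₐ[k] ((i : Fin r) → Matrix (Fin (d i)) (Fin (d i)) k))
    (hπ : Function.Surjective π) (hnil : ∀ a, π a = 0 → IsNilpotent a) {S : Type} [AddCommGroup S]
    [Module A S] [IsSimpleModule A S] : ∃ i, Nonempty ((A ⧸ e6_I d π i) ≃ₗ[A] S) := by
  classical
  choose u hu using fun i => hπ (Pi.single i (Matrix.single 0 0 1))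
  choose v hv using fun p : (i : Fin r) × Fin (d i) => hπ (Pi.single p.1 (Matrix.single p.2 0 1))
  choose w hw using fun p : (i : Fin r) × Fin (d i) => hπ (Pi.single p.1 (Matrix.single 0 p.2 1))
  obtain ⟨i, s, hs⟩ : ∃ i, ∃ s : S, u i • s ≠ 0 := by
    by_contra hcon
    push Not at hcon
    have h1 : π (1 - ∑ i : Fin r, ∑ p : Fin (d i), v ⟨i, p⟩ * u i * w ⟨i, p⟩) = 0 := by
      rw [map_sub, map_one, map_sum, sub_eq_zero]
      have h2 : ∀ i : Fin r, π (∑ p : Fin (d i), v ⟨i, p⟩ * u i * w ⟨i, p⟩) =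
          Pi.single i (1 : Matrix (Fin (d i)) (Fin (d i)) k) := by
        intro i
        rw [map_sum]
        have h3 : ∀ p : Fin (d i), π (v ⟨i, p⟩ * u i * w ⟨i, p⟩) =
            Pi.single i (Matrix.single p p (1 : k)) := by
          intro p
          rw [map_mul, map_mul, hv, hu, hw, ← Pi.single_mul, ← Pi.single_mul,
            Matrix.single_mul_single_same, Matrix.single_mul_single_same, mul_one, mul_one]
        rw [Finset.sum_congr rfl fun p _ => h3 p]
        have h4 : ∑ p : Fin (d i), (Pi.single i (Matrix.single p p (1 : k)) :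
            (i : Fin r) → Matrix (Fin (d i)) (Fin (d i)) k) =
            Pi.single i (∑ p : Fin (d i), Matrix.single p p (1 : k)) :=
          (map_sum (AddMonoidHom.single (fun i => Matrix (Fin (d i)) (Fin (d i)) k) i)
            (fun p => Matrix.single p p (1 : k)) Finset.univ).symm
        rw [h4]
        congr 1
        ext a b
        rw [Matrix.sum_apply]
        by_cases hab : a = b
        · subst hab
          rw [Matrix.one_apply_eq, Finset.sum_eq_single a]
          · exact Matrix.single_apply_same _ _ _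
          · intro c _ hc
            exact Matrix.single_apply_of_ne _ _ _ _ _ fun h => hc h.1
          · intro h
            exact absurd (Finset.mem_univ _) h
        · rw [Matrix.one_apply_ne hab]
          exact Finset.sum_eq_zero fun c _ =>
            Matrix.single_apply_of_ne _ _ _ _ _ fun h => hab (h.1.symm.trans h.2)
      rw [Finset.sum_congr rfl fun i _ => h2 i]
      exact (Finset.univ_sum_single (1 : (i : Fin r) → Matrix (Fin (d i)) (Fin (d i)) k)).symm
    have hnt : Nontrivial S := IsSimpleModule.nontrivial A S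
    obtain ⟨s, hs⟩ := exists_ne (0 : S)
    have h5 := e6_rad d π hnil _ h1 s
    rw [sub_smul, one_smul, Finset.sum_smul] at h5
    have h6 : ∀ i ∈ (Finset.univ : Finset (Fin r)),
        (∑ p : Fin (d i), v ⟨i, p⟩ * u i * w ⟨i, p⟩) • s = 0 := by
      intro i _
      rw [Finset.sum_smul]
      refine Finset.sum_eq_zero fun p _ => ?_
      rw [mul_smul, mul_smul, hcon, smul_zero]
    rw [Finset.sum_eq_zero h6, sub_zero] at h5
    exact hs h5
  refine ⟨i, ?_⟩
  let φ : A →ₗ[A] S := LinearMap.toSpanSingleton A S (u i • s)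
  have hφ : ∀ a, φ a = a • (u i • s) := fun a => rfl
  have h1 : e6_I d π i ≤ LinearMap.ker φ := by
    intro a ha
    rw [LinearMap.mem_ker, hφ, smul_smul]
    refine e6_rad d π hnil _ ?_ s
    rw [map_mul, hu]
    funext j
    rw [Pi.mul_apply]
    by_cases hj : j = i
    · subst hj
      rw [Pi.single_eq_same]
      ext a' b'
      rw [Pi.zero_apply, Matrix.zero_apply]
      by_cases hb : b' = 0
      · subst hb
        rw [Matrix.mul_single_apply_same, ha a', zero_mul]
      · exact Matrix.mul_single_apply_of_ne _ _ _ _ _ hb _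
    · rw [Pi.single_eq_of_ne hj, mul_zero]
      rfl
  have h2 : LinearMap.ker φ ≠ ⊤ := by
    intro h
    have h3 : (1 : A) ∈ LinearMap.ker φ := by
      rw [h]
      exact Submodule.mem_top
    rw [LinearMap.mem_ker, hφ, one_smul] at h3
    exact hs h3
  have h3 : e6_I d π i = LinearMap.ker φ := by
    rcases h1.eq_or_lt with h | h
    · exact h
    · exact absurd ((e6_coatom d π hπ i).2 _ h) h2
  have h4 : Function.Surjective φ := by
    rcases eq_bot_or_eq_top (LinearMap.range φ) with h | h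
    · have h5 : φ 1 ∈ LinearMap.range φ := ⟨1, rfl⟩
      rw [h, Submodule.mem_bot, hφ, one_smul] at h5
      exact absurd h5 hs
    · exact LinearMap.range_eq_top.1 h
  exact ⟨(Submodule.quotEquivOfEq _ _ h3).trans (φ.quotKerEquivOfSurjective h4)⟩

theorem nonempty_equiv_sm {k A : Type} [Field k] [Ring A] [Algebra k A] {r : ℕ} (d : Fin r → ℕ)
    [hd : ∀ i, NeZero (d i)] (π : A →ₐ[k] ((i : Fin r) → Matrix (Fin (d i)) (Fin (d i)) k))
    (hπ : Function.Surjective π) (hnil : ∀ a, π a = 0 → IsNilpotent a) :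
    Nonempty (Fin r ≃ Quotient (smSetoid A)) := by
  have hsm : ∀ i, IsSimpleModule A (A ⧸ e6_I d π i) := fun i =>
    isSimpleModule_iff_isCoatom.2 (e6_coatom d π hπ i)
  refine ⟨Equiv.ofBijective
    (fun i => Quotient.mk (smSetoid A) (⟨e6_I d π i, hsm i⟩ : SM A)) ⟨?_, ?_⟩⟩
  · intro i j hij
    by_contra hne
    obtain ⟨f⟩ : Nonempty ((A ⧸ e6_I d π i) ≃ₗ[A] (A ⧸ e6_I d π j)) := Quotient.exact hij
    exact e6_ne d π hπ hne f
  · intro q
    obtain ⟨⟨J, hJ⟩, rfl⟩ := Quotient.exists_rep q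
    have hJ' : IsSimpleModule A (A ⧸ J) := hJ
    obtain ⟨i, hi⟩ := e6_surj d π hπ hnil (S := A ⧸ J)
    exact ⟨i, Quotient.sound hi⟩

end Pool.OL95
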