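import Pool.Agent.LibOL95.E3
import Pool.Agent.LibOL95.E4
import Pool.Agent.LibFS95.Defs

/-!
Row E7. Brauer: `r` is the number of classes of `ℓ`-regular elements.

Plan. Let `C` be the type of classes of `ℓ`-regular elements (as in `lreg`), `s_c` a representative. `Ψ : (C → k) →ₗ (Fin r → k)`, `Ψ(x)_i = ∑_c x_c tr(π(s_c) i)`. Surjective: `a ↦ (tr (π a i))_i` is surjective on `A = kG` (`π` is; `Pi.single i (single 0 0 1)`), `A` is spanned by the
`g ∈ G`, and `tr (π g i) = tr (π s i)` for `s` from `exists_regular_part` (`tr(·)^{ℓ^n} = tr(·^{ℓ^n})`, `trace_pow_pow`, and `x ↦ x^{ℓ^n}` is injective on `k`: `frobenius_inj`/`iterateFrobenius`), conjugate elements have the same trace; `s` conjugate to `s_c`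
(`ℓ`-regular). Injective: let `Ψ(x) = 0`, `a = ∑_c x_c s_c`; `π a ∈ KK` (`mem_KK_of_trace`), so `a = κ + j` with `κ ∈ KK A` (lift the commutators, `π` surjective), `π j = 0`, `j` nilpotent. For `n` from `exists_frob` with `n ≥ b` and `j^{ℓ^b} = 0`: `a^{ℓ^n} ∈ KK A`
(`add_pow_pow_sub_mem`, `pow_pow_mem_KK`) and `a^{ℓ^n} ≡ ∑_c x_c^{ℓ^n} s_c^{ℓ^n} = ∑_c x_c^{ℓ^n} s_c` (`sum_pow_pow_sub_mem`); by `KK_class` for the class `c`: `x_c^{ℓ^n} = 0`. Dimensions: `|C| = r`.
(Write `a^{ℓ^n}` for the single elements: `(single s x)^m = single (s^m) (x^m)`.)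
-/

set_option autoImplicit false
noncomputable section
namespace Pool.OL95
open Pool.FS95

theorem e7_lift {A B : Type} [Ring A] [Ring B] (f : A →+* B) (hf : Function.Surjective f) (b : B)
    (hb : b ∈ KK B) : ∃ a ∈ KK A, f a = b := by
  unfold KK at hb
  induction hb using AddSubgroup.closure_induction with
  | mem x hx =>
    obtain ⟨u, v, rfl⟩ := hx
    obtain ⟨u, rfl⟩ := hf u
    obtain ⟨v, rfl⟩ := hf v
    refine ⟨u * v - v * u, AddSubgroup.subset_closure ⟨u, v, rfl⟩, ?_⟩
    rw [map_sub, map_mul, map_mul]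
  | zero => exact ⟨0, (KK A).zero_mem, map_zero f⟩
  | add x y _ _ hx hy =>
    obtain ⟨u, hu, rfl⟩ := hx
    obtain ⟨v, hv, rfl⟩ := hy
    exact ⟨u + v, (KK A).add_mem hu hv, map_add f u v⟩
  | neg x _ hx =>
    obtain ⟨u, hu, rfl⟩ := hx
    exact ⟨-u, (KK A).neg_mem hu, map_neg f u⟩

theorem e7_inj (ℓ : ℕ) [Fact ℓ.Prime] {k : Type} [Field k] [CharP k ℓ] (n : ℕ) {x y : k}
    (h : x ^ ℓ ^ n = y ^ ℓ ^ n) : x = y := by
  have h1 : (x - y) ^ ℓ ^ n = 0 := by
    rw [sub_pow_char_pow, h, sub_self]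
  exact sub_eq_zero.1 (pow_eq_zero_iff (pow_ne_zero n (Fact.out : ℓ.Prime).ne_zero) |>.1 h1)

/-- the traces -/
def e7_T {k : Type} [Field k] {G : Type} [Group G] {r : ℕ} (d : Fin r → ℕ)
    (π : MonoidAlgebra k G →ₐ[k] ((i : Fin r) → Matrix (Fin (d i)) (Fin (d i)) k)) :
    MonoidAlgebra k G →ₗ[k] (Fin r → k) where
  toFun a i := Matrix.trace (π a i)
  map_add' a b := by
    funext i
    show Matrix.trace (π (a + b) i) = Matrix.trace (π a i) + Matrix.trace (π b i)
    rw [map_add, Pi.add_apply, Matrix.trace_add]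
  map_smul' c a := by
    funext i
    show Matrix.trace (π (c • a) i) = c • Matrix.trace (π a i)
    rw [map_smul, Pi.smul_apply, Matrix.trace_smul]

theorem e7_T_apply {k : Type} [Field k] {G : Type} [Group G] {r : ℕ} (d : Fin r → ℕ)
    (π : MonoidAlgebra k G →ₐ[k] ((i : Fin r) → Matrix (Fin (d i)) (Fin (d i)) k))
    (a : MonoidAlgebra k G) (i : Fin r) : e7_T d π a i = Matrix.trace (π a i) := rfl

theorem e7_conj {k : Type} [Field k] {G : Type} [Group G] {r : ℕ} (d : Fin r → ℕ)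
    (π : MonoidAlgebra k G →ₐ[k] ((i : Fin r) → Matrix (Fin (d i)) (Fin (d i)) k))
    (g h : G) : e7_T d π (MonoidAlgebra.single (h * g * h⁻¹) 1) =
      e7_T d π (MonoidAlgebra.single g 1) := by
  funext i
  have e1 : (MonoidAlgebra.single (h * g * h⁻¹) 1 : MonoidAlgebra k G) =
      MonoidAlgebra.single h 1 * (MonoidAlgebra.single g 1 * MonoidAlgebra.single h⁻¹ 1) := by
    rw [MonoidAlgebra.single_mul_single, MonoidAlgebra.single_mul_single, mul_one, mul_one,
      mul_assoc]
  have e2 : (MonoidAlgebra.single g 1 : MonoidAlgebra k G) =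
      (MonoidAlgebra.single g 1 * MonoidAlgebra.single h⁻¹ 1) * MonoidAlgebra.single h 1 := by
    rw [MonoidAlgebra.single_mul_single, MonoidAlgebra.single_mul_single, mul_one, mul_one,
      inv_mul_cancel_right]
  rw [e7_T_apply, e7_T_apply, e1, map_mul, Pi.mul_apply, Matrix.trace_mul_comm,
    ← Pi.mul_apply, ← map_mul, ← e2]

theorem e7_reg (ℓ : ℕ) [Fact ℓ.Prime] {k : Type} [Field k] [CharP k ℓ] {G : Type} [Group G]
    [Finite G] {r : ℕ} (d : Fin r → ℕ)
    (π : MonoidAlgebra k G →ₐ[k] ((i : Fin r) → Matrix (Fin (d i)) (Fin (d i)) k)) (g : G) :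
    ∃ s : G, ¬ ℓ ∣ orderOf s ∧ e7_T d π (MonoidAlgebra.single g 1) =
      e7_T d π (MonoidAlgebra.single s 1) := by
  obtain ⟨s, hs, h⟩ := exists_regular_part ℓ g
  refine ⟨s, hs, ?_⟩
  funext i
  have h1 := h (Nat.card G) le_rfl
  have key : ∀ u : G, (e7_T d π (MonoidAlgebra.single u 1) i) ^ ℓ ^ Nat.card G =
      e7_T d π (MonoidAlgebra.single (u ^ ℓ ^ Nat.card G) 1) i := by
    intro u
    rw [e7_T_apply, e7_T_apply, ← trace_pow_pow ℓ (d i) (Nat.card G)]
    have e1 : (MonoidAlgebra.single (u ^ ℓ ^ Nat.card G) 1 : MonoidAlgebra k G) =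
        (MonoidAlgebra.single u 1) ^ ℓ ^ Nat.card G := by
      rw [MonoidAlgebra.single_pow, one_pow]
    rw [e1, map_pow, Pi.pow_apply]
  refine e7_inj ℓ (Nat.card G) ?_
  rw [key, key, h1]

theorem lreg_eq_r (ℓ : ℕ) [Fact ℓ.Prime] {k : Type} [Field k] [CharP k ℓ] {G : Type} [Group G]
    [Finite G] {r : ℕ} (d : Fin r → ℕ) [hd : ∀ i, NeZero (d i)]
    (π : MonoidAlgebra k G →ₐ[k] ((i : Fin r) → Matrix (Fin (d i)) (Fin (d i)) k))
    (hπ : Function.Surjective π) (hnil : ∀ a, π a = 0 → IsNilpotent a) :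
    lreg ℓ G = r := by
  classical
  let C : Type := {c : ConjClasses G // ∃ g, ConjClasses.mk g = c ∧ ¬ ℓ ∣ orderOf g}
  have iC : Finite (ConjClasses G) := Quotient.finite _
  have iC' : Fintype C := Fintype.ofFinite C
  let s : C → G := fun c => c.2.choose
  have hs1 : ∀ c : C, ConjClasses.mk (s c) = c.1 := fun c => c.2.choose_spec.1
  have hs2 : ∀ c : C, ¬ ℓ ∣ orderOf (s c) := fun c => c.2.choose_spec.2
  have hA : ∀ a : MonoidAlgebra k G, ℓ • a = 0 := by
    intro a
    have h1 : ((ℓ : ℕ) : k) • a = 0 := by rw [CharP.cast_eq_zero, zero_smul]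
    rwa [Nat.cast_smul_eq_nsmul] at h1
  let Q : (C → k) →ₗ[k] MonoidAlgebra k G :=
    { toFun := fun x => ∑ c, MonoidAlgebra.single (s c) (x c)
      map_add' := fun x y => by
        rw [← Finset.sum_add_distrib]
        exact Finset.sum_congr rfl fun c _ => MonoidAlgebra.single_add _ _ _
      map_smul' := fun t x => by
        rw [RingHom.id_apply, Finset.smul_sum]
        exact Finset.sum_congr rfl fun c _ => (MonoidAlgebra.smul_single t (s c) (x c)).symm }
  have hQ : ∀ x, Q x = ∑ c, MonoidAlgebra.single (s c) (x c) := fun x => rfl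
  let Ψ : (C → k) →ₗ[k] (Fin r → k) := (e7_T d π) ∘ₗ Q
  have hsurj : Function.Surjective Ψ := by
    have h1 : ∀ g : G, e7_T d π (MonoidAlgebra.single g 1) ∈ LinearMap.range Ψ := by
      intro g
      obtain ⟨u, hu, h⟩ := e7_reg ℓ d π g
      let c : C := ⟨ConjClasses.mk u, u, rfl, hu⟩
      have h2 : IsConj (s c) u := ConjClasses.mk_eq_mk_iff_isConj.1 (hs1 c)
      obtain ⟨v, hv⟩ := isConj_iff.1 h2
      refine ⟨Pi.single c 1, ?_⟩
      have h3 : Q (Pi.single c 1) = MonoidAlgebra.single (s c) 1 := by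
        rw [hQ, Finset.sum_eq_single c]
        · rw [Pi.single_eq_same]
        · intro c' _ hc'
          rw [Pi.single_eq_of_ne hc', MonoidAlgebra.single_zero]
        · intro hc
          exact absurd (Finset.mem_univ _) hc
      show e7_T d π (Q (Pi.single c 1)) = _
      rw [h3, h, ← hv, e7_conj]
    have h2 : ∀ a, e7_T d π a ∈ LinearMap.range Ψ := by
      intro a
      induction a using MonoidAlgebra.induction_linear with
      | zero =>
        rw [map_zero]
        exact Submodule.zero_mem _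
      | add x y hx hy =>
        rw [map_add]
        exact Submodule.add_mem _ hx hy
      | single g c =>
        have e1 : (MonoidAlgebra.single g c : MonoidAlgebra k G) = c • MonoidAlgebra.single g 1 := by
          rw [MonoidAlgebra.smul_single, smul_eq_mul, mul_one]
        rw [e1, map_smul]
        exact Submodule.smul_mem _ _ (h1 g)
    intro y
    obtain ⟨a, ha⟩ := hπ fun i => Matrix.single (0 : Fin (d i)) 0 (y i)
    have h3 : e7_T d π a = y := by
      funext i
      rw [e7_T_apply, ha, Matrix.trace_single_eq_same]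
    have h4 := h2 a
    rw [h3] at h4
    exact h4
  have hinj : Function.Injective Ψ := by
    rw [injective_iff_map_eq_zero]
    intro x hx
    have h0 : ∀ i, Matrix.trace (π (Q x) i) = 0 := fun i => congrFun hx i
    obtain ⟨κ, hκ, hκ'⟩ := e7_lift (π : MonoidAlgebra k G →+* _) hπ _ (mem_KK_of_trace d _ h0)
    have hj : π (Q x - κ) = 0 := by
      rw [map_sub]
      exact sub_eq_zero.2 hκ'.symm
    obtain ⟨N, hN⟩ := hnil _ hj
    obtain ⟨n, hn, hfr⟩ := exists_frob ℓ G N
    have hjn : (Q x - κ) ^ ℓ ^ n = 0 := by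
      refine pow_eq_zero_of_le ?_ hN
      exact hn.trans (Nat.lt_pow_self (Fact.out : ℓ.Prime).one_lt).le
    have h1 : Q x ^ ℓ ^ n ∈ KK (MonoidAlgebra k G) := by
      have h2 := add_pow_pow_sub_mem ℓ _ hA n κ (Q x - κ)
      rw [add_sub_cancel, hjn, add_zero] at h2
      have h3 := (KK _).add_mem h2 (pow_pow_mem_KK ℓ _ hA n κ hκ)
      rwa [sub_add_cancel] at h3
    have h2 := sum_pow_pow_sub_mem ℓ _ hA n Finset.univ
      fun c : C => (MonoidAlgebra.single (s c) (x c) : MonoidAlgebra k G)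
    rw [← hQ] at h2
    have h3 : ∑ c : C, (MonoidAlgebra.single (s c) (x c ^ ℓ ^ n) : MonoidAlgebra k G) ∈
        KK (MonoidAlgebra k G) := by
      have h4 := (KK _).sub_mem h1 h2
      rw [sub_sub_cancel] at h4
      have h5 : ∀ c ∈ (Finset.univ : Finset C),
          (MonoidAlgebra.single (s c) (x c) : MonoidAlgebra k G) ^ ℓ ^ n =
          MonoidAlgebra.single (s c) (x c ^ ℓ ^ n) := by
        intro c _
        rw [MonoidAlgebra.single_pow, hfr _ (hs2 c)]
      rwa [Finset.sum_congr rfl h5] at h4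
    funext c0
    have h4 := KK_class _ h3 c0.1
    have h5 : ∀ g : G, (∑ c : C, (MonoidAlgebra.single (s c) (x c ^ ℓ ^ n) :
        MonoidAlgebra k G)).coeff g = ∑ c : C, if s c = g then x c ^ ℓ ^ n else 0 := by
      intro g
      rw [MonoidAlgebra.coeff_sum, Finsupp.finsetSum_apply]
      refine Finset.sum_congr rfl fun c _ => ?_
      rw [MonoidAlgebra.coeff_single, Finsupp.single_apply]
    have h6 : ∀ g : G, ConjClasses.mk g = c0.1 →
        (∑ c : C, if s c = g then x c ^ ℓ ^ n else 0) = if s c0 = g then x c0 ^ ℓ ^ n else 0 := by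
      intro g hg
      refine Finset.sum_eq_single c0 ?_ ?_
      · intro c _ hc
        refine if_neg fun h => hc (Subtype.ext ?_)
        rw [← hs1 c, h, hg]
      · intro hc
        exact absurd (Finset.mem_univ _) hc
    rw [finsum_eq_single _ (⟨s c0, hs1 c0⟩ : {g : G // ConjClasses.mk g = c0.1})] at h4
    · rw [h5, h6 _ (hs1 c0), if_pos rfl] at h4
      exact pow_eq_zero_iff (pow_ne_zero n (Fact.out : ℓ.Prime).ne_zero) |>.1 h4
    · intro g hg
      rw [h5, h6 _ g.2]
      exact if_neg fun h => hg (Subtype.ext h.symm)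
  have e := (LinearEquiv.ofBijective Ψ ⟨hinj, hsurj⟩).finrank_eq
  rw [Module.finrank_fintype_fun_eq_card, Module.finrank_fintype_fun_eq_card, Fintype.card_fin] at e
  have h7 : Nat.card C = r := by rw [Nat.card_eq_fintype_card, e]
  show (Nat.card C : ℤ) = r
  rw [h7]

end Pool.OL95
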