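import Pool.Agent.LibOL95.D7
import Pool.Agent.LibOL95.D8
import Pool.Agent.LibOL95.E5
import Pool.Agent.LibOL95.E6
import Pool.Agent.LibOL95.E7
import Pool.Agent.LibFS95.Main3

/-! Alperin's weight conjecture, number form, for groups of order not divisible by `ℓ²`. -/

set_option autoImplicit false
noncomputable section
namespace Pool.OL95
open Pool.FS95

/-- Brauer: the number of simple modules. -/
theorem card_sm_eq_lreg (ℓ : ℕ) [Fact ℓ.Prime] (k : Type) [Field k] [IsAlgClosed k] [CharP k ℓ]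
    (G : Type) [Group G] [Finite G] : Finite (Quotient (smSetoid (MonoidAlgebra k G))) ∧
      (Nat.card (Quotient (smSetoid (MonoidAlgebra k G))) : ℤ) = lreg ℓ G := by
  obtain ⟨r, d, hd, π, hπ, hnil⟩ := exists_pi_matrix k (MonoidAlgebra k G)
  obtain ⟨e⟩ := nonempty_equiv_sm d π hπ hnil
  refine ⟨Finite.of_equiv _ e, ?_⟩
  rw [lreg_eq_r ℓ d π hπ hnil, ← Nat.card_congr e, Nat.card_fin]

theorem awc_of_dat {ℓ : ℕ} [Fact ℓ.Prime] (k : Type) [Field k] [IsAlgClosed k] [CharP k ℓ]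
    {G : Type} [Group G] [Finite G] {x : G} {E : Subgroup G} (hd : Dat ℓ x E) : AWCfor ℓ k G := by
  obtain ⟨h1, h2⟩ := card_sm_eq_lreg ℓ k G
  rw [AWCfor, weights_eq k hd, ← h2, card_sm_split k G h1, np_eq k hd]
  rfl

/-- Alperin's weight conjecture (number form) holds for `G` if `ℓ²` does not divide `|G|`. -/
theorem awc_of_not_sq_dvd (ℓ : ℕ) [Fact ℓ.Prime] (k : Type) [Field k] [IsAlgClosed k] [CharP k ℓ]
    (G : Type) [Group G] [Finite G] (h : ¬ ℓ ^ 2 ∣ Nat.card G) : AWCfor ℓ k G := by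
  by_cases h1 : ℓ ∣ Nat.card G
  · obtain ⟨x, E, hd⟩ := exists_dat h1 h
    exact awc_of_dat k hd
  · have hsub : Subsingleton (G ⧸ (⊤ : Subgroup G)) := QuotientGroup.subsingleton_quotient_top
    refine awc_of_nilCyc ℓ k _ G rfl ⟨⊤, inferInstance, ?_, ?_, ?_⟩
    · rwa [Subgroup.card_top]
    · intro g
      refine ⟨0, ?_⟩
      rw [pow_zero, pow_one]
      exact Subsingleton.elim _ _
    · exact isCyclic_of_subsingleton

end Pool.OL95
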