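import Pool.Agent.LibOL95.Defs

/-!
Row G1. Relative injectivity; direct summands.

Plan. (extend) `β v = ∑_g ρ' g (θ (α (ρ g⁻¹ v)))` with `θ` of `Hig ρ'`; on `X` : `α (ρ g⁻¹ v) = ρ' g⁻¹ (α v)`. (summand) `θ' = pr ∘ θ ∘ incl`, `pr` the projection onto `U` along `U'`
(equivariant because `U`, `U'` are stable). (isom) transport `θ`.
-/

set_option autoImplicit false
noncomputable section
namespace Pool.OL95

private theorem g1_rr {k : Type} [Field k] {G : Type} [Group G] {V : Type}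
    [AddCommGroup V] [Module k V] (ρ : Representation k G V) (g h : G) (v : V) :
    ρ g (ρ h v) = ρ (g * h) v := by
  rw [map_mul]; rfl

theorem hig_extend {k : Type} [Field k] {G : Type} [Group G] [Finite G] {V V' : Type}
    [AddCommGroup V] [Module k V] [AddCommGroup V'] [Module k V'] (ρ : Representation k G V)
    (ρ' : Representation k G V') (h : Hig ρ') (X : Submodule k V) (hX : Stb ρ X) (α : V →ₗ[k] V')
    (hα : ∀ g, ∀ v ∈ X, α (ρ g v) = ρ' g (α v)) :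
    ∃ β : V →ₗ[k] V', Eqv ρ ρ' β ∧ ∀ v ∈ X, β v = α v := by
  classical
  have := Fintype.ofFinite G
  obtain ⟨θ, hθ⟩ := h
  have hb : ∀ v, (∑ g : G, (ρ' g ∘ₗ θ ∘ₗ α ∘ₗ ρ g⁻¹)) v = ∑ g : G, ρ' g (θ (α (ρ g⁻¹ v))) := by
    intro v
    rw [LinearMap.sum_apply]
    rfl
  refine ⟨∑ g : G, (ρ' g ∘ₗ θ ∘ₗ α ∘ₗ ρ g⁻¹), ?_, ?_⟩
  · intro h v
    rw [hb, hb, map_sum]
    refine Fintype.sum_equiv (Equiv.mulLeft h⁻¹) _ _ fun g => ?_
    rw [Equiv.coe_mulLeft, g1_rr, g1_rr, mul_inv_rev, inv_inv, mul_inv_cancel_left]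
  · intro v hv
    rw [hb, ← hθ (α v), finsum_eq_sum_of_fintype]
    refine Finset.sum_congr rfl fun g _ => ?_
    rw [hα _ v hv]

theorem hig_summand {k : Type} [Field k] {G : Type} [Group G] [Finite G] {V : Type}
    [AddCommGroup V] [Module k V] (ρ : Representation k G V) (h : Hig ρ) (U U' : Submodule k V)
    (hU : Stb ρ U) (hU' : Stb ρ U') (hc : IsCompl U U') : Hig (subRep ρ U hU) := by
  classical
  have := Fintype.ofFinite G
  obtain ⟨θ, hθ⟩ := h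
  obtain ⟨pr, hpr⟩ : ∃ pr, pr = U.projectionOnto U' hc := ⟨_, rfl⟩
  have h1 : ∀ u : U, pr u = u := by
    intro u
    rw [hpr]; exact Submodule.projectionOnto_apply_left hc u
  have h2 : ∀ u ∈ U', pr u = 0 := by
    intro u hu
    rw [hpr]; exact (Submodule.projectionOnto_apply_eq_zero_iff hc).2 hu
  have h3 : ∀ g v, subRep ρ U hU g (pr v) = pr (ρ g v) := by
    intro g v
    obtain ⟨a, ha, b, hb, rfl⟩ := Submodule.mem_sup.1 (hc.sup_eq_top ▸ Submodule.mem_top : v ∈ U ⊔ U')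
    rw [map_add pr, h2 b hb, add_zero, map_add (ρ g), map_add pr, h2 _ (hU' g b hb), add_zero]
    have e1 : pr a = ⟨a, ha⟩ := h1 ⟨a, ha⟩
    have e2 : pr (ρ g a) = ⟨ρ g a, hU g a ha⟩ := h1 ⟨ρ g a, hU g a ha⟩
    rw [e1, e2]
    exact Subtype.ext (subRep_coe ρ U hU g ⟨a, ha⟩)
  refine ⟨pr ∘ₗ θ ∘ₗ U.subtype, fun v => ?_⟩
  rw [finsum_eq_sum_of_fintype]
  have h4 : ∀ g : G, subRep ρ U hU g ((pr ∘ₗ θ ∘ₗ U.subtype) (subRep ρ U hU g⁻¹ v)) =
      pr (ρ g (θ (ρ g⁻¹ v))) := by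
    intro g
    rw [← h3]
    rfl
  rw [Finset.sum_congr rfl fun g _ => h4 g, ← map_sum]
  have h5 := hθ v
  rw [finsum_eq_sum_of_fintype] at h5
  rw [h5, h1]

theorem hig_isom {k : Type} [Field k] {G : Type} [Group G] [Finite G] {V V' : Type}
    [AddCommGroup V] [Module k V] [AddCommGroup V'] [Module k V'] (ρ : Representation k G V)
    (ρ' : Representation k G V') (h : Hig ρ) (e : Isom ρ ρ') : Hig ρ' := by
  classical
  have := Fintype.ofFinite G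
  obtain ⟨θ, hθ⟩ := h
  obtain ⟨e, he⟩ := e
  have he' : ∀ g w, e.symm (ρ' g w) = ρ g (e.symm w) := by
    intro g w
    rw [LinearEquiv.symm_apply_eq, he, LinearEquiv.apply_symm_apply]
  refine ⟨e.toLinearMap ∘ₗ θ ∘ₗ e.symm.toLinearMap, fun v => ?_⟩
  rw [finsum_eq_sum_of_fintype]
  have h4 : ∀ g : G, ρ' g ((e.toLinearMap ∘ₗ θ ∘ₗ e.symm.toLinearMap) (ρ' g⁻¹ v)) =
      e (ρ g (θ (ρ g⁻¹ (e.symm v)))) := by
    intro g
    rw [he, ← he']
    rfl
  rw [Finset.sum_congr rfl fun g _ => h4 g, ← map_sum]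
  have h5 := hθ (e.symm v)
  rw [finsum_eq_sum_of_fintype] at h5
  rw [h5, LinearEquiv.apply_symm_apply]

end Pool.OL95
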