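import Pool.Agent.LibOL95.Defs

/-!
Row G2. A trace map factors through a free representation.

Plan. `F = (G → S)` with `(g f)(y) = f (y g)`; `u s = (y ↦ y s)`; `v f = ∑_y y⁻¹ β (f y)`. `v (g f) = ∑_y y⁻¹ β (f (y g)) = ∑_z g z⁻¹ β (f z) = g (v f)`.
`v (u s) = ∑_y y⁻¹ β (y s)`, substitute `g = y⁻¹`. Higman for `F`: `θ f = (y ↦ if y = 1 then f 1 else 0)`; `∑_g (g θ (g⁻¹ f))(y) = ∑_g (θ (g⁻¹ f))(y g) = (g⁻¹ f)(1)` for
`g = y⁻¹`, `= f (1 * g⁻¹) = f y`.
-/

set_option autoImplicit false
noncomputable section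
namespace Pool.OL95

private theorem g2_rr {k : Type} [Field k] {G : Type} [Group G] {V : Type}
    [AddCommGroup V] [Module k V] (ρ : Representation k G V) (g h : G) (v : V) :
    ρ g (ρ h v) = ρ (g * h) v := by
  rw [map_mul]; rfl

/-- The free representation. -/
def g2_F (k : Type) [Field k] (G : Type) [Group G] (S : Type) [AddCommGroup S] [Module k S] :
    Representation k G (G → S) where
  toFun g :=
    { toFun := fun f y => f (y * g)
      map_add' := fun _ _ => rfl
      map_smul' := fun _ _ => rfl }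
  map_one' := by
    refine LinearMap.ext fun f => funext fun y => ?_
    change f (y * 1) = f y
    rw [mul_one]
  map_mul' g h := by
    refine LinearMap.ext fun f => funext fun y => ?_
    change f (y * (g * h)) = f (y * g * h)
    rw [mul_assoc]

theorem g2_F_apply (k : Type) [Field k] (G : Type) [Group G] (S : Type) [AddCommGroup S]
    [Module k S] (g : G) (f : G → S) (y : G) : g2_F k G S g f y = f (y * g) := rfl

theorem factor_free {k : Type} [Field k] {G : Type} [Group G] [Finite G] {S M : Type}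
    [AddCommGroup S] [Module k S] [FiniteDimensional k S] [AddCommGroup M] [Module k M]
    (ρS : Representation k G S) (ρM : Representation k G M) (β : S →ₗ[k] M) :
    ∃ (F : Type) (_ : AddCommGroup F) (_ : Module k F) (_ : FiniteDimensional k F)
      (ρF : Representation k G F) (u : S →ₗ[k] F) (v : F →ₗ[k] M), Hig ρF ∧ Eqv ρS ρF u ∧
        Eqv ρF ρM v ∧ ∀ s, v (u s) = ∑ᶠ g : G, ρM g (β (ρS g⁻¹ s)) := by
  classical
  have := Fintype.ofFinite G
  refine ⟨G → S, inferInstance, inferInstance, inferInstance, g2_F k G S,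
    LinearMap.pi fun y => ρS y, ∑ y : G, (ρM y⁻¹ ∘ₗ β ∘ₗ LinearMap.proj y), ?_, ?_, ?_, ?_⟩
  · refine ⟨{ toFun := fun f y => if y = 1 then f 1 else 0
              map_add' := fun f g => ?_
              map_smul' := fun c f => ?_ }, fun f => ?_⟩
    · funext y
      by_cases hy : y = 1 <;> simp [hy]
    · funext y
      by_cases hy : y = 1 <;> simp [hy]
    · rw [finsum_eq_sum_of_fintype]
      funext y
      rw [Finset.sum_apply, Finset.sum_eq_single y⁻¹]
      · rw [g2_F_apply]
        simp only [LinearMap.coe_mk, AddHom.coe_mk]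
        rw [if_pos (by rw [mul_inv_cancel]), g2_F_apply, inv_inv, one_mul]
      · intro g _ hg
        rw [g2_F_apply]
        simp only [LinearMap.coe_mk, AddHom.coe_mk]
        rw [if_neg]
        intro h
        exact hg (eq_inv_of_mul_eq_one_right h)
      · intro h
        exact absurd (Finset.mem_univ _) h
  · intro g s
    funext y
    rw [g2_F_apply]
    change ρS y (ρS g s) = ρS (y * g) s
    rw [g2_rr]
  · intro g f
    rw [LinearMap.sum_apply, LinearMap.sum_apply, map_sum]
    refine Fintype.sum_equiv (Equiv.mulRight g) _ _ fun y => ?_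
    change ρM y⁻¹ (β (f (y * g))) = ρM g (ρM (y * g)⁻¹ (β (f (y * g))))
    rw [g2_rr, mul_inv_rev, mul_inv_cancel_left]
  · intro s
    rw [LinearMap.sum_apply, finsum_eq_sum_of_fintype]
    refine Fintype.sum_equiv (Equiv.inv G) _ _ fun y => ?_
    change ρM y⁻¹ (β (ρS y s)) = ρM y⁻¹ (β (ρS (y⁻¹)⁻¹ s))
    rw [inv_inv]

end Pool.OL95
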