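import Pool.Agent.LibOL95.Defs

/-!
Row G4. Coinduction from `N = ⟨x⟩E`.

Plan for `exists_coi_J`. `(J w) y = τ e w` if `y = x^i e`, `e ∈ E`, and `0` if `y ∉ NN x`. Well defined: `x^i e = x^i' e'` gives `e' e⁻¹ ∈ ⟨x⟩ ⊓ E = ⊥` (`Subgroup.disjoint`: coprime orders, `Dat.cE`, `Dat.ox`), so `e = e'`. Membership in `coiSub`: for `y = x^i e`:
`e' x^i e = x^i' e' e` (`e' ∈ NN x`, `Dat.nE`), so `(J w)(e' y) = τ (e' e) w`; `(J w)(x y) = τ e w`. For `y ∉ NN x` also `e' y, x y ∉ NN x`.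
`J_D`: `(J w)(y x) = (J w) y` for all `y`.
-/

set_option autoImplicit false
noncomputable section
namespace Pool.OL95

variable {k : Type} [Field k] {G : Type} [Group G] {W : Type} [AddCommGroup W] [Module k W]

/-- The space of the coinduced representation. -/
def coiSub (x : G) (E : Subgroup G) (τ : Representation k E W) : Submodule k (G → W) where
  carrier := {f | (∀ (e : E) y, f (e * y) = τ e (f y)) ∧ ∀ y, f (x * y) = f y}
  add_mem' := by
    rintro f g ⟨h1, h2⟩ ⟨h3, h4⟩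
    refine ⟨fun e y => ?_, fun y => ?_⟩
    · rw [Pi.add_apply, Pi.add_apply, h1, h3, map_add]
    · rw [Pi.add_apply, Pi.add_apply, h2, h4]
  zero_mem' := by
    refine ⟨fun e y => ?_, fun y => rfl⟩
    rw [Pi.zero_apply, Pi.zero_apply, map_zero]
  smul_mem' := by
    rintro c f ⟨h1, h2⟩
    refine ⟨fun e y => ?_, fun y => ?_⟩
    · rw [Pi.smul_apply, Pi.smul_apply, h1, map_smul]
    · rw [Pi.smul_apply, Pi.smul_apply, h2]

/-- The coinduced representation: `(g f)(y) = f (y g)`. -/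
def coi (x : G) (E : Subgroup G) (τ : Representation k E W) :
    Representation k G (coiSub x E τ) where
  toFun g :=
    { toFun := fun f => ⟨fun y => f.1 (y * g), by
        refine ⟨fun e y => ?_, fun y => ?_⟩
        · change f.1 (e * y * g) = τ e (f.1 (y * g))
          rw [mul_assoc]; exact f.2.1 e (y * g)
        · change f.1 (x * y * g) = f.1 (y * g)
          rw [mul_assoc]; exact f.2.2 (y * g)⟩
      map_add' := fun f f' => rfl
      map_smul' := fun c f => rfl }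
  map_one' := by
    ext f y
    change f.1 (y * 1) = f.1 y
    rw [mul_one]
  map_mul' g h := by
    ext f y
    change f.1 (y * (g * h)) = f.1 (y * g * h)
    rw [mul_assoc]

theorem coi_apply (x : G) (E : Subgroup G) (τ : Representation k E W) (g : G) (f : coiSub x E τ)
    (y : G) : (coi x E τ g f).1 y = f.1 (y * g) := rfl

/-- Evaluation at `1`. -/
def coiEv (x : G) (E : Subgroup G) (τ : Representation k E W) : coiSub x E τ →ₗ[k] W where
  toFun f := f.1 1
  map_add' _ _ := rfl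
  map_smul' _ _ := rfl

theorem coiEv_E (x : G) (E : Subgroup G) (τ : Representation k E W) (e : E) (f : coiSub x E τ) :
    coiEv x E τ (coi x E τ e f) = τ e (coiEv x E τ f) := by
  change f.1 (1 * e) = τ e (f.1 1)
  rw [one_mul, ← f.2.1 e 1, mul_one]

theorem coiEv_D (x : G) (E : Subgroup G) (τ : Representation k E W) (f : coiSub x E τ) :
    coiEv x E τ (DD (coi x E τ) x f) = 0 := by
  rw [DD_apply, map_sub]
  change f.1 (1 * x) - f.1 1 = 0
  rw [one_mul, ← f.2.2 1, mul_one, sub_self]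

private theorem g4_mem (x : G) (i : ℕ) : x ^ i ∈ NN x := by
  unfold NN
  exact Subgroup.le_normalizer (Subgroup.npow_mem_zpowers x i)

private theorem g4_comm [Finite G] {x : G} {n : G} (hn : n ∈ NN x) (i : ℕ) :
    ∃ j : ℕ, n * x ^ i = x ^ j * n := by
  unfold NN at hn
  have h1 : n * x ^ i * n⁻¹ ∈ Subgroup.zpowers x :=
    (Subgroup.mem_normalizer_iff.1 hn (x ^ i)).1 (Subgroup.npow_mem_zpowers x i)
  obtain ⟨j, hj⟩ := mem_powers_iff_mem_zpowers.2 h1
  refine ⟨j, ?_⟩
  have h2 : x ^ j = n * x ^ i * n⁻¹ := hj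
  rw [h2, inv_mul_cancel_right]

private theorem g4_uni {ℓ : ℕ} [Fact ℓ.Prime] [Finite G] {x : G} {E : Subgroup G}
    (hd : Dat ℓ x E) {i j : ℕ} {e e' : E} (h : x ^ i * (e : G) = x ^ j * e') : e = e' := by
  have h1 : (e' : G) * (e : G)⁻¹ ∈ Subgroup.zpowers x ⊓ E := by
    refine ⟨?_, E.mul_mem e'.2 (E.inv_mem e.2)⟩
    have h2 : (e' : G) * (e : G)⁻¹ = (x ^ j)⁻¹ * x ^ i := by
      rw [mul_inv_eq_iff_eq_mul, mul_assoc, h, inv_mul_cancel_left]
    rw [h2]
    exact (Subgroup.zpowers x).mul_mem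
      ((Subgroup.zpowers x).inv_mem (Subgroup.npow_mem_zpowers x j)) (Subgroup.npow_mem_zpowers x i)
  have h3 : Subgroup.zpowers x ⊓ E = ⊥ := by
    refine (Subgroup.disjoint_of_coprime_natCard ?_).eq_bot
    rw [Nat.card_zpowers, hd.ox]
    exact ((Fact.out : ℓ.Prime).coprime_iff_not_dvd).2 hd.cE
  rw [h3, Subgroup.mem_bot, mul_inv_eq_one] at h1
  exact Subtype.ext h1.symm

open Classical in
private def g4F (x : G) (E : Subgroup G) (τ : Representation k E W) (w : W) (y : G) : W :=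
  if h : ∃ e : E, ∃ i : ℕ, y = x ^ i * (e : G) then τ h.choose w else 0

private theorem g4F_eq {ℓ : ℕ} [Fact ℓ.Prime] [Finite G] {x : G} {E : Subgroup G}
    (hd : Dat ℓ x E) (τ : Representation k E W) (w : W) (i : ℕ) (e : E) :
    g4F x E τ w (x ^ i * e) = τ e w := by
  have h : ∃ e' : E, ∃ j : ℕ, x ^ i * (e : G) = x ^ j * (e' : G) := ⟨e, i, rfl⟩
  unfold g4F
  rw [dif_pos h]
  obtain ⟨j, hj⟩ := h.choose_spec
  rw [← g4_uni hd hj]

private theorem g4F_zero {ℓ : ℕ} {x : G} {E : Subgroup G}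
    (hd : Dat ℓ x E) (τ : Representation k E W) (w : W) {y : G} (hy : y ∉ NN x) :
    g4F x E τ w y = 0 := by
  unfold g4F
  rw [dif_neg]
  rintro ⟨e, i, h⟩
  apply hy
  rw [h]
  exact mul_mem (g4_mem x i) (hd.nE e.2)

private theorem g4F_left {ℓ : ℕ} [Fact ℓ.Prime] [Finite G] {x : G} {E : Subgroup G}
    (hd : Dat ℓ x E) (τ : Representation k E W) (w : W) :
    (∀ (e : E) y, g4F x E τ w (e * y) = τ e (g4F x E τ w y)) ∧
      (∀ y, g4F x E τ w (x * y) = g4F x E τ w y) ∧
      ∀ y, g4F x E τ w (y * x) = g4F x E τ w y := by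
  refine ⟨fun e y => ?_, fun y => ?_, fun y => ?_⟩
  · by_cases hy : y ∈ NN x
    · obtain ⟨i, e', he', rfl⟩ := hd.nN y hy
      obtain ⟨j, hj⟩ := g4_comm (hd.nE e.2) i
      have h1 : (e : G) * (x ^ i * e') = x ^ j * ((e * ⟨e', he'⟩ : E) : G) := by
        rw [← mul_assoc, hj, mul_assoc]
        rfl
      have h2 := g4F_eq hd τ w i ⟨e', he'⟩
      rw [h1, g4F_eq hd]
      change _ = τ e (g4F x E τ w (x ^ i * ((⟨e', he'⟩ : E) : G)))
      rw [h2, map_mul]
      rfl
    · have h1 : (e : G) * y ∉ NN x := fun h => hy ((Subgroup.mul_mem_cancel_left _ (hd.nE e.2)).1 h)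
      rw [g4F_zero hd τ w hy, g4F_zero hd τ w h1, map_zero]
  · by_cases hy : y ∈ NN x
    · obtain ⟨i, e', he', rfl⟩ := hd.nN y hy
      have h1 : x * (x ^ i * e') = x ^ (i + 1) * ((⟨e', he'⟩ : E) : G) := by
        rw [← mul_assoc, pow_succ']
      rw [h1, g4F_eq hd]
      exact (g4F_eq hd τ w i ⟨e', he'⟩).symm
    · have h1 : x * y ∉ NN x := fun h => hy
        ((Subgroup.mul_mem_cancel_left _ (by simpa using g4_mem x 1)).1 h)
      rw [g4F_zero hd τ w hy, g4F_zero hd τ w h1]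
  · by_cases hy : y ∈ NN x
    · obtain ⟨i, e', he', rfl⟩ := hd.nN y hy
      obtain ⟨j, hj⟩ := g4_comm (hd.nE he') 1
      rw [pow_one] at hj
      have h1 : x ^ i * e' * x = x ^ (i + j) * ((⟨e', he'⟩ : E) : G) := by
        rw [mul_assoc, hj, ← mul_assoc, ← pow_add]
      rw [h1, g4F_eq hd]
      exact (g4F_eq hd τ w i ⟨e', he'⟩).symm
    · have h1 : y * x ∉ NN x := fun h => hy
        ((Subgroup.mul_mem_cancel_right _ (by simpa using g4_mem x 1)).1 h)
      rw [g4F_zero hd τ w hy, g4F_zero hd τ w h1]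

theorem exists_coi_J {ℓ : ℕ} [Fact ℓ.Prime] [Finite G] {x : G} {E : Subgroup G} (hd : Dat ℓ x E)
    (τ : Representation k E W) :
    ∃ J : W →ₗ[k] coiSub x E τ, (∀ w (i : ℕ) (e : E), (J w).1 (x ^ i * e) = τ e w) ∧
      (∀ w (i : ℕ) (e : E), (J w).1 (e * x ^ i) = τ e w) ∧
      (∀ w y, y ∉ NN x → (J w).1 y = 0) ∧ ∀ w, DD (coi x E τ) x (J w) = 0 := by
  have hadd : ∀ w w' y, g4F x E τ (w + w') y = g4F x E τ w y + g4F x E τ w' y := by
    intro w w' y
    unfold g4F
    split_ifs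
    · rw [map_add]
    · rw [add_zero]
  have hsmul : ∀ (c : k) w y, g4F x E τ (c • w) y = c • g4F x E τ w y := by
    intro c w y
    unfold g4F
    split_ifs
    · rw [map_smul]
    · rw [smul_zero]
  refine ⟨{ toFun := fun w => ⟨g4F x E τ w, (g4F_left hd τ w).1, (g4F_left hd τ w).2.1⟩
            map_add' := fun w w' => Subtype.ext (funext fun y => hadd w w' y)
            map_smul' := fun c w => Subtype.ext (funext fun y => hsmul c w y) },
    fun w i e => g4F_eq hd τ w i e, fun w i e => ?_, fun w y hy => g4F_zero hd τ w hy,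
    fun w => ?_⟩
  · obtain ⟨j, hj⟩ := g4_comm (hd.nE e.2) i
    change g4F x E τ w (e * x ^ i) = τ e w
    rw [hj, g4F_eq hd]
  · rw [DD_apply, sub_eq_zero]
    exact Subtype.ext (funext fun y => (g4F_left hd τ w).2.2 y)

end Pool.OL95
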