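import Pool.Agent.LibOL95.Defs

/-!
Row G5. Sums over `N = E⟨x⟩`.

Plan. `E × Fin ℓ → NN x`, `(e, i) ↦ e x^i`, is a bijection: surjective by `Dat.nN` for the inverse (`g⁻¹ = x^i e`, `g = e⁻¹ x^{-i}`), injective as `E ⊓ ⟨x⟩ = ⊥` (coprime orders) and
`x^i = x^i'` with `i, i' < ℓ` gives `i = i'`.
-/

set_option autoImplicit false
noncomputable section
namespace Pool.OL95

theorem sum_NN {ℓ : ℕ} [Fact ℓ.Prime] {G M : Type} [Group G] [Finite G] [AddCommMonoid M] {x : G}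
    {E : Subgroup G} (hd : Dat ℓ x E) (F : G → M) (hF : ∀ y, y ∉ NN x → F y = 0) :
    ∑ᶠ g : G, F g = ∑ᶠ e : E, ∑ i ∈ Finset.range ℓ, F (e * x ^ i) := by
  classical
  have iG : Fintype G := Fintype.ofFinite G
  have hx : x ∈ NN x := Subgroup.le_normalizer (Subgroup.mem_zpowers x)
  rw [finsum_eq_sum_of_fintype, finsum_eq_sum_of_fintype]
  have e1 : ∑ g : G, F g = ∑ g ∈ Finset.univ.filter (fun g => g ∈ NN x), F g := by
    refine (Finset.sum_subset (Finset.filter_subset _ _) ?_).symm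
    intro y _ hy
    exact hF y (fun h => hy (Finset.mem_filter.2 ⟨Finset.mem_univ _, h⟩))
  rw [e1, ← Finset.sum_product']
  symm
  refine Finset.sum_bij (fun p _ => (p.1 : G) * x ^ p.2) ?_ ?_ ?_ ?_
  · intro p _
    exact Finset.mem_filter.2 ⟨Finset.mem_univ _,
      (NN x).mul_mem (hd.nE p.1.2) ((NN x).pow_mem hx p.2)⟩
  · rintro ⟨e, i⟩ hi ⟨e', i'⟩ hi' h
    have hi1 : i < ℓ := Finset.mem_range.1 (Finset.mem_product.1 hi).2
    have hi2 : i' < ℓ := Finset.mem_range.1 (Finset.mem_product.1 hi').2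
    have h' : (e : G) * x ^ i = (e' : G) * x ^ i' := h
    have h1 : (e' : G)⁻¹ * e = x ^ i' * (x ^ i)⁻¹ := by
      rw [inv_mul_eq_iff_eq_mul, ← mul_assoc, ← h', mul_assoc, mul_inv_cancel, mul_one]
    have h2 : (e'⁻¹ * e : E) = 1 := by
      have a1 : orderOf (e'⁻¹ * e : E) ∣ Nat.card E := orderOf_dvd_natCard _
      have a2 : orderOf (e'⁻¹ * e : E) ∣ ℓ := by
        refine orderOf_dvd_of_pow_eq_one (Subtype.ext ?_)
        show ((e' : G)⁻¹ * e) ^ ℓ = 1
        rw [h1]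
        have a3 : Commute (x ^ i') (x ^ i)⁻¹ := ((Commute.refl x).pow_pow i' i).inv_right
        rw [a3.mul_pow, inv_pow, ← pow_mul, ← pow_mul, mul_comm i', mul_comm i, pow_mul, pow_mul,
          ← hd.ox, pow_orderOf_eq_one, one_pow, one_pow, inv_one, mul_one]
      have a4 : Nat.Coprime ℓ (Nat.card E) :=
        ((Fact.out : ℓ.Prime).coprime_iff_not_dvd).2 hd.cE
      have a5 := Nat.dvd_gcd a2 a1
      rw [a4.gcd_eq_one] at a5
      exact orderOf_eq_one_iff.1 (Nat.dvd_one.1 a5)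
    have h3 : e = e' := (inv_mul_eq_one.1 h2).symm
    subst h3
    have h4 := mul_left_cancel h'
    have h5 : i = i' := by
      refine pow_injOn_Iio_orderOf ?_ ?_ h4
      · rw [hd.ox]
        exact hi1
      · rw [hd.ox]
        exact hi2
    rw [h5]
  · intro g hg
    have hg' : g ∈ NN x := (Finset.mem_filter.1 hg).2
    obtain ⟨i, e, he, h⟩ := hd.nN g⁻¹ ((NN x).inv_mem hg')
    have h1 : g = e⁻¹ * (x ^ i)⁻¹ := by
      rw [← mul_inv_rev, ← h, inv_inv]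
    have h2 : (x ^ i)⁻¹ ∈ Subgroup.zpowers x :=
      Subgroup.inv_mem _ (Subgroup.pow_mem _ (Subgroup.mem_zpowers x) i)
    rw [mem_zpowers_iff_mem_range_orderOf, Finset.mem_image] at h2
    obtain ⟨j, hj, hj'⟩ := h2
    rw [hd.ox] at hj
    refine ⟨(⟨e⁻¹, E.inv_mem he⟩, j), Finset.mem_product.2 ⟨Finset.mem_univ _, hj⟩, ?_⟩
    show e⁻¹ * x ^ j = g
    rw [h1]
    exact congrArg (fun y => e⁻¹ * y) hj'
  · intro p _
    rfl

end Pool.OL95
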