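import Pool.Agent.LibOL95.G4
import Pool.Agent.LibOL95.G5
import Pool.Agent.LibOL95.A2

/-!
Row G6. A map into the coinduced representation which is stably zero is a trace.

Plan. `φ = ev ∘ Φ` kills `ker D^{ℓ-1}`, so `φ = χ ∘ D^{ℓ-1}` for a `k`-linear `χ : S → W` (`LinearMap.exists_extend` on `range D^{ℓ-1}` / `quotKerEquivRange`). Let `J` be as in `exists_coi_J`,
`β s = |E|⁻¹ • J (χ s)` (`|E| ≠ 0` in `k`, `Dat.cE`). For `y : G`: `(∑_g g β (g⁻¹ s))(y) = ∑_g (β (g⁻¹ s))(y g) = ∑_n (β (n⁻¹ y s))(n)` (`g = y⁻¹ n`; zero for `n ∉ NN x`)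
`= |E|⁻¹ ∑_e ∑_i τ e χ (x^{-i} e⁻¹ y s)` (`sum_NN`) `= |E|⁻¹ ∑_e τ e χ (D^{ℓ-1} (e⁻¹ y s))` (`sum_pow_eq`, sum over `i` and over `-i` agree) `= |E|⁻¹ ∑_e τ e φ (e⁻¹ y s) = φ (y s)`
(`φ` is `E`-equivariant: `coiEv_E`) `= ev (y Φ s) = (Φ s)(y)`.
-/

set_option autoImplicit false
noncomputable section
namespace Pool.OL95

private theorem g6_inv {ℓ : ℕ} {G M : Type} [Group G] [AddCommGroup M] {x : G}
    (ox : orderOf x = ℓ) (f : G → M) :
    ∑ i ∈ Finset.range ℓ, f ((x ^ i)⁻¹) = ∑ i ∈ Finset.range ℓ, f (x ^ i) := by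
  have hx : x ^ ℓ = 1 := by rw [← ox]; exact pow_orderOf_eq_one x
  rw [← Finset.sum_range_reflect]
  have h1 : ∀ j ∈ Finset.range ℓ, f ((x ^ (ℓ - 1 - j))⁻¹) = f (x ^ (j + 1)) := by
    intro j hj
    rw [Finset.mem_range] at hj
    congr 1
    rw [inv_eq_iff_mul_eq_one, ← pow_add, show ℓ - 1 - j + (j + 1) = ℓ by omega, hx]
  rw [Finset.sum_congr rfl h1]
  have h2 := Finset.sum_range_succ (fun i => f (x ^ i)) ℓ
  rw [Finset.sum_range_succ'] at h2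
  simp only [hx, pow_zero] at h2
  exact add_right_cancel h2

private theorem g6_factor {k S W : Type} [Field k] [AddCommGroup S] [Module k S]
    [AddCommGroup W] [Module k W] (P : S →ₗ[k] S) (φ : S →ₗ[k] W)
    (h : LinearMap.ker P ≤ LinearMap.ker φ) : ∃ χ : S →ₗ[k] W, ∀ s, χ (P s) = φ s := by
  obtain ⟨χ, hχ⟩ := LinearMap.exists_extend
    (((LinearMap.ker P).liftQ φ h) ∘ₗ P.quotKerEquivRange.symm.toLinearMap)
  refine ⟨χ, fun s => ?_⟩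
  have h1 := LinearMap.congr_fun hχ ⟨P s, LinearMap.mem_range_self P s⟩
  have h2 : P.quotKerEquivRange.symm ⟨P s, LinearMap.mem_range_self P s⟩ =
      (LinearMap.ker P).mkQ s := by
    rw [LinearEquiv.symm_apply_eq]
    rfl
  rw [LinearMap.comp_apply, LinearMap.comp_apply, LinearEquiv.coe_coe, h2] at h1
  exact h1

private def g6_ev {k : Type} [Field k] {G : Type} [Group G] {W : Type} [AddCommGroup W]
    [Module k W] (x : G) (E : Subgroup G) (τ : Representation k E W) (y : G) :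
    coiSub x E τ →ₗ[k] W where
  toFun f := f.1 y
  map_add' _ _ := rfl
  map_smul' _ _ := rfl

theorem coi_trace {ℓ : ℕ} [Fact ℓ.Prime] {k : Type} [Field k] [CharP k ℓ] {G : Type} [Group G]
    [Finite G] {S W : Type} [AddCommGroup S] [Module k S] [AddCommGroup W] [Module k W] {x : G}
    {E : Subgroup G} (hd : Dat ℓ x E) (ρ : Representation k G S) (τ : Representation k E W)
    (Φ : S →ₗ[k] coiSub x E τ) (hΦ : Eqv ρ (coi x E τ) Φ)
    (h : ∀ v ∈ KD ρ x (ℓ - 1), coiEv x E τ (Φ v) = 0) :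
    ∃ β : S →ₗ[k] coiSub x E τ, ∀ s, Φ s = ∑ᶠ g : G, coi x E τ g (β (ρ g⁻¹ s)) := by
  classical
  haveI := Fintype.ofFinite G
  haveI := Fintype.ofFinite E
  obtain ⟨χ, hχ⟩ := g6_factor ((DD ρ x) ^ (ℓ - 1)) (coiEv x E τ ∘ₗ Φ) (fun v hv => h v hv)
  obtain ⟨J, -, hJ2, hJ3, -⟩ := exists_coi_J hd τ
  have hE : (Nat.card E : k) ≠ 0 := by
    rw [Ne, CharP.cast_eq_zero_iff k ℓ]
    exact hd.cE
  obtain ⟨c, hc⟩ : ∃ c : k, c = (Nat.card E : k)⁻¹ := ⟨_, rfl⟩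
  refine ⟨c • (J ∘ₗ χ), fun s => ?_⟩
  apply Subtype.ext
  funext y
  have hev : ∀ F : G → coiSub x E τ, (∑ᶠ g, F g).1 y = ∑ᶠ g, (F g).1 y := by
    intro F
    rw [finsum_eq_sum_of_fintype, finsum_eq_sum_of_fintype]
    exact map_sum (g6_ev x E τ y) F Finset.univ
  rw [hev]
  obtain ⟨F, hF⟩ : ∃ F : G → W, F = fun n => c • (J (χ (ρ (n⁻¹ * y) s))).1 n := ⟨_, rfl⟩
  have h1 : (fun g => (coi x E τ g ((c • (J ∘ₗ χ)) (ρ g⁻¹ s))).1 y) =
      fun g => F (Equiv.mulLeft y g) := by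
    funext g
    rw [hF]
    show c • (J (χ (ρ g⁻¹ s))).1 (y * g) = c • (J (χ (ρ ((y * g)⁻¹ * y) s))).1 (y * g)
    rw [show (y * g)⁻¹ * y = g⁻¹ by group]
  rw [h1, finsum_comp_equiv (Equiv.mulLeft y), sum_NN hd F (fun n hn => by
    rw [hF]
    show c • (J (χ (ρ (n⁻¹ * y) s))).1 n = 0
    rw [hJ3 _ n hn, smul_zero])]
  have h2 : ∀ e : E, ∑ i ∈ Finset.range ℓ, F (e * x ^ i) = c • (Φ s).1 y := by
    intro e
    obtain ⟨v, hv⟩ : ∃ v, v = ρ ((e : G)⁻¹ * y) s := ⟨_, rfl⟩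
    have h3 : ∀ i ∈ Finset.range ℓ, F (e * x ^ i) = c • τ e (χ (ρ ((x ^ i)⁻¹) v)) := by
      intro i _
      rw [hF]
      show c • (J (χ (ρ ((e * x ^ i)⁻¹ * y) s))).1 (e * x ^ i) = _
      rw [hJ2, hv, ← Module.End.mul_apply, ← map_mul,
        show ((e : G) * x ^ i)⁻¹ * y = (x ^ i)⁻¹ * ((e : G)⁻¹ * y) by group]
    rw [Finset.sum_congr rfl h3, g6_inv hd.ox (fun g => c • τ e (χ (ρ g v))), ← Finset.smul_sum,
      ← map_sum, ← map_sum, sum_pow_eq ρ x v, hχ]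
    congr 1
    show τ e (coiEv x E τ (Φ v)) = _
    rw [hv, hΦ]
    show τ e ((Φ s).1 (1 * ((e : G)⁻¹ * y))) = _
    rw [one_mul]
    have h4 := (Φ s).2.1 e⁻¹ y
    rw [Subgroup.coe_inv] at h4
    rw [h4, ← Module.End.mul_apply, ← map_mul, mul_inv_cancel, map_one]
    rfl
  rw [finsum_congr h2, finsum_eq_sum_of_fintype, Finset.sum_const, Finset.card_univ,
    ← Nat.card_eq_fintype_card, ← Nat.cast_smul_eq_nsmul k, smul_smul, hc, mul_inv_cancel₀ hE,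
    one_smul]

end Pool.OL95
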